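import Pool.Agent.H41.TK.LAB

/-!
# [H41 TK MU] multiplication of adeles by a divisor, 40-70 lines

For a divisor `E` the map `a ↦ (x ↦ a x * (E.eq x)⁻¹)` is a linear equivalence `mE` of `X.P → K` (inverse: multiplication by `E.eq x`; `E.ne x`), and it maps `AdD D` onto `AdD (D * E)`: `a x * (E.eq x)⁻¹ * (D.eq x * E.eq x) = a x * D.eq x` (`mul_eq`, H54/RV/Grp.lean).  So `qd_map`, `fq_map` (LAB.lean) give `qd_mul`.

For `f ≠ 0` the map `mf`: `a ↦ f a` maps `AdD (D * prin X f hf)` onto `AdD D`, `Kd X` onto `Kd X` and `Adl X` onto `Adl X` (`f`, `f⁻¹` are in `O x` for almost all `x`: take this as the hypothesis `hfin`).  `Submodule.map_sup`.  So `hh_prin`: `qd (Adl X) (AdD (D * prin X f hf) ⊔ Kd X) = qd (Adl X) (AdD D ⊔ Kd X)`, the same for `Fq`.  `h0_prin`: `s ↦ f s` is a linear equivalence `secL (D * prin X f hf) 1 ≃ secL D 1`.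
-/

set_option autoImplicit false

namespace Pool.Agent.H41.TK

open Pool.Agent.H54.RV Pool.Agent.H83.TU

variable {k K : Type} [Field k] [Field K] [Algebra k K] {X : Mod k K}

/-- division by the local equations -/
private noncomputable def mE (E : Cart X) : (X.P → K) ≃ₗ[k] (X.P → K) where
  toFun a x := a x * (E.eq x)⁻¹
  invFun a x := a x * E.eq x
  map_add' a b := by
    funext x
    show (a x + b x) * _ = a x * _ + b x * _
    ring
  map_smul' c a := by
    funext x
    show (c • a x) * _ = c • (a x * _)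
    rw [smul_mul_assoc]
  left_inv a := by
    funext x
    show a x * (E.eq x)⁻¹ * E.eq x = a x
    rw [inv_mul_cancel_right₀ (E.ne x)]
  right_inv a := by
    funext x
    show a x * E.eq x * (E.eq x)⁻¹ = a x
    rw [mul_inv_cancel_right₀ (E.ne x)]

private theorem mE_map (D E : Cart X) :
    (AdD D).map ((mE E : (X.P → K) ≃ₗ[k] (X.P → K)) : (X.P → K) →ₗ[k] (X.P → K)) = AdD (D * E) := by
  ext a
  constructor
  · rintro ⟨b, hb, rfl⟩ x
    show b x * (E.eq x)⁻¹ * (D.eq x * E.eq x) ∈ X.O x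
    have h1 : b x * (E.eq x)⁻¹ * (D.eq x * E.eq x) = b x * D.eq x := by
      have := E.ne x
      field_simp
    rw [h1]
    exact hb x
  · intro ha
    refine ⟨fun x => a x * E.eq x, fun x => ?_, ?_⟩
    · show a x * E.eq x * D.eq x ∈ X.O x
      have h1 := ha x
      rw [mul_eq, mul_comm (D.eq x), ← mul_assoc] at h1
      exact h1
    · funext x
      show a x * E.eq x * (E.eq x)⁻¹ = a x
      rw [mul_inv_cancel_right₀ (E.ne x)]

theorem qd_mul (D D' E : Cart X) : qd (AdD (D * E)) (AdD (D' * E)) = qd (AdD D) (AdD D') := by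
  rw [← mE_map D E, ← mE_map D' E, qd_map]

theorem ix_mul (D D' E : Cart X) : ix (AdD (D * E)) (AdD (D' * E)) = ix (AdD D) (AdD D') := by
  unfold ix
  rw [qd_mul, qd_mul]

private theorem mE_kd (f : K) (hf : f ≠ 0) :
    (Kd X).map ((mE (prin X f hf) : (X.P → K) ≃ₗ[k] (X.P → K)) : (X.P → K) →ₗ[k] (X.P → K)) = Kd X := by
  ext a
  constructor
  · rintro ⟨b, ⟨g, hg⟩, rfl⟩
    exact ⟨g * f⁻¹, fun x => by
      show b x * f⁻¹ = g * f⁻¹
      rw [hg x]⟩
  · rintro ⟨g, hg⟩
    refine ⟨fun _ => g * f, ⟨g * f, fun _ => rfl⟩, ?_⟩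
    funext x
    show g * f * f⁻¹ = a x
    rw [mul_inv_cancel_right₀ hf, hg x]

private theorem mul_adl {f : K} (g : K) (hg : g = f ∨ g = f⁻¹) (hfin : {x : X.P | ¬ Un (X.O x) f}.Finite)
    (a : X.P → K) (ha : a ∈ Adl X) : (fun x => a x * g) ∈ Adl X := by
  refine (hfin.union ha).subset fun x hx => ?_
  by_contra hcon
  have h1 : Un (X.O x) f := by
    by_contra h2
    exact hcon (Or.inl h2)
  have h2 : a x ∈ X.O x := by
    by_contra h3
    exact hcon (Or.inr h3)
  refine hx ((X.O x).mul_mem h2 ?_)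
  rcases hg with rfl | rfl
  · exact h1.2.1
  · exact h1.2.2

private theorem mE_adl (f : K) (hf : f ≠ 0) (hfin : {x : X.P | ¬ Un (X.O x) f}.Finite) :
    (Adl X).map ((mE (prin X f hf) : (X.P → K) ≃ₗ[k] (X.P → K)) : (X.P → K) →ₗ[k] (X.P → K)) = Adl X := by
  ext a
  constructor
  · rintro ⟨b, hb, rfl⟩
    exact mul_adl f⁻¹ (Or.inr rfl) hfin b hb
  · intro ha
    refine ⟨fun x => a x * f, mul_adl f (Or.inl rfl) hfin a ha, ?_⟩
    funext x
    show a x * f * f⁻¹ = a x
    rw [mul_inv_cancel_right₀ hf]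

theorem hh_prin (D : Cart X) (f : K) (hf : f ≠ 0) (hfin : {x | ¬ Un (X.O x) f}.Finite) :
    hh (D * prin X f hf) = hh D := by
  unfold hh
  rw [← mE_map D (prin X f hf)]
  have h1 := qd_map (mE (prin X f hf) : (X.P → K) ≃ₗ[k] (X.P → K)) (Adl X) (AdD D ⊔ Kd X)
  rw [Submodule.map_sup, mE_kd f hf, mE_adl f hf hfin] at h1
  exact h1

theorem h0_prin (D : Cart X) (f : K) (hf : f ≠ 0) : h0 (D * prin X f hf) 1 = h0 D 1 := by
  let e : secL (D * prin X f hf) 1 ≃ₗ[k] secL D 1 :=
    { toFun := fun s => ⟨s.1 * f, fun x => by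
        have := s.2 x
        rw [pow_one] at this ⊢
        have h2 : s.1 * (D * prin X f hf).eq x = s.1 * f * D.eq x := by
          show s.1 * (D.eq x * f) = _
          ring
        rwa [h2] at this⟩
      invFun := fun s => ⟨s.1 * f⁻¹, fun x => by
        have := s.2 x
        rw [pow_one] at this ⊢
        have h2 : s.1 * f⁻¹ * (D * prin X f hf).eq x = s.1 * D.eq x := by
          show s.1 * f⁻¹ * (D.eq x * f) = _
          field_simp
        rwa [h2]⟩
      map_add' := fun s t => Subtype.ext (add_mul _ _ _)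
      map_smul' := fun c s => Subtype.ext (smul_mul_assoc _ _ _)
      left_inv := fun s => Subtype.ext (mul_inv_cancel_right₀ hf _)
      right_inv := fun s => Subtype.ext (inv_mul_cancel_right₀ hf _) }
  exact e.finrank_eq

end Pool.Agent.H41.TK
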