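import Pool.Agent.H41.TK.SH

/-!
# [H41 TK DG] the degree is a homomorphism, positive on ample divisors and `0` on numerically trivial ones
-/

set_option autoImplicit false

namespace Pool.Agent.H41.TK

open Pool.Agent.H54.RV Pool.Agent.H83.TU

variable {k K : Type} [Field k] [Field K] [Algebra k K] {X : Mod k K}

theorem dg_one : dg (1 : Cart X) = 0 := ix_self _

theorem dg_mul [CharZero k] (h : Crv X) (D E : Cart X) : dg (D * E) = dg D + dg E := by
  have h1 : ix (AdD (D * E)) (AdD (1 : Cart X)) = ix (AdD (D * E)) (AdD (1 * E)) + ix (AdD (1 * E)) (AdD (1 : Cart X)) :=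
    ix_add (ad_fin h _ _) (ad_fin h _ _) (ad_fin h _ _) (ad_fin h _ _)
  rw [ix_mul, one_mul] at h1
  exact h1

theorem dg_inv [CharZero k] (h : Crv X) (D : Cart X) : dg D⁻¹ = - dg D := by
  have h1 := dg_mul h D D⁻¹
  rw [mul_inv_cancel, dg_one] at h1
  omega

theorem dg_pow [CharZero k] (h : Crv X) (D : Cart X) (n : ℕ) : dg (D ^ n) = n * dg D := by
  induction n with
  | zero => rw [pow_zero, dg_one]; simp
  | succ n ih =>
    rw [pow_succ, dg_mul h, ih]
    push_cast
    ring

theorem dg_div [CharZero k] (h : Crv X) (D E : Cart X) : dg (D * E⁻¹) = dg D - dg E := by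
  rw [dg_mul h, dg_inv h]
  ring

theorem dg_prin [CharZero k] (h : Crv X) (f : K) (hf : f ≠ 0) : dg (prin X f hf) = 0 := by
  have h1 := rr h (1 * prin X f hf)
  rw [hh_prin 1 f hf (fin_un h f hf), h0_prin, one_mul] at h1
  unfold chi at h1
  omega

/-- `AdD E ≤ AdD D` if `D - E` is effective -/
theorem ad_mono (D E : Cart X) (hE : ∀ x, D.eq x / E.eq x ∈ X.O x) : AdD E ≤ AdD D := by
  intro a ha x
  have h1 := (X.O x).mul_mem (ha x) (hE x)
  have h2 : a x * E.eq x * (D.eq x / E.eq x) = a x * D.eq x := by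
    have := E.ne x
    field_simp
  rwa [h2] at h1

theorem ix_eff {k V : Type} [Field k] [AddCommGroup V] [Module k V] {M N : Submodule k V} (h : N ≤ M) :
    0 ≤ ix M N := by
  rw [ix_le h]
  exact Int.natCast_nonneg _

theorem dg_eff (D : Cart X) (hD : Effective D) : 0 ≤ dg D := by
  refine ix_eff (ad_mono D 1 fun x => ?_)
  rw [one_eq, div_one]
  exact hD x

theorem dg_le [CharZero k] (h : Crv X) (D E : Cart X) (hE : ∀ x, D.eq x / E.eq x ∈ X.O x) : dg E ≤ dg D := by
  have h1 := dg_eff (D * E⁻¹) (fun x => by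
    rw [mul_eq, inv_eq, ← div_eq_mul_inv]
    exact hE x)
  rw [dg_div h] at h1
  omega

theorem dg_eff_zero [CharZero k] (h : Crv X) (D : Cart X) (hD : Effective D) (h0 : dg D = 0) (x : X.P) :
    Un (X.O x) (D.eq x) := by
  have h1 : AdD (1 : Cart X) ≤ AdD D := ad_mono D 1 fun x => by
    rw [one_eq, div_one]
    exact hD x
  have h2 : dg D = qd (AdD D) (AdD 1) := ix_le h1
  have h3 : qd (AdD D) (AdD (1 : Cart X)) = 0 := by omega
  have h4 := (qd_eq_zero (ad_fin h D 1)).1 h3
  have h5 : (fun x => (D.eq x)⁻¹) ∈ AdD D := fun x => by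
    show (D.eq x)⁻¹ * D.eq x ∈ X.O x
    rw [inv_mul_cancel₀ (D.ne x)]
    exact (X.O x).one_mem
  have h6 := h4 h5 x
  rw [one_eq, mul_one] at h6
  exact ⟨D.ne x, hD x, h6⟩

/-- the divisor of a section -/
theorem dg_sec [CharZero k] (h : Crv X) (D : Cart X) (n : ℕ) (s : K) (hs : Sec D n s) (hs0 : s ≠ 0) :
    0 ≤ n * dg D := by
  have h1 : Effective (D ^ n * prin X s hs0) := fun x => by
    rw [mul_eq, pow_eq, mul_comm]
    exact hs x
  have h2 := dg_eff _ h1
  rw [dg_mul h, dg_prin h, dg_pow h, add_zero] at h2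
  exact h2

theorem dg_ample [CharZero k] (h : Crv X) (A : Cart X) (hA : Ample A) : 0 < dg A := by
  obtain ⟨x⟩ := h.var.ne
  obtain ⟨n, hn, s, hs, hx, haff⟩ := hA x
  have hs0 : s ≠ 0 := by
    rintro rfl
    exact hx.1 (zero_mul _)
  have h1 : Effective (A ^ n * prin X s hs0) := fun x => by
    rw [mul_eq, pow_eq, mul_comm]
    exact hs x
  have h2 : dg (A ^ n * prin X s hs0) = n * dg A := by
    rw [dg_mul h, dg_prin h, dg_pow h, add_zero]
  have h3 := dg_eff _ h1
  by_contra hcon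
  have h4 : (n : ℤ) * dg A ≤ 0 := mul_nonpos_of_nonneg_of_nonpos (Int.natCast_nonneg _) (by omega)
  have h5 : dg (A ^ n * prin X s hs0) = 0 := by omega
  have h6 : nz A n s = Set.univ := by
    ext y
    refine ⟨fun _ => trivial, fun _ => ?_⟩
    have h7 := dg_eff_zero h _ h1 h5 y
    rw [mul_eq, pow_eq, mul_comm] at h7
    exact h7
  rw [h6] at haff
  exact not_aff h haff

theorem numz_step (D : Cart X) (hD : NumZ D) (n : ℕ) (A : Cart X) (hA : Ample A) :
    Ample (A * D ^ n) ∧ Ample (A * D⁻¹ ^ n) := by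
  induction n with
  | zero => simpa using hA
  | succ n ih =>
    rw [pow_succ, pow_succ, ← mul_assoc, ← mul_assoc]
    exact ⟨(hD _ ih.1).1, (hD _ ih.2).2⟩

theorem dg_numz [CharZero k] (h : Crv X) (D : Cart X) (hD : NumZ D) : dg D = 0 := by
  obtain ⟨A, hA⟩ := h.amp
  have h0 := dg_ample h A hA
  have key : ∀ n : ℕ, 0 < dg A + n * dg D ∧ 0 < dg A - n * dg D := by
    intro n
    obtain ⟨h1, h2⟩ := numz_step D hD n A hA
    have h3 := dg_ample h _ h1
    have h4 := dg_ample h _ h2
    rw [dg_mul h, dg_pow h] at h3 h4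
    rw [dg_inv h] at h4
    constructor
    · exact h3
    · linarith
  obtain ⟨h1, h2⟩ := key (dg A).toNat
  rw [Int.toNat_of_nonneg h0.le] at h1 h2
  by_contra hne
  rcases lt_or_gt_of_ne hne with h5 | h5
  · nlinarith
  · nlinarith

/-- the degree on the curve of a numerically trivial divisor of another variety (`φ`: restriction to the curve) -/
theorem dg_numz_hom [CharZero k] (h : Crv X) {K' : Type} [Field K'] [Algebra k K'] {Y : Mod k K'} (φ : Cart Y →* Cart X)
    (hφ : ∀ A : Cart Y, Ample A → Ample (φ A)) (hY : ∃ A : Cart Y, Ample A) (D : Cart Y) (hD : NumZ D) :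
    dg (φ D) = 0 := by
  obtain ⟨A, hA⟩ := hY
  have h0 := dg_ample h _ (hφ A hA)
  have key : ∀ n : ℕ, 0 < dg (φ A) + n * dg (φ D) ∧ 0 < dg (φ A) - n * dg (φ D) := by
    intro n
    obtain ⟨h1, h2⟩ := numz_step D hD n A hA
    have h3 := dg_ample h _ (hφ _ h1)
    have h4 := dg_ample h _ (hφ _ h2)
    rw [map_mul, map_pow, dg_mul h, dg_pow h] at h3 h4
    rw [map_inv, dg_inv h] at h4
    constructor
    · exact h3
    · linarith
  obtain ⟨h1, h2⟩ := key (dg (φ A)).toNat
  rw [Int.toNat_of_nonneg h0.le] at h1 h2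
  by_contra hne
  rcases lt_or_gt_of_ne hne with h5 | h5
  · nlinarith
  · nlinarith

theorem h0_neg [CharZero k] (h : Crv X) (D : Cart X) (hD : dg D < 0) : h0 D 1 = 0 := by
  have h1 : secL D 1 = ⊥ := by
    rw [eq_bot_iff]
    intro s hs
    by_contra hs0
    have h2 := dg_sec h D 1 s hs hs0
    simp only [Nat.cast_one, one_mul] at h2
    omega
  unfold h0
  rw [h1]
  exact finrank_bot k K

/-- `h0 D ≤ dg D + h0 1` if `dg D ≥ 0` -/
theorem h0_le_dg [CharZero k] (h : Crv X) (D : Cart X) (hD : 0 ≤ dg D) : (h0 D 1 : ℤ) ≤ dg D + h0 (1 : Cart X) 1 := by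
  by_cases hne : ∃ s ∈ secL D 1, s ≠ 0
  · obtain ⟨s, hs, hs0⟩ := hne
    have h1 : Effective (D * prin X s hs0) := fun x => by
      have := hs x
      rw [pow_one] at this
      rw [mul_eq, mul_comm]
      exact this
    have h2 : AdD (1 : Cart X) ≤ AdD (D * prin X s hs0) := ad_mono _ 1 fun x => by
      rw [one_eq, div_one]
      exact h1 x
    have h3 := hh_le h _ _ h2
    have h4 : dg (D * prin X s hs0) = qd (AdD (D * prin X s hs0)) (AdD 1) := ix_le h2
    rw [dg_mul h, dg_prin h, add_zero] at h4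
    rw [h0_prin, hh_prin D s hs0 (fin_un h s hs0)] at h3
    have h5 : hh D ≤ hh (1 : Cart X) := by
      -- `H¹` of the larger divisor is a quotient
      have h6 : qd (Adl X) (AdD (D * prin X s hs0) ⊔ Kd X) = hh D := hh_prin D s hs0 (fin_un h s hs0)
      have h7 := qd_add (sup_le_sup_right h2 (Kd X)) (sup_le (ad_le h _) (kd_le h)) (hh_fin h 1)
      rw [← h6]
      unfold hh
      omega
    omega
  · push Not at hne
    have h1 : secL D 1 = ⊥ := by
      rw [eq_bot_iff]
      intro s hs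
      exact hne s hs
    have h2 : h0 D 1 = 0 := by
      unfold h0
      rw [h1]
      exact finrank_bot k K
    rw [h2]
    have : (0 : ℤ) ≤ h0 (1 : Cart X) 1 := Int.natCast_nonneg _
    push_cast
    omega

theorem hh_mono [CharZero k] (h : Crv X) (D E : Cart X) (hle : AdD E ≤ AdD D) :
    hh D ≤ hh E ∧ (hh E : ℤ) ≤ hh D + (dg D - dg E) := by
  have h7 := qd_add (sup_le_sup_right hle (Kd X)) (sup_le (ad_le h _) (kd_le h)) (hh_fin h E)
  have h8 := hh_le h D E hle
  have h9 := rr h D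
  have h10 := rr h E
  have h11 : h0 E 1 ≤ h0 D 1 := by
    have h12 := qd_sec h D E hle
    omega
  constructor
  · unfold hh
    omega
  · omega

/-- the dimension of `H⁰` is at least the degree `+ chi` -/
theorem h0_ge [CharZero k] (h : Crv X) (D : Cart X) : dg D + chi X ≤ h0 D 1 := by
  have h1 := rr h D
  omega

theorem h0_one_pos (h : Crv X) [CharZero k] : 1 ≤ h0 (1 : Cart X) 1 := by
  haveI := sec_fin h 1
  have h1 : (1 : K) ∈ secL (1 : Cart X) 1 := fun x => by
    rw [one_eq, one_pow, mul_one]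
    exact (X.O x).one_mem
  haveI : Nontrivial (secL (1 : Cart X) 1) := ⟨⟨1, h1⟩, 0, fun hc => one_ne_zero (congrArg Subtype.val hc)⟩
  exact Module.finrank_pos

/-- for large degree `h0 D = dg D + chi` -/
theorem h0_eq [CharZero k] (h : Crv X) (D : Cart X) (hD : - 2 * chi X < dg D) : (h0 D 1 : ℤ) = dg D + chi X := by
  have h1 := rr h D
  rw [sharp h D hD] at h1
  push_cast at h1
  omega

end Pool.Agent.H41.TK
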