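import Pool.Agent.H41.TK.PT

/-!
# [H41 TK FU] functions and divisors are units at almost all points, 60-110 lines

`fin_aff`: `U` affine, `0 ≠ a ∈ sec U`: `{x ∈ U : ¬ Un (O x) a}` is finite.  PROOF.  `A = sec U` is a finitely generated algebra (`IsVar.fg`), noetherian.  For such `x` the prime `p_x = {b ∈ A : ¬ Un (O x) b}` contains `a ≠ 0`, so it is nonzero, maximal (`max_of_ne`), and minimal over `(a)`: a prime `q` with `a ∈ q ≤ p_x` is nonzero, so maximal, so `q = p_x`.  So `p_x ∈ (Ideal.span {a}).minimalPrimes`, a finite set (`Ideal.finite_minimalPrimes_of_isNoetherianRing`).  `x ↦ p_x` is injective on these `x` (`pt_le`; `O x ≠ ⊤` because `a ≠ 0` is not a unit at `x`).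

`fin_un`: `f ≠ 0`: `f = b / s` with `b, s ∈ sec U` nonzero (`gen_frac`), so on `U` the set is contained in the union of two finite sets; `X` is covered by finitely many affine sets (`IsVar.comp`, `IsVar.chart`, `IsVar.op`, `isCompact_univ.elim_nhds_subcover` as in `fin_cover`).

`fin_cart`: `fin_cover` (H83/TU/RA.lean): finitely many points `x_i` such that every `y` has `Un (O y) (D.eq y / D.eq x_i)` for some `i`; `D.eq y` is then a unit at `y` if `D.eq x_i` is; `fin_un` for the `D.eq x_i`.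

`fin_top`: `{x | a x ∉ O x}` for `a ∈ Adl` etc.: nothing to do.
-/

set_option autoImplicit false

namespace Pool.Agent.H41.TK

open Pool.Agent.H54.RV Pool.Agent.H83.TU

variable {k K : Type} [Field k] [Field K] [Algebra k K] {X : Mod k K}

/-- the prime ideal of a point of an affine set -/
private def px (X : Mod k K) (U : Set X.P) (x : X.P) (hx : x ∈ U) : Ideal (X.sec U) :=
  (IsLocalRing.maximalIdeal (X.O x)).comap
    (Subalgebra.inclusion (fun _ ha => (mem_sec U _).1 ha x hx : X.sec U ≤ X.O x)).toRingHom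

private theorem mem_px {U : Set X.P} {x : X.P} (hx : x ∈ U) (b : X.sec U) :
    b ∈ px X U x hx ↔ ¬ Un (X.O x) (b : K) := by
  have hb : (b : K) ∈ X.O x := (mem_sec U _).1 b.2 x hx
  rw [← un_iff hb]
  rfl

private theorem px_prime {U : Set X.P} {x : X.P} (hx : x ∈ U) : (px X U x hx).IsPrime := by
  unfold px
  exact Ideal.comap_isPrime _ _

open Classical in
theorem fin_aff [CharZero k] (h : Crv X) (U : Set X.P) (hU : X.aff U) (a : K) (ha : a ∈ X.sec U) (h0 : a ≠ 0) :
    {x | x ∈ U ∧ ¬ Un (X.O x) a}.Finite := by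
  rcases Set.eq_empty_or_nonempty U with he | hne
  · rw [he]
    simp
  have h1 : Algebra.FiniteType k (X.sec U) := (Subalgebra.fg_iff_finiteType _).1 (h.var.fg U hU hne)
  have h2 : IsNoetherianRing (X.sec U) := Algebra.FiniteType.isNoetherianRing k (X.sec U)
  let f : X.P → Ideal (X.sec U) := fun x => if hx : x ∈ U then px X U x hx else ⊥
  have hf : ∀ x (hx : x ∈ U), f x = px X U x hx := fun x hx => dif_pos hx
  refine Set.Finite.of_finite_image (f := f) ?_ ?_
  · refine (Ideal.finite_minimalPrimes_of_isNoetherianRing (X.sec U) (Ideal.span {⟨a, ha⟩})).subset ?_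
    rintro _ ⟨x, ⟨hx, hxa⟩, rfl⟩
    rw [hf x hx]
    have hap : (⟨a, ha⟩ : X.sec U) ∈ px X U x hx := (mem_px hx _).2 hxa
    refine ⟨⟨px_prime hx, ?_⟩, ?_⟩
    · rw [Ideal.span_le, Set.singleton_subset_iff]
      exact hap
    · rintro q ⟨hq, hle⟩ hqp
      have haq : (⟨a, ha⟩ : X.sec U) ∈ q := hle (Ideal.mem_span_singleton_self _)
      have hq0 : q ≠ ⊥ := by
        intro hq0
        rw [hq0, Ideal.mem_bot] at haq
        exact h0 (congrArg Subtype.val haq)
      have hmax := max_of_ne h.tr (X.sec U) q hq hq0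
      exact (hmax.eq_of_le (px_prime hx).ne_top hqp).ge
  · rintro x ⟨hx, hxa⟩ y ⟨hy, hya⟩ hxy
    rw [hf x hx, hf y hy] at hxy
    refine pt_le h U hU x y hx hy ?_ ?_
    · intro htop
      apply hxa
      rw [htop]
      exact ⟨h0, Algebra.mem_top, Algebra.mem_top⟩
    · intro b hb hbx
      have h3 : (⟨b, hb⟩ : X.sec U) ∈ px X U x hx := (mem_px hx _).2 hbx
      rw [hxy] at h3
      exact (mem_px hy _).1 h3

private theorem fin_loc [CharZero k] (h : Crv X) (U : Set X.P) (hU : X.aff U) (hne : U.Nonempty) (f : K)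
    (hf : f ≠ 0) : {x | x ∈ U ∧ ¬ Un (X.O x) f}.Finite := by
  obtain ⟨s, hs, hs0, hfs⟩ := gen_frac h.var h.gen U hU hne f
  refine ((fin_aff h U hU (f * s) hfs (mul_ne_zero hf hs0)).union (fin_aff h U hU s hs hs0)).subset ?_
  rintro x ⟨hx, hxf⟩
  by_contra hcon
  apply hxf
  have h1 : Un (X.O x) (f * s) := by
    by_contra h1
    exact hcon (Or.inl ⟨hx, h1⟩)
  have h2 : Un (X.O x) s := by
    by_contra h2
    exact hcon (Or.inr ⟨hx, h2⟩)
  have h3 := un_div h1 h2
  rwa [mul_div_cancel_right₀ _ hs0] at h3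

theorem fin_un [CharZero k] (h : Crv X) (f : K) (hf : f ≠ 0) : {x | ¬ Un (X.O x) f}.Finite := by
  choose U hU hxU using h.var.chart
  have := h.var.comp
  obtain ⟨T, -, hT⟩ := (isCompact_univ (X := X.P)).elim_nhds_subcover U
    (fun x _ => (h.var.op _ (hU x)).mem_nhds (hxU x))
  refine Set.Finite.subset (T.finite_toSet.biUnion fun x _ =>
    fin_loc h (U x) (hU x) ⟨x, hxU x⟩ f hf) ?_
  intro y hy
  have h1 := hT (Set.mem_univ y)
  rw [Set.mem_iUnion₂] at h1
  obtain ⟨x, hx, hyx⟩ := h1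
  rw [Set.mem_iUnion₂]
  exact ⟨x, hx, hyx, hy⟩

theorem fin_cart [CharZero k] (h : Crv X) (D : Cart X) : {x | ¬ Un (X.O x) (D.eq x)}.Finite := by
  obtain ⟨T, hT⟩ := fin_cover h.var D
  refine Set.Finite.subset (T.finite_toSet.biUnion fun x _ => fin_un h (D.eq x) (D.ne x)) ?_
  intro y hy
  obtain ⟨x, hx, hun⟩ := hT y
  rw [Set.mem_iUnion₂]
  refine ⟨x, hx, fun h1 => hy ?_⟩
  have h2 := un_mul hun h1
  rwa [div_mul_cancel₀ _ (D.ne x)] at h2

end Pool.Agent.H41.TK
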