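import Pool.Agent.H41.TK.FL
import Pool.Agent.H41.TK.FU

/-!
# [H41 TK AF] strong approximation on an affine curve, 90-150 lines

`U` affine, nonempty, `D` a divisor, `a` an adele: there is `f ∈ K` with `(a x - f) D.eq x ∈ O x` for all `x ∈ U`.

PROOF.  `A = sec U`.  Let `T₁ = {x ∈ U : a x ∉ O x or ¬ Un (O x) (D.eq x)}`, finite (`mem_Adl`, `fin_cart`).  For `x ∈ T₁` choose `c_x ∈ A`, nonzero, with `a x * c_x ∈ A` and `c_x' ∈ A`, nonzero, with `(1 / D.eq x) * c_x' ∈ A` (`gen_frac`), and let `c ∈ A` be the product of all these: `c ≠ 0`, `c * a x ∈ A`, `c / D.eq x ∈ A` for `x ∈ T₁`, so both are in `O x` for all `x ∈ U` (outside `T₁`: `a x ∈ O x`, `D.eq x` is a unit).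
Let `T = {x ∈ U : ¬ Un (O x) (c / D.eq x)} ∪ T₁`, finite (`c` and `D.eq x` are units at almost all points: `fin_un`, `fin_cart`), without the points with `O x = ⊤` (there nothing has to be shown).  `g_x = c / D.eq x ∈ O x`, nonzero.  For `x ∈ T` let `I_x = {b ∈ A : b / g_x ∈ O x}`, an ideal of `A`.  By `surj_loc` there is `b_x ∈ A` with `(b_x - c * a x) / g_x ∈ O x`.
The ideals `I_x`, `x ∈ T`, are pairwise comaximal: otherwise a maximal ideal `M` contains `I_x` and `I_y`, `x ≠ y`; for `q ∈ p_x` (`q ∈ A`, not a unit at `x`) `dim1` (for `b = 1 / g_x`) gives `q ^ n ∈ I_x ≤ M`, `q ∈ M`: `p_x ≤ M`, and `p_x` is maximal (`max_of_ne`, nonzero because `O x ≠ ⊤`), so `M = p_x`, and `M = p_y`: `p_x = p_y`, `x = y` by `pt_le`.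
Chinese remainder theorem (`Ideal.exists_forall_sub_mem_ideal`): `b ∈ A` with `b - b_x ∈ I_x` for all `x ∈ T`.  `f = b / c`: for `x ∈ T`: `(f - a x) D.eq x = (b - c a x) / g_x ∈ O x`.  For `x ∈ U`, `x ∉ T`, `O x ≠ ⊤`: `g_x` and `D.eq x` are units at `x`, so `c` is, `b / c ∈ O x`, `a x ∈ O x`: fine.
-/

set_option autoImplicit false

namespace Pool.Agent.H41.TK

open Pool.Agent.H54.RV Pool.Agent.H83.TU

variable {k K : Type} [Field k] [Field K] [Algebra k K] {X : Mod k K}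

/-- the prime ideal of a point of an affine set -/
private def px (X : Mod k K) (U : Set X.P) (x : X.P) (hx : x ∈ U) : Ideal (X.sec U) :=
  (IsLocalRing.maximalIdeal (X.O x)).comap
    (Subalgebra.inclusion (fun _ ha => (mem_sec U _).1 ha x hx : X.sec U ≤ X.O x)).toRingHom

private theorem mem_px {U : Set X.P} {x : X.P} (hx : x ∈ U) (b : X.sec U) :
    b ∈ px X U x hx ↔ ¬ Un (X.O x) (b : K) := by
  have hb : (b : K) ∈ X.O x := (mem_sec U _).1 b.2 x hx
  rw [← un_iff hb]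
  rfl

private theorem px_prime {U : Set X.P} {x : X.P} (hx : x ∈ U) : (px X U x hx).IsPrime := by
  unfold px
  exact Ideal.comap_isPrime _ _

/-- the regular functions divisible by `g` at `x` -/
private def ig (X : Mod k K) (U : Set X.P) (x : X.P) (hx : x ∈ U) (g : K) : Ideal (X.sec U) where
  carrier := {b | (b : K) / g ∈ X.O x}
  add_mem' := by
    intro a b ha hb
    show ((a : K) + (b : K)) / g ∈ X.O x
    rw [add_div]
    exact (X.O x).add_mem ha hb
  zero_mem' := by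
    show (0 : K) / g ∈ X.O x
    rw [zero_div]
    exact (X.O x).zero_mem
  smul_mem' := by
    intro c b hb
    show ((c : K) * (b : K)) / g ∈ X.O x
    rw [mul_div_assoc]
    exact (X.O x).mul_mem ((mem_sec U _).1 c.2 x hx) hb

private theorem mem_ig {U : Set X.P} {x : X.P} (hx : x ∈ U) (g : K) (b : X.sec U) :
    b ∈ ig X U x hx g ↔ (b : K) / g ∈ X.O x := Iff.rfl

private theorem px_max (h : Crv X) {U : Set X.P} (hU : X.aff U) {x : X.P} (hx : x ∈ U) (ht : X.O x ≠ ⊤) :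
    (px X U x hx).IsMaximal := by
  refine max_of_ne h.tr (X.sec U) _ (px_prime hx) ?_
  intro h0
  apply ht
  rw [eq_top_iff]
  intro z _
  obtain ⟨s, hs, hs0, hzs⟩ := gen_frac h.var h.gen U hU ⟨x, hx⟩ z
  have h1 : Un (X.O x) s := by
    by_contra h1
    have h2 : (⟨s, hs⟩ : X.sec U) ∈ px X U x hx := (mem_px hx _).2 h1
    rw [h0, Ideal.mem_bot] at h2
    exact hs0 (congrArg Subtype.val h2)
  have h2 : z = z * s * s⁻¹ := by
    rw [mul_assoc, mul_inv_cancel₀ hs0, mul_one]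
  rw [h2]
  exact (X.O x).mul_mem ((mem_sec U _).1 hzs x hx) h1.2.2

private theorem px_le (h : Crv X) {U : Set X.P} {x : X.P} (hx : x ∈ U) (g : K) (M : Ideal (X.sec U))
    (hM : M.IsPrime) (hle : ig X U x hx g ≤ M) : px X U x hx ≤ M := by
  intro q hq
  by_cases hq0 : q = 0
  · rw [hq0]
    exact M.zero_mem
  have h1 : (q : K) ≠ 0 := fun h1 => hq0 (Subtype.ext h1)
  obtain ⟨n, hn⟩ := dim1 h x q ((mem_sec U _).1 q.2 x hx) h1 ((mem_px hx q).1 hq) g⁻¹
  have h2 : q ^ n ∈ M := by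
    apply hle
    rw [mem_ig]
    rw [div_eq_mul_inv]
    exact hn
  exact hM.mem_of_pow_mem n h2

open Classical in
theorem aff_adl [CharZero k] (h : Crv X) (U : Set X.P) (hU : X.aff U) (hne : U.Nonempty) (D : Cart X)
    (a : X.P → K) (ha : a ∈ Adl X) : ∃ f : K, ∀ x ∈ U, (a x - f) * D.eq x ∈ X.O x := by
  obtain ⟨T1, hT1⟩ : ∃ T1 : Set X.P, T1 = {x | a x ∉ X.O x} ∪ {x | ¬ Un (X.O x) (D.eq x)} := ⟨_, rfl⟩
  have hf1 : T1.Finite := by
    rw [hT1]
    exact Set.Finite.union ((mem_Adl a).1 ha) (fin_cart h D)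
  have hn1 : ∀ x, x ∉ T1 → a x ∈ X.O x ∧ Un (X.O x) (D.eq x) := by
    intro x hx
    rw [hT1] at hx
    constructor
    · by_contra h1
      exact hx (Or.inl h1)
    · by_contra h1
      exact hx (Or.inr h1)
  -- common denominators
  choose s hs hs0 has using fun x : X.P => gen_frac h.var h.gen U hU hne (a x)
  choose s' hs' hs0' hds using fun x : X.P => gen_frac h.var h.gen U hU hne (D.eq x)⁻¹
  obtain ⟨c, hc⟩ : ∃ c : K, c = ∏ x ∈ hf1.toFinset, s x * s' x := ⟨_, rfl⟩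
  have hcA : c ∈ X.sec U := by
    rw [hc]
    exact Subalgebra.prod_mem _ fun x _ => (X.sec U).mul_mem (hs x) (hs' x)
  have hc0 : c ≠ 0 := by
    rw [hc]
    exact Finset.prod_ne_zero_iff.2 fun x _ => mul_ne_zero (hs0 x) (hs0' x)
  have hcx : ∀ x ∈ U, c ∈ X.O x := fun x hx => (mem_sec U _).1 hcA x hx
  have hsplit : ∀ x ∈ T1, ∃ e ∈ X.sec U, c = s x * s' x * e := by
    intro x hx
    refine ⟨∏ y ∈ hf1.toFinset.erase x, s y * s' y,
      Subalgebra.prod_mem _ fun y _ => (X.sec U).mul_mem (hs y) (hs' y), ?_⟩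
    rw [hc]
    exact (Finset.mul_prod_erase _ _ (hf1.mem_toFinset.2 hx)).symm
  have hca : ∀ x ∈ U, c * a x ∈ X.O x := by
    intro x hx
    by_cases h1 : x ∈ T1
    · obtain ⟨e, he, hce⟩ := hsplit x h1
      have h2 : c * a x = a x * s x * (s' x * e) := by
        rw [hce]
        ring
      rw [h2]
      exact (mem_sec U _).1 ((X.sec U).mul_mem (has x) ((X.sec U).mul_mem (hs' x) he)) x hx
    · exact (X.O x).mul_mem (hcx x hx) (hn1 x h1).1
  have hcD : ∀ x ∈ U, c / D.eq x ∈ X.O x := by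
    intro x hx
    by_cases h1 : x ∈ T1
    · obtain ⟨e, he, hce⟩ := hsplit x h1
      have h2 : c / D.eq x = (D.eq x)⁻¹ * s' x * (s x * e) := by
        rw [hce]
        ring
      rw [h2]
      exact (mem_sec U _).1 ((X.sec U).mul_mem (hds x) ((X.sec U).mul_mem (hs x) he)) x hx
    · rw [div_eq_mul_inv]
      exact (X.O x).mul_mem (hcx x hx) (hn1 x h1).2.2.2
  have hg0 : ∀ x, c / D.eq x ≠ 0 := fun x => div_ne_zero hc0 (D.ne x)
  -- the finite set
  have hfT : {x | x ∈ U ∧ X.O x ≠ ⊤ ∧ (¬ Un (X.O x) (c / D.eq x) ∨ x ∈ T1)}.Finite := by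
    refine ((fin_un h c hc0).union ((fin_cart h D).union hf1)).subset ?_
    rintro x ⟨_, _, h1⟩
    by_contra hcon
    simp only [Set.mem_union, Set.mem_ofPred_eq, not_or, not_not] at hcon
    rcases h1 with h1 | h1
    · exact h1 (un_div hcon.1 hcon.2.1)
    · exact hcon.2.2 h1
  obtain ⟨T, hT⟩ : ∃ T : Finset X.P, T = hfT.toFinset := ⟨_, rfl⟩
  have hTm : ∀ x, x ∈ T ↔ x ∈ U ∧ X.O x ≠ ⊤ ∧ (¬ Un (X.O x) (c / D.eq x) ∨ x ∈ T1) := by
    intro x
    rw [hT, Set.Finite.mem_toFinset]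
    rfl
  have hTU : ∀ x : T, (x : X.P) ∈ U := fun x => ((hTm x).1 x.2).1
  choose b hbA hb using fun x : T => surj_loc h U hU x (hTU x) (c / D.eq x) (c * a x)
    (hcD x (hTU x)) (hg0 x) (hca x (hTU x))
  obtain ⟨r, hr⟩ := Ideal.exists_forall_sub_mem_ideal
    (I := fun x : T => ig X U x (hTU x) (c / D.eq x)) (by
      intro x y hxy
      show IsCoprime (ig X U x (hTU x) (c / D.eq x)) (ig X U y (hTU y) (c / D.eq y))
      rw [Ideal.isCoprime_iff_sup_eq]
      by_contra hne1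
      obtain ⟨M, hM, hle⟩ := Ideal.exists_le_maximal _ hne1
      have hx1 := px_le h (hTU x) _ M hM.isPrime (le_sup_left.trans hle)
      have hy1 := px_le h (hTU y) _ M hM.isPrime (le_sup_right.trans hle)
      have hxt := ((hTm x).1 x.2).2.1
      have hyt := ((hTm y).1 y.2).2.1
      have hx2 := (px_max h hU (hTU x) hxt).eq_of_le hM.ne_top hx1
      have hy2 := (px_max h hU (hTU y) hyt).eq_of_le hM.ne_top hy1
      apply hxy
      apply Subtype.ext
      refine pt_le h U hU x y (hTU x) (hTU y) hxt ?_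
      intro q hq hqx
      have h3 : (⟨q, hq⟩ : X.sec U) ∈ px X U x (hTU x) := (mem_px (hTU x) _).2 hqx
      rw [hx2, ← hy2] at h3
      exact (mem_px (hTU y) _).1 h3) (fun x : T => ⟨b x, hbA x⟩)
  refine ⟨(r : K) / c, fun x hx => ?_⟩
  by_cases htop : X.O x = ⊤
  · rw [htop]
    exact Algebra.mem_top
  by_cases hxT : x ∈ T
  · have h1 := hr ⟨x, hxT⟩
    rw [mem_ig] at h1
    have h2 := hb ⟨x, hxT⟩
    have h3 : (a x - (r : K) / c) * D.eq x =
        -(((r - ⟨b ⟨x, hxT⟩, hbA ⟨x, hxT⟩⟩ : X.sec U) : K) / (c / D.eq x) +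
          (b ⟨x, hxT⟩ - c * a x) / (c / D.eq x)) := by
      have h4 : ((r - ⟨b ⟨x, hxT⟩, hbA ⟨x, hxT⟩⟩ : X.sec U) : K) = (r : K) - b ⟨x, hxT⟩ := rfl
      have h5 := D.ne x
      rw [h4]
      field_simp
      ring
    rw [h3]
    exact (X.O x).neg_mem ((X.O x).add_mem h1 h2)
  · have h1 : ¬ (¬ Un (X.O x) (c / D.eq x) ∨ x ∈ T1) := fun h1 => hxT ((hTm x).2 ⟨hx, htop, h1⟩)
    rw [not_or, not_not] at h1
    have h2 := hn1 x h1.2
    have h3 : Un (X.O x) c := by
      have h4 := un_mul h1.1 h2.2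
      rwa [div_mul_cancel₀ _ (D.ne x)] at h4
    refine (X.O x).mul_mem ((X.O x).sub_mem h2.1 ?_) h2.2.2.1
    rw [div_eq_mul_inv]
    exact (X.O x).mul_mem ((mem_sec U _).1 r.2 x hx) h3.2.2

end Pool.Agent.H41.TK
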