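import Pool.Agent.H41.TK.D1
import Pool.Agent.H54.RV.A3
import Pool.Agent.H83.TU.RA
import Pool.Agent.H83.TU.PA

/-!
# [H41 TK BS] a basis of K over k(t), 40-80 lines

PROOF.  `K / k(t)` is finite (`a3_fin`, H54/RV/A3.lean, with `h.tr`, `K_fg` from H83/TU/RA.lean).  Let `b_i`, `i < d`, be a basis (`Module.finBasis`).  `gen_frac` (H83/TU/PA.lean) on the affine set `U`: `b_i * c_i ∈ sec U`, `0 ≠ c_i ∈ sec U`.  `c = ∏ c_i`, `e_i = b_i * c ∈ sec U`; the `e_i` are linearly independent over `k(t)` (multiplication by `c ≠ 0` is injective and linear over `k(t)`).  For `x ∉ U`: `t⁻¹ ∈ O x`, nonzero, not a unit (`Par.pol`): `dim1` gives `(t⁻¹) ^ m * e_i ∈ O x`, also for all larger `m`; take the maximum over the finite set `Uᶜ` and `i`.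
-/

set_option autoImplicit false

namespace Pool.Agent.H41.TK

open Pool.Agent.H54.RV Pool.Agent.H83.TU

open scoped IntermediateField

variable {k K : Type} [Field k] [Field K] [Algebra k K] {X : Mod k K}

theorem bas [CharZero k] (h : Crv X) {U : Set X.P} {t : K} {H : Cart X} (hP : Par X U t H) :
    FiniteDimensional k⟮t⟯ K ∧ ∃ (e : Fin (Module.finrank k⟮t⟯ K) → K) (m : ℕ), LinearIndependent k⟮t⟯ e ∧
      (∀ i, ∀ x ∈ U, e i ∈ X.O x) ∧ ∀ i x, x ∉ U → t⁻¹ ^ m * e i ∈ X.O x := by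
  classical
  have hfin : FiniteDimensional k⟮t⟯ K := a3_fin h.tr (K_fg h.var h.gen) t hP.tr
  refine ⟨hfin, ?_⟩
  have h1 : ∀ a : K, ∃ s : K, (∀ x ∈ U, s ∈ X.O x) ∧ s ≠ 0 ∧ ∀ x ∈ U, a * s ∈ X.O x := by
    intro a
    obtain ⟨s, hs, hs0, has⟩ := gen_frac h.var h.gen U hP.aff hP.ne a
    exact ⟨s, fun x hx => ((mem_sec _ _).1 hs) x hx, hs0, fun x hx => ((mem_sec _ _).1 has) x hx⟩
  let b := Module.finBasis k⟮t⟯ K
  choose c hc1 hc2 hc3 using fun i => h1 (b i)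
  have hC : (∏ i, c i) ≠ 0 := Finset.prod_ne_zero_iff.2 fun i _ => hc2 i
  set C : K := ∏ i, c i with hCdef
  let e : Fin (Module.finrank k⟮t⟯ K) → K := fun i => b i * C
  have he1 : ∀ i, ∀ x ∈ U, e i ∈ X.O x := by
    intro i x hx
    show b i * ∏ i, c i ∈ X.O x
    rw [← Finset.mul_prod_erase Finset.univ c (Finset.mem_univ i), ← mul_assoc]
    exact (X.O x).mul_mem (hc3 i x hx) (prod_mem fun j _ => hc1 j x hx)
  have he2 : ∀ x, x ∉ U → ∃ n : ℕ, ∀ i, t⁻¹ ^ n * e i ∈ X.O x := by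
    intro x hx
    obtain ⟨h3, h4, h5⟩ := hP.pol x hx
    have ht : t ≠ 0 := fun h0 => h5.1 (by rw [h0, mul_zero])
    choose n hn using fun i => dim1 h x t⁻¹ h3 (inv_ne_zero ht) h4 (e i)
    refine ⟨Finset.univ.sup n, fun i => ?_⟩
    obtain ⟨j, hj⟩ := Nat.exists_eq_add_of_le (Finset.le_sup (f := n) (Finset.mem_univ i))
    rw [hj, pow_add, mul_comm (t⁻¹ ^ n i), mul_assoc]
    exact (X.O x).mul_mem ((X.O x).pow_mem h3 j) (hn i)
  choose! N hN using he2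
  refine ⟨e, hP.fin.toFinset.sup N, ?_, he1, ?_⟩
  · have h2 : LinearIndependent k⟮t⟯ b := b.linearIndependent
    let φ : K →ₗ[k⟮t⟯] K := LinearMap.mulRight k⟮t⟯ C
    have h3 : LinearMap.ker φ = ⊥ := by
      rw [LinearMap.ker_eq_bot]
      exact mul_left_injective₀ hC
    exact h2.map' φ h3
  · intro i x hx
    obtain ⟨h3, -, -⟩ := hP.pol x hx
    have h4 : N x ≤ hP.fin.toFinset.sup N := Finset.le_sup (f := N) (by
      rw [Set.Finite.mem_toFinset]
      exact hx)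
    obtain ⟨j, hj⟩ := Nat.exists_eq_add_of_le h4
    rw [hj, pow_add, mul_comm (t⁻¹ ^ N x), mul_assoc]
    exact (X.O x).mul_mem ((X.O x).pow_mem h3 j) (hN x hx i)

end Pool.Agent.H41.TK
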