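import Pool.Agent.H41.TK.QM

/-!
# [H41 TK D1] the local rings of a curve have dimension one, 60-120 lines

`u ∈ O x` nonzero and not a unit: every `b ∈ K` is in `O x` after multiplication by a power of `u`.

PROOF.  Let `U` be affine, `x ∈ U` (`IsVar.chart`), `A = X.sec U ⊆ O x`, `p = {a ∈ A : ¬ Un (O x) a}` (a prime ideal: `O x` is local; the preimage of the maximal ideal).  `gen_frac` (H83/TU/PA): `b * c ∈ A` with `0 ≠ c ∈ A`.  So it is enough: `u ^ n / c ∈ O x` for some `n`.  Otherwise the ideal `(c)` of `O x` does not meet the powers of `u`, so there is a prime `q` of `O x` with `c ∈ q`, `u ∉ q` (`Ideal.exists_le_prime_disjoint`, or: `u ∉ radical (c)`, `Ideal.radical_eq_sInf`).  `q' = q ∩ A` (`Ideal.comap` of the inclusion `A → O x`) is prime, `c ∈ q'`, so nonzero, so maximal (`max_of_ne`), and `q' ≤ p` (elements of `q` are not units), `p ≠ ⊤`, so `q' = p`.  By `IsVar.frac`: `s ∈ A`, `Un (O x) s`, `u * s ∈ A`; `u * s`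 is not a unit, so `u * s ∈ p = q'`, `u * s ∈ q`, and `s ∉ q` is a unit, so `u ∈ q`: contradiction.
-/

set_option autoImplicit false

namespace Pool.Agent.H41.TK

open Pool.Agent.H54.RV Pool.Agent.H83.TU

variable {k K : Type} [Field k] [Field K] [Algebra k K] {X : Mod k K}

theorem dim1 (h : Crv X) (x : X.P) (u : K) (hu : u ∈ X.O x) (h0 : u ≠ 0) (hn : ¬ Un (X.O x) u) (b : K) :
    ∃ n : ℕ, u ^ n * b ∈ X.O x := by
  obtain ⟨U, hU, hxU⟩ := h.var.chart x
  have hle : X.sec U ≤ X.O x := iInf₂_le x hxU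
  obtain ⟨c, hc, hc0, hbc⟩ := gen_frac h.var h.gen U hU ⟨x, hxU⟩ b
  suffices hs : (⟨u, hu⟩ : X.O x) ∈ (Ideal.span {(⟨c, hle hc⟩ : X.O x)}).radical by
    obtain ⟨n, hn⟩ := hs
    rw [Ideal.mem_span_singleton] at hn
    obtain ⟨d, hd⟩ := hn
    have hd' : u ^ n = c * (d : K) := congrArg Subtype.val hd
    refine ⟨n, ?_⟩
    have e : u ^ n * b = (d : K) * (b * c) := by rw [hd']; ring
    rw [e]
    exact (X.O x).mul_mem d.2 (hle hbc)
  by_contra hcon
  rw [Ideal.radical_eq_sInf, Submodule.mem_sInf] at hcon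
  push Not at hcon
  obtain ⟨q, ⟨hq1, hq2⟩, hq3⟩ := hcon
  have hcq : (⟨c, hle hc⟩ : X.O x) ∈ q := hq1 (Ideal.mem_span_singleton_self _)
  set q' : Ideal (X.sec U) := Ideal.comap (Subalgebra.inclusion hle) q with hq'
  have hq'p : q'.IsPrime := Ideal.comap_isPrime _ _
  have hcq' : (⟨c, hc⟩ : X.sec U) ∈ q' := by
    rw [hq', Ideal.mem_comap]
    exact hcq
  have hne : q' ≠ ⊥ := by
    intro hb
    rw [hb, Ideal.mem_bot] at hcq'
    exact hc0 (congrArg Subtype.val hcq')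
  have hmax := max_of_ne h.tr (X.sec U) q' hq'p hne
  set p' : Ideal (X.sec U) := Ideal.comap (Subalgebra.inclusion hle) (IsLocalRing.maximalIdeal (X.O x)) with hp'
  have hp'p : p'.IsPrime := Ideal.comap_isPrime _ _
  have hqm : q ≤ IsLocalRing.maximalIdeal (X.O x) := IsLocalRing.le_maximalIdeal hq2.ne_top
  have hqp : q' = p' := hmax.eq_of_le hp'p.ne_top (Ideal.comap_mono hqm)
  obtain ⟨s, hs, hsu, hus⟩ := h.var.frac U x hU hxU u hu
  have hsunit : IsUnit (⟨s, hle hs⟩ : X.O x) :=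
    IsUnit.of_mul_eq_one ⟨s⁻¹, hsu.2.2⟩ (Subtype.ext (mul_inv_cancel₀ hsu.1))
  have hmem : (⟨u * s, hus⟩ : X.sec U) ∈ p' := by
    rw [hp', Ideal.mem_comap, IsLocalRing.mem_maximalIdeal, mem_nonunits_iff]
    intro hun
    obtain ⟨v, hv⟩ := hun.exists_right_inv
    have hv' : (u * s) * (v : K) = 1 := congrArg Subtype.val hv
    apply hn
    refine ⟨h0, hu, ?_⟩
    have : u⁻¹ = s * (v : K) := by
      rw [inv_eq_iff_eq_inv, eq_comm, inv_eq_iff_eq_inv]
      exact (eq_inv_of_mul_eq_one_right (by rw [← hv']; ring))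
    rw [this]
    exact (X.O x).mul_mem (hle hs) v.2
  rw [← hqp, hq', Ideal.mem_comap] at hmem
  have h1 : (⟨u, hu⟩ : X.O x) * ⟨s, hle hs⟩ ∈ q := hmem
  rcases hq2.mem_or_mem h1 with h2 | h2
  · exact hq3 h2
  · exact hq2.ne_top (Ideal.eq_top_of_isUnit_mem _ h2 hsunit)

end Pool.Agent.H41.TK
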