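import Pool.Agent.H41.TK.LAA

/-!
# [H41 TK LAE] families with finitely many different components (pure linear algebra), 40-80 lines

`M x`, `N x` subspaces of `W` for `x ∈ P`, `M x ≤ N x` outside the finite set `T`, `M x / (M x ∩ N x)` finite for `x ∈ T`.  Then the same for the spaces of the families.

PROOF.  The linear map `{a : a x ∈ M x ∀ x} → Π_{x : T} M x / (N x).submoduleOf (M x)` has kernel `{a : a x ∈ M x ∀ x, a x ∈ N x ∀ x ∈ T}`, which is the intersection with `{a : a x ∈ N x ∀ x}` because `M x ≤ N x` outside `T`.  The target is finite dimensional (`Module.Finite.pi`), so the quotient embeds in a finite dimensional space (`Submodule.liftQ`/`LinearMap.quotKerEquivRange`, `Module.Finite.of_injective`).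
-/

set_option autoImplicit false

namespace Pool.Agent.H41.TK

open Pool.Agent.H54.RV Pool.Agent.H83.TU

variable {k P W : Type} [Field k] [AddCommGroup W] [Module k W]

theorem fq_pi (M N : P → Submodule k W) (T : Finset P) (hT : ∀ x, x ∉ T → M x ≤ N x)
    (hf : ∀ x ∈ T, Fq (M x) (N x)) :
    Fq (Submodule.pi Set.univ M) (Submodule.pi Set.univ N) := by
  obtain ⟨ψ, hψ⟩ : ∃ ψ : (Submodule.pi Set.univ M) →ₗ[k]
      ((x : {x // x ∈ T}) → (M x ⧸ (N x).submoduleOf (M x))),
      ψ = LinearMap.pi fun x : {x // x ∈ T} => ((N x.1).submoduleOf (M x.1)).mkQ.comp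
        (LinearMap.codRestrict (M x.1) ((LinearMap.proj x.1).comp
          (Submodule.pi Set.univ M).subtype) fun a => a.2 x trivial) := ⟨_, rfl⟩
  have hker : LinearMap.ker ψ = (Submodule.pi Set.univ N).submoduleOf (Submodule.pi Set.univ M) := by
    ext a
    constructor
    · intro h
      rw [LinearMap.mem_ker] at h
      intro x _
      by_cases hx : x ∈ T
      · have h1 : ψ a ⟨x, hx⟩ = 0 := by rw [h]; rfl
        rw [hψ] at h1
        have h2 : ((N x).submoduleOf (M x)).mkQ ⟨(a : P → W) x, a.2 x trivial⟩ = 0 := h1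
        rw [Submodule.mkQ_apply, Submodule.Quotient.mk_eq_zero] at h2
        exact h2
      · exact hT x hx (a.2 x trivial)
    · intro h
      rw [LinearMap.mem_ker]
      funext x
      rw [hψ]
      change ((N x).submoduleOf (M x)).mkQ ⟨(a : P → W) x, a.2 x trivial⟩ = 0
      rw [Submodule.mkQ_apply, Submodule.Quotient.mk_eq_zero]
      exact h x trivial
  have hfin : ∀ x : {x // x ∈ T}, Module.Finite k (M x ⧸ (N x).submoduleOf (M x)) :=
    fun x => hf x x.2
  have h1 : Module.Finite k ((x : {x // x ∈ T}) → (M x ⧸ (N x).submoduleOf (M x))) :=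
    Module.Finite.pi
  have h2 : Module.Finite k (LinearMap.range ψ) := inferInstance
  unfold Fq
  rw [← hker]
  exact Module.Finite.equiv (LinearMap.quotKerEquivRange ψ).symm

end Pool.Agent.H41.TK
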