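import Pool.Agent.H41.TK.FL
import Pool.Agent.H41.TK.FU
import Pool.Agent.H41.TK.LAE

/-!
# [H41 TK FA] the adeles of two divisors are commensurable, 40-70 lines

`ad_le`: `AdD D ≤ Adl X`: `D.eq x` is a unit at almost all `x` (`fin_cart`), there `a x * D.eq x ∈ O x` gives `a x ∈ O x` (`mem_mul_un`).
`kd_le`: `Kd X ≤ Adl X`: `f ∈ O x` for almost all `x` (`fin_un`, `f ≠ 0`).
`ad_fin`: `Fq (AdD D) (AdD E)`: `AdD D = Submodule.pi Set.univ (fun x => Fr x (D.eq x))` (`ext`, `mem_AdD`, `mem_Fr`, `Submodule.mem_pi`); `fq_pi` (LAE.lean) with `T` = the finite set of the `x` where `D.eq x` or `E.eq x` is not a unit (`fin_cart`): outside `T` both spaces are `O x` (`mem_mul_un`); `fr_fin` (FL.lean) on `T`.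
-/

set_option autoImplicit false

namespace Pool.Agent.H41.TK

open Pool.Agent.H54.RV Pool.Agent.H83.TU

variable {k K : Type} [Field k] [Field K] [Algebra k K] {X : Mod k K}

theorem ad_pi (D : Cart X) : AdD D = Submodule.pi Set.univ (fun x => Fr (X := X) x (D.eq x)) := by
  ext a
  rw [mem_AdD, Submodule.mem_pi]
  exact ⟨fun h x _ => h x, fun h x => h x trivial⟩

theorem ad_le [CharZero k] (h : Crv X) (D : Cart X) : AdD D ≤ Adl X := by
  intro a ha
  rw [mem_Adl]
  refine (fin_cart h D).subset fun x hx hu => hx ?_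
  have h1 := (X.O x).mul_mem (ha x) hu.2.2
  rwa [mul_assoc, mul_inv_cancel₀ hu.1, mul_one] at h1

theorem kd_le [CharZero k] (h : Crv X) : Kd X ≤ Adl X := by
  rintro a ⟨f, hf⟩
  rw [mem_Adl]
  by_cases h0 : f = 0
  · have h1 : {x | a x ∉ X.O x} = ∅ := by
      ext x
      rw [Set.mem_setOf_eq, hf, h0]
      simp [(X.O x).zero_mem]
    rw [h1]
    exact Set.finite_empty
  · refine (fin_un h f h0).subset fun x hx hu => hx ?_
    rw [hf]
    exact hu.2.1

theorem ad_fin [CharZero k] (h : Crv X) (D E : Cart X) : Fq (AdD D) (AdD E) := by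
  classical
  rw [ad_pi, ad_pi]
  refine fq_pi _ _ ((fin_cart h D).union (fin_cart h E)).toFinset (fun x hx => ?_)
    fun x _ => fr_fin h x _ _ (D.ne x) (E.ne x)
  rw [Set.Finite.mem_toFinset, Set.mem_union, not_or] at hx
  obtain ⟨hD, hE⟩ := hx
  have hD' : Un (X.O x) (D.eq x) := by
    by_contra h1
    exact hD h1
  have hE' : Un (X.O x) (E.eq x) := by
    by_contra h1
    exact hE h1
  intro s hs
  rw [mem_Fr] at hs ⊢
  have h1 := (X.O x).mul_mem hs hD'.2.2
  rw [mul_assoc, mul_inv_cancel₀ hD'.1, mul_one] at h1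
  exact (X.O x).mul_mem h1 hE'.2.1

end Pool.Agent.H41.TK
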