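import Pool.Agent.H41.TK.WK
import Pool.Agent.H41.TK.FA
import Pool.Agent.H54.RV.A3

/-!
# [H41 TK DL] the degree of the divisor of poles is at most [K : k(t)], 80-140 lines

`qd (AdD H) (AdD 1) ≤ finrank k⟮t⟯ K`.

PROOF.  `d = [K : k(t)]`, finite (`a3_fin` with `h.tr`, `K_fg`), `u = t⁻¹`.  Suppose the dimension is larger than `d` (it is finite: `ad_fin`, FA.lean): there are `a_0, .., a_d ∈ AdD H`, linearly independent modulo `AdD 1` (`Module.finrank`, choose a linearly independent family in the quotient, lift it).  `weak` (WK.lean) for `T = Uᶜ` (`O x ≠ ⊤` there: `u` is a nonunit, nonzero), `e = 1`: `g_j ∈ K` with `a_j x - g_j ∈ O x` for all `x ∉ U`.  Then `u * g_j ∈ O x` for `x ∉ U`, because `u * a_j x ∈ O x` (`a_j x * H.eq x ∈ O x`, `H.eq x * t` is a unit).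
The `g_j` are linearly independent over `k(t)`: contradiction to `d + 1 > d`.  Suppose `∑ c_j g_j = 0`, `c_j ∈ k(t) = k(u)` not all zero.  Clear denominators: `c_j = C_j(u)`, `C_j ∈ k[X]` not all zero, and divide by the largest power of `X` which divides all of them: some `C_j(0) ≠ 0`.  (Elements of `k(t)`: quotients of values of polynomials in `u`: `k⟮u⟯ = k⟮t⟯` is `a3_eq` in H54/RV/A3.lean, `IntermediateField.mem_adjoin_simple_iff`.)  `C_j(u) = C_j(0) + u C_j'(u)`, so `∑ C_j(0) g_j = - ∑ C_j'(u) (u g_j) ∈ O x` for all `x ∉ U` (`u ∈ O x`, `u g_j ∈ O x`).  Hence `∑ C_j(0) a_j x ∈ O x` for `x ∉ U`; for `x ∈ U` `a_j x ∈ O x` (`H.eq x` is a unit).  So `∑ C_j(0) a_j ∈ AdD 1`: all `C_j(0) = 0`, contradiction.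
-/

set_option autoImplicit false

namespace Pool.Agent.H41.TK

open Pool.Agent.H54.RV Pool.Agent.H83.TU

open scoped IntermediateField

variable {k K : Type} [Field k] [Field K] [Algebra k K] {X : Mod k K}

/-- families which are independent modulo `AdD 1` -/
private theorem dl_zero {U : Set X.P} {t : K} {H : Cart X} (hP : Par X U t H) {m : ℕ}
    (a : Fin m → X.P → K) (haH : ∀ j, a j ∈ AdD H)
    (hli : ∀ c : Fin m → k, (∑ j, c j • a j) ∈ AdD (1 : Cart X) → ∀ j, c j = 0)
    (g : Fin m → K) (hg : ∀ x, x ∉ U → ∀ j, a j x - g j ∈ X.O x) (D : Fin m → Polynomial k)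
    (hD : ∑ j, Polynomial.aeval t⁻¹ (D j) * g j = 0) : ∀ j, (D j).coeff 0 = 0 := by
  have haev : ∀ x, x ∉ U → ∀ q : Polynomial k, Polynomial.aeval t⁻¹ q ∈ X.O x := by
    intro x hx q
    have h1 : Polynomial.aeval t⁻¹ q ∈ Algebra.adjoin k {t⁻¹} := by
      rw [Algebra.adjoin_singleton_eq_range_aeval]
      exact ⟨q, rfl⟩
    have h2 : Algebra.adjoin k {t⁻¹} ≤ X.O x := by
      rw [Algebra.adjoin_le_iff, Set.singleton_subset_iff]
      exact (hP.pol x hx).1
    exact h2 h1
  have hug : ∀ x, x ∉ U → ∀ j, t⁻¹ * g j ∈ X.O x := by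
    intro x hx j
    have h1 : a j x * H.eq x ∈ X.O x := haH j x
    have h2 := (hP.pol x hx).2.2
    have h3 := (X.O x).mul_mem h1 h2.2.2
    have h4 : a j x * H.eq x * (H.eq x * t)⁻¹ = t⁻¹ * a j x := by
      have := H.ne x
      rw [mul_inv]
      field_simp
    rw [h4] at h3
    have h5 := (X.O x).mul_mem (hP.pol x hx).1 (hg x hx j)
    have h6 : t⁻¹ * g j = t⁻¹ * a j x - t⁻¹ * (a j x - g j) := by ring
    rw [h6]
    exact (X.O x).sub_mem h3 h5
  apply hli
  intro x
  rw [one_eq, mul_one, Finset.sum_apply]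
  by_cases hx : x ∈ U
  · refine (X.O x).sum_mem fun j _ => ?_
    have h1 : a j x * H.eq x ∈ X.O x := haH j x
    have h2 := (hP.reg x hx).2
    have h3 := (X.O x).mul_mem h1 h2.2.2
    rw [mul_assoc, mul_inv_cancel₀ h2.1, mul_one] at h3
    exact (X.O x).smul_mem h3 _
  · have h1 : ∑ j, ((D j).coeff 0 • a j) x = ∑ j, (D j).coeff 0 • (a j x - g j) -
        ∑ j, Polynomial.aeval t⁻¹ (D j).divX * (t⁻¹ * g j) := by
      rw [← Finset.sum_sub_distrib]
      have h2 : ∑ j, ((D j).coeff 0 • a j) x = ∑ j, ((D j).coeff 0 • a j) x -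
          ∑ j, Polynomial.aeval t⁻¹ (D j) * g j := by rw [hD, sub_zero]
      rw [h2, ← Finset.sum_sub_distrib]
      refine Finset.sum_congr rfl fun j _ => ?_
      have h3 : Polynomial.aeval t⁻¹ (D j) = t⁻¹ * Polynomial.aeval t⁻¹ (D j).divX +
          algebraMap k K ((D j).coeff 0) := by
        conv_lhs => rw [← Polynomial.X_mul_divX_add (D j)]
        rw [map_add, map_mul, Polynomial.aeval_X, Polynomial.aeval_C]
      rw [h3, Pi.smul_apply, Algebra.smul_def, Algebra.smul_def]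
      ring
    rw [h1]
    refine (X.O x).sub_mem ((X.O x).sum_mem fun j _ => (X.O x).smul_mem (hg x hx j) _)
      ((X.O x).sum_mem fun j _ => (X.O x).mul_mem (haev x hx _) (hug x hx j))

private theorem dl_all {U : Set X.P} {t : K} {H : Cart X} (hP : Par X U t H) {m : ℕ}
    (a : Fin m → X.P → K) (haH : ∀ j, a j ∈ AdD H)
    (hli : ∀ c : Fin m → k, (∑ j, c j • a j) ∈ AdD (1 : Cart X) → ∀ j, c j = 0)
    (g : Fin m → K) (hg : ∀ x, x ∉ U → ∀ j, a j x - g j ∈ X.O x) (n : ℕ) :
    ∀ D : Fin m → Polynomial k, ∑ j, Polynomial.aeval t⁻¹ (D j) * g j = 0 →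
      ∀ j, (D j).coeff n = 0 := by
  induction n with
  | zero => exact dl_zero hP a haH hli g hg
  | succ n ih =>
    intro D hD j
    have h0 := dl_zero hP a haH hli g hg D hD
    have ht0 : t⁻¹ ≠ 0 := by
      intro h1
      have h2 : t = 0 := inv_eq_zero.1 h1
      exact hP.tr (h2 ▸ isAlgebraic_zero)
    have h1 : ∑ j, Polynomial.aeval t⁻¹ (D j).divX * g j = 0 := by
      have h2 : t⁻¹ * ∑ j, Polynomial.aeval t⁻¹ (D j).divX * g j = 0 := by
        rw [Finset.mul_sum, ← hD]
        refine Finset.sum_congr rfl fun j _ => ?_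
        have h3 : Polynomial.aeval t⁻¹ (D j) = t⁻¹ * Polynomial.aeval t⁻¹ (D j).divX +
            algebraMap k K ((D j).coeff 0) := by
          conv_lhs => rw [← Polynomial.X_mul_divX_add (D j)]
          rw [map_add, map_mul, Polynomial.aeval_X, Polynomial.aeval_C]
        rw [h3, h0 j, map_zero]
        ring
      exact (mul_eq_zero.1 h2).resolve_left ht0
    have h2 := ih (fun j => (D j).divX) h1 j
    rwa [Polynomial.coeff_divX] at h2

open IntermediateField.algebraAdjoinAdjoin in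
private theorem dl_li {U : Set X.P} {t : K} {H : Cart X} (hP : Par X U t H) {m : ℕ}
    (a : Fin m → X.P → K) (haH : ∀ j, a j ∈ AdD H)
    (hli : ∀ c : Fin m → k, (∑ j, c j • a j) ∈ AdD (1 : Cart X) → ∀ j, c j = 0)
    (g : Fin m → K) (hg : ∀ x, x ∉ U → ∀ j, a j x - g j ∈ X.O x) :
    LinearIndependent (IntermediateField.adjoin k {t⁻¹}) g := by
  rw [← LinearIndependent.iff_fractionRing (R := Algebra.adjoin k {t⁻¹})
    (K := IntermediateField.adjoin k {t⁻¹})]
  rw [Fintype.linearIndependent_iff]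
  intro r hr
  have hD : ∀ j, ∃ D : Polynomial k, Polynomial.aeval t⁻¹ D = (r j : K) := by
    intro j
    have h1 : (r j : K) ∈ (Polynomial.aeval t⁻¹ : Polynomial k →ₐ[k] K).range := by
      rw [← Algebra.adjoin_singleton_eq_range_aeval]
      exact (r j).2
    exact h1
  choose D hD using hD
  have h1 : ∑ j, Polynomial.aeval t⁻¹ (D j) * g j = 0 := by
    rw [← hr]
    refine Finset.sum_congr rfl fun j _ => ?_
    rw [hD]
    rfl
  intro j
  have h2 : D j = 0 := Polynomial.ext fun n => by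
    rw [dl_all hP a haH hli g hg n D h1 j, Polynomial.coeff_zero]
  have h3 := hD j
  rw [h2, map_zero] at h3
  exact Subtype.ext h3.symm

theorem deg_le [CharZero k] (h : Crv X) {U : Set X.P} {t : K} {H : Cart X} (hP : Par X U t H) :
    qd (AdD H) (AdD 1) ≤ Module.finrank k⟮t⟯ K := by
  classical
  by_contra hcon
  rw [not_le] at hcon
  obtain ⟨d, hd⟩ : ∃ d, d = Module.finrank k⟮t⟯ K := ⟨_, rfl⟩
  rw [← hd] at hcon
  have hfq : Module.Finite k (AdD H ⧸ (AdD (1 : Cart X)).submoduleOf (AdD H)) := ad_fin h H 1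
  obtain ⟨b⟩ : Nonempty (Module.Basis (Fin (Module.finrank k
    (AdD H ⧸ (AdD (1 : Cart X)).submoduleOf (AdD H)))) k
    (AdD H ⧸ (AdD (1 : Cart X)).submoduleOf (AdD H))) := ⟨Module.finBasis k _⟩
  have hle : d + 1 ≤ Module.finrank k (AdD H ⧸ (AdD (1 : Cart X)).submoduleOf (AdD H)) := hcon
  have hbl := b.linearIndependent.comp _ (Fin.castLE_injective hle)
  have hlift : ∀ j : Fin (d + 1), ∃ a : AdD H,
      ((AdD (1 : Cart X)).submoduleOf (AdD H)).mkQ a = b (Fin.castLE hle j) := fun j =>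
    Submodule.mkQ_surjective _ _
  choose a ha using hlift
  have hli : ∀ c : Fin (d + 1) → k, (∑ j, c j • (a j : X.P → K)) ∈ AdD (1 : Cart X) →
      ∀ j, c j = 0 := by
    intro c hc
    refine Fintype.linearIndependent_iff.1 hbl c ?_
    have h1 : ∑ j, c j • b (Fin.castLE hle j) =
        ((AdD (1 : Cart X)).submoduleOf (AdD H)).mkQ (∑ j, c j • a j) := by
      rw [map_sum]
      refine Finset.sum_congr rfl fun j _ => ?_
      rw [map_smul, ha]
    change ∑ j, c j • b (Fin.castLE hle j) = 0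
    rw [h1, Submodule.mkQ_apply, Submodule.Quotient.mk_eq_zero]
    change ((∑ j, c j • a j : AdD H) : X.P → K) ∈ AdD (1 : Cart X)
    rw [Submodule.coe_sum]
    exact hc
  have ht0 : t⁻¹ ≠ 0 := by
    intro h1
    have h2 : t = 0 := inv_eq_zero.1 h1
    exact hP.tr (h2 ▸ isAlgebraic_zero)
  have hg : ∀ j : Fin (d + 1), ∃ f : K, ∀ x ∈ hP.fin.toFinset,
      ((a j : X.P → K) x - f) * (fun _ : X.P => (1 : K)) x ∈ X.O x := by
    intro j
    refine weak h hP.fin.toFinset (fun x hx hO => ?_) (a j) (fun _ => 1) fun _ _ => one_ne_zero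
    rw [Set.Finite.mem_toFinset] at hx
    refine (hP.pol x hx).2.1 ⟨ht0, (hP.pol x hx).1, ?_⟩
    rw [hO]
    exact Algebra.mem_top
  choose g hg using hg
  have hg' : ∀ x, x ∉ U → ∀ j, (a j : X.P → K) x - g j ∈ X.O x := by
    intro x hx j
    have h1 := hg j x (by rw [Set.Finite.mem_toFinset]; exact hx)
    rwa [mul_one] at h1
  have hLI := dl_li hP (fun j => (a j : X.P → K)) (fun j => (a j).2) hli g hg'
  rw [← a3_eq t] at hd
  have hfin : FiniteDimensional (IntermediateField.adjoin k {t⁻¹}) K := by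
    rw [a3_eq t]
    exact a3_fin h.tr (K_fg h.var h.gen) t hP.tr
  have h1 := hLI.fintype_card_le_finrank
  rw [Fintype.card_fin] at h1
  omega

end Pool.Agent.H41.TK
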