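import Pool.Agent.H83.TU.UB
import Pool.Agent.H83.TU.RA
import Pool.Agent.H83.TU.AM

/-!
# Theorem K (MP_e49dc9_ag), T3: curves, definitions

`X : Mod k K` with `Crv X`: an integral projective curve over a field `k` of characteristic `0` (singular points are allowed).  The theory is Weil's: adeles instead of coverings.

* `qd M N = dim M / (M ∩ N)`, `Fq M N`: this is finite; `ix M N = qd M N - qd N M`: the relative dimension of two subspaces of a vector space.
* `Fr x e = {s ∈ K : s e ∈ O x}`.
* `Adl X`: the adeles, families `a x ∈ K` (`x` any point) with `a x ∈ O x` for almost all `x`; `AdD D`: the adeles with `a x * D.eq x ∈ O x` for all `x`; `Kd X`: the constant families.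
* `dg D = ix (AdD D) (AdD 1)`: the degree; `hh D = dim Adl / (AdD D + Kd)`: the dimension of `H¹`; `h0 D 1` (`H83/TU/Base.lean`): the dimension of `H⁰`; `chi X = h0 1 - hh 1`.
* `Par X U t H`: a parameter: `U` is affine with finite nonempty complement, `t` is regular on `U` with poles at all other points, and `H` is the divisor of the poles of `t`.
-/

set_option autoImplicit false

namespace Pool.Agent.H41.TK

open Pool.Agent.H54.RV Pool.Agent.H83.TU

section la

variable {k V : Type} [Field k] [AddCommGroup V] [Module k V]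

/-- the dimension of `M / (M ∩ N)` -/
noncomputable def qd (M N : Submodule k V) : ℕ := Module.finrank k (M ⧸ N.submoduleOf M)

/-- `M / (M ∩ N)` has finite dimension -/
def Fq (M N : Submodule k V) : Prop := Module.Finite k (M ⧸ N.submoduleOf M)

/-- the relative dimension -/
noncomputable def ix (M N : Submodule k V) : ℤ := (qd M N : ℤ) - qd N M

end la

variable {k K : Type} [Field k] [Field K] [Algebra k K]

/-- integral projective curves -/
structure Crv (X : Mod k K) : Prop where
  var : IsVar X
  gen : ∃ g, Gen X g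
  amp : ∃ A : Cart X, Ample A
  tr : Algebra.trdeg k K = 1

variable {X : Mod k K}

/-- the elements `s` of the field with `s * e` in the local ring -/
def Fr (x : X.P) (e : K) : Submodule k K where
  carrier := {s | s * e ∈ X.O x}
  zero_mem' := by
    show (0 : K) * e ∈ X.O x
    rw [zero_mul]
    exact (X.O x).zero_mem
  add_mem' := fun {a b} ha hb => by
    show (a + b) * e ∈ X.O x
    rw [add_mul]
    exact (X.O x).add_mem ha hb
  smul_mem' := fun c a ha => by
    show c • a * e ∈ X.O x
    rw [Algebra.smul_mul_assoc]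
    exact (X.O x).smul_mem ha c

theorem mem_Fr (x : X.P) (e s : K) : s ∈ Fr (X := X) x e ↔ s * e ∈ X.O x := Iff.rfl

variable (X) in
/-- the adeles -/
def Adl : Submodule k (X.P → K) where
  carrier := {a | {x | a x ∉ X.O x}.Finite}
  zero_mem' := by
    show {x | (0 : K) ∉ X.O x}.Finite
    have h : {x | (0 : K) ∉ X.O x} = ∅ := by
      ext x
      simp [(X.O x).zero_mem]
    rw [h]
    exact Set.finite_empty
  add_mem' := fun {a b} ha hb => by
    refine (Set.Finite.union ha hb).subset fun x hx => ?_
    by_contra hcon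
    have h1 : a x ∈ X.O x := by
      by_contra h2
      exact hcon (Or.inl h2)
    have h2 : b x ∈ X.O x := by
      by_contra h3
      exact hcon (Or.inr h3)
    exact hx ((X.O x).add_mem h1 h2)
  smul_mem' := fun c a ha => by
    refine Set.Finite.subset ha fun x hx h1 => hx ?_
    exact (X.O x).smul_mem h1 c

theorem mem_Adl (a : X.P → K) : a ∈ Adl X ↔ {x | a x ∉ X.O x}.Finite := Iff.rfl

/-- the adeles in a divisor -/
def AdD (D : Cart X) : Submodule k (X.P → K) where
  carrier := {a | ∀ x, a x * D.eq x ∈ X.O x}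
  zero_mem' := fun x => (Fr (X := X) x (D.eq x)).zero_mem
  add_mem' := fun {a b} ha hb x => (Fr (X := X) x (D.eq x)).add_mem (ha x) (hb x)
  smul_mem' := fun c _ ha x => (Fr (X := X) x (D.eq x)).smul_mem c (ha x)

theorem mem_AdD (D : Cart X) (a : X.P → K) : a ∈ AdD D ↔ ∀ x, a x * D.eq x ∈ X.O x := Iff.rfl

variable (X) in
/-- the constant adeles -/
def Kd : Submodule k (X.P → K) where
  carrier := {a | ∃ f : K, ∀ x, a x = f}
  zero_mem' := ⟨0, fun _ => rfl⟩
  add_mem' := by
    rintro a b ⟨f, hf⟩ ⟨g, hg⟩
    exact ⟨f + g, fun x => by rw [Pi.add_apply, hf, hg]⟩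
  smul_mem' := by
    rintro c a ⟨f, hf⟩
    exact ⟨c • f, fun x => by rw [Pi.smul_apply, hf]⟩

theorem mem_Kd (a : X.P → K) : a ∈ Kd X ↔ ∃ f : K, ∀ x, a x = f := Iff.rfl

/-- the degree of a divisor -/
noncomputable def dg (D : Cart X) : ℤ := ix (AdD D) (AdD 1)

/-- the dimension of `H¹` -/
noncomputable def hh (D : Cart X) : ℕ := qd (Adl X) (AdD D ⊔ Kd X)

variable (X) in
/-- the Euler characteristic of the structure sheaf -/
noncomputable def chi : ℤ := (h0 (1 : Cart X) 1 : ℤ) - hh (1 : Cart X)

/-- `t` is regular on the affine set `U` and has poles at all other points, `H` is the divisor of its poles -/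
structure Par (X : Mod k K) (U : Set X.P) (t : K) (H : Cart X) : Prop where
  aff : X.aff U
  ne : U.Nonempty
  cne : Uᶜ.Nonempty
  fin : Uᶜ.Finite
  tr : Transcendental k t
  reg : ∀ x ∈ U, t ∈ X.O x ∧ Un (X.O x) (H.eq x)
  pol : ∀ x, x ∉ U → t⁻¹ ∈ X.O x ∧ ¬ Un (X.O x) t⁻¹ ∧ Un (X.O x) (H.eq x * t)

end Pool.Agent.H41.TK
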