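import Pool.Agent.H41.TK.PR
import Pool.Agent.H54.RV.A3

/-!
# [H41 TK FC] the constants, 50-90 lines

`secL 1 1` is the set of the functions which are regular everywhere.

`one_alg`: they are algebraic over `k` (`alg_const`, PR.lean).  `one_inv`: the inverse of a nonzero one is again regular everywhere: `f⁻¹ ∈ k[f] ⊆ O x` because `f` is algebraic (`Subalgebra.inv_mem_of_algebraic` or `IsAlgebraic` and `Algebra.adjoin`).
`one_fin`: finite dimensional.  PROOF.  Let `t` be transcendental with `K / k(t)` finite (`par`, `a3_fin` with `h.tr`, `K_fg`).  Elements `f_1, .., f_r` which are algebraic over `k` and linearly independent over `k` are linearly independent over `k(t)`: (a) `k(t)` and the field `F` of the elements algebraic over `k` are linearly disjoint because `t` is transcendental over `F`: let `∑ c_j f_j = 0`, `c_j ∈ k(t)`, clear denominators, `c_j = C_j(t)`, then `∑_j C_j(t) f_j = ∑_n (∑_j (C_j)_n f_j) t ^ n = 0` with coefficients in `F`, `t` is transcendental over `F` (`Transcendental k t`, `F / k` algebraic), so `∑_j (C_j)_n f_j = 0` for all `n`, so `(C_j)_n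 = 0`.  So `r ≤ [K : k(t)]`, and the dimension is finite (`Module.finite_of_rank_lt_aleph0`, or: a space in which all linearly independent families have at most `d` elements is finite dimensional).  Alternative: the algebraic closure of `k` in the finitely generated field `K` is finite over `k` (search Mathlib: `Algebra.EssFiniteType`, `IntermediateField.finiteDimensional..`, `algebraicClosure`).
-/

set_option autoImplicit false

namespace Pool.Agent.H41.TK

open Pool.Agent.H54.RV Pool.Agent.H83.TU

variable {k K : Type} [Field k] [Field K] [Algebra k K] {X : Mod k K}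

private theorem fc_mem {f : K} (hf : f ∈ secL (1 : Cart X) 1) (x : X.P) : f ∈ X.O x := by
  have h1 : f * (1 : Cart X).eq x ^ 1 ∈ X.O x := hf x
  rwa [one_eq, pow_one, mul_one] at h1

theorem one_inv [CharZero k] (h : Crv X) (f : K) (hf : f ∈ secL (1 : Cart X) 1) :
    f⁻¹ ∈ secL (1 : Cart X) 1 := by
  intro x
  have h1 : IsAlgebraic k f := alg_const h f (fc_mem hf)
  have h2 : f⁻¹ ∈ X.O x := by
    have h3 := (X.O x).inv_mem_of_algebraic (x := ⟨f, fc_mem hf x⟩) h1
    exact h3
  rw [one_eq, pow_one, mul_one]
  exact h2

open IntermediateField.algebraAdjoinAdjoin in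
private theorem fc_li {t : K} (ht : Transcendental k t) {ι : Type} (f : ι → K)
    (hf : LinearIndependent k f) (halg : ∀ j, IsAlgebraic k (f j)) :
    LinearIndependent (IntermediateField.adjoin k {t}) f := by
  rw [← LinearIndependent.iff_fractionRing (R := Algebra.adjoin k {t})
    (K := IntermediateField.adjoin k {t})]
  rw [linearIndependent_iff']
  intro s g hg
  have hP : ∀ j, ∃ P : Polynomial k, Polynomial.aeval t P = (g j : K) := by
    intro j
    have h1 : (g j : K) ∈ (Polynomial.aeval t : Polynomial k →ₐ[k] K).range := by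
      rw [← Algebra.adjoin_singleton_eq_range_aeval]
      exact (g j).2
    exact h1
  choose P hP using hP
  have hmem : ∀ j, f j ∈ algebraicClosure k K := fun j => (mem_algebraicClosure_iff).2 (halg j)
  have htF : Transcendental (algebraicClosure k K) t := by
    intro h1
    exact ht (h1.restrictScalars k)
  obtain ⟨R, hR⟩ : ∃ R : Polynomial (algebraicClosure k K), R =
    ∑ j ∈ s, (P j).map (algebraMap k (algebraicClosure k K)) * Polynomial.C ⟨f j, hmem j⟩ :=
    ⟨_, rfl⟩
  have hR0 : Polynomial.aeval t R = 0 := by
    rw [hR, map_sum, ← hg]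
    refine Finset.sum_congr rfl fun j _ => ?_
    rw [map_mul, Polynomial.aeval_C, Polynomial.aeval_map_algebraMap, hP]
    rfl
  have hR1 : R = 0 := by
    by_contra hne
    exact htF ⟨R, hne, hR0⟩
  have hc : ∀ n, ∀ j ∈ s, (P j).coeff n = 0 := by
    intro n
    have h1 : ∑ j ∈ s, (P j).coeff n • f j = 0 := by
      have h2 : R.coeff n = 0 := by rw [hR1, Polynomial.coeff_zero]
      rw [hR, Polynomial.finsetSum_coeff] at h2
      have h3 := congrArg (algebraMap (algebraicClosure k K) K) h2
      rw [map_sum, map_zero] at h3
      rw [← h3]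
      refine Finset.sum_congr rfl fun j _ => ?_
      rw [Polynomial.coeff_mul_C, Polynomial.coeff_map, map_mul, Algebra.smul_def]
      rfl
    exact linearIndependent_iff'.1 hf s _ h1
  intro j hj
  have h1 : P j = 0 := Polynomial.ext fun n => by rw [hc n j hj, Polynomial.coeff_zero]
  have h2 := hP j
  rw [h1, map_zero] at h2
  exact Subtype.ext h2.symm

theorem one_fin [CharZero k] (h : Crv X) : Module.Finite k (secL (1 : Cart X) 1) := by
  obtain ⟨U, t, H, hP⟩ := par h
  have hfin : FiniteDimensional (IntermediateField.adjoin k {t}) K :=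
    a3_fin h.tr (K_fg h.var h.gen) t hP.tr
  obtain ⟨b⟩ : Nonempty (Module.Basis (Module.Basis.ofVectorSpaceIndex k (secL (1 : Cart X) 1)) k
    (secL (1 : Cart X) 1)) := ⟨Module.Basis.ofVectorSpace k _⟩
  have h1 : LinearIndependent k (fun i => (b i : K)) :=
    b.linearIndependent.map' (secL (1 : Cart X) 1).subtype (Submodule.ker_subtype _)
  have h2 := fc_li hP.tr _ h1 fun i => alg_const h _ (fc_mem (b i).2)
  have h3 : Finite (Module.Basis.ofVectorSpaceIndex k (secL (1 : Cart X) 1)) :=
    h2.finite_of_isNoetherian
  exact Module.Finite.of_basis b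

end Pool.Agent.H41.TK
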