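import Pool.Agent.H41.TK.D1

/-!
# [H41 TK FL] the local rings modulo a nonzero element, 80-130 lines

`surj_loc`: `x ∈ U` affine, `g, c ∈ O x`, `g ≠ 0`: there is `b ∈ sec U` with `(b - c) / g ∈ O x`.
PROOF.  (1) There is `0 ≠ a ∈ A = sec U` with `a / g ∈ O x`: `g * s ∈ A`, `s ∈ A` a unit at `x` (`IsVar.frac`); `a = g * s`.  So it is enough to find `b` with `(b - c) / a ∈ O x` (`(b - c)/g = (b - c)/a * (a/g)`).
(2) `c = b' / s`, `b', s ∈ A`, `s` a unit at `x`.  Let `S` be the image of `A` in the ring `O x / (a)` (`φ : A → O x → O x / (a)`, `k`-algebra map): it is a quotient of `A / (a)`, so finite dimensional over `k` (`fin_quot`, QM.lean).  Multiplication by `φ s` maps `S` to `S` and is injective (`φ s` is a unit of `O x / (a)`), so it is surjective (`LinearMap.injective_iff_surjective`): there is `b ∈ A` with `φ s * φ b = φ b'`, so `φ b = φ b' * (φ s)⁻¹ = class of c`.  (If `a` is a unit at `x` the ring `O x / (a)` is trivial and everything is true with `b = 0`: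 no case distinction is needed.)

`fr_fin`: `Fr x e / (Fr x e ∩ Fr x e')` is finite dimensional (`Fr x e = {s : s e ∈ O x}`).
PROOF.  `e' / e = q / c` with `q, c ∈ A`, `c ≠ 0` (`gen_frac`, H83/TU/PA.lean), `U` affine, `x ∈ U`, `A = sec U`.  The linear map `A → Fr x e / (Fr x e ∩ Fr x e')`, `b ↦ class of b / e`, kills `c A` (`c b / e * e' = b * q ∈ O x`), and it is onto: for `s ∈ Fr x e`, `s e ∈ O x`, `surj_loc` with `g = c`: `b ∈ A` with `(b - s e) / c ∈ O x`, so `(b / e - s) * e' = (b - s e) / e * e' = (b - s e)/c * q ∈ O x`.  So the quotient is a quotient of `A / (c)`, which is finite dimensional (`fin_quot`; `Submodule.liftQ`, `Module.Finite.of_surjective`).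
-/

set_option autoImplicit false

namespace Pool.Agent.H41.TK

open Pool.Agent.H54.RV Pool.Agent.H83.TU

variable {k K : Type} [Field k] [Field K] [Algebra k K] {X : Mod k K}

/-- the elements of `A` divisible by `a` in `O` -/
private def fljJ (A O : Subalgebra k K) (hAO : A ≤ O) (a : K) : Ideal A where
  carrier := {f | (f : K) / a ∈ O}
  zero_mem' := by
    show ((0 : A) : K) / a ∈ O
    rw [ZeroMemClass.coe_zero, zero_div]
    exact O.zero_mem
  add_mem' := fun {f g} hf hg => by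
    show ((f + g : A) : K) / a ∈ O
    have h1 : ((f + g : A) : K) / a = (f : K) / a + (g : K) / a := by
      rw [Subalgebra.coe_add, add_div]
    rw [h1]
    exact O.add_mem hf hg
  smul_mem' := fun c f hf => by
    show ((c • f : A) : K) / a ∈ O
    have h1 : ((c • f : A) : K) / a = (c : K) * ((f : K) / a) := by
      rw [smul_eq_mul, Subalgebra.coe_mul, mul_div_assoc]
    rw [h1]
    exact O.mul_mem (hAO c.2) hf

private theorem flj_fin (h : Algebra.trdeg k K = 1) (A O : Subalgebra k K) (hAO : A ≤ O) (hA : A.FG)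
    {a : K} (ha : a ∈ A) (h0 : a ≠ 0) : Module.Finite k (A ⧸ fljJ A O hAO a) := by
  have h1 := fin_quot h A hA ⟨a, ha⟩ (fun h => h0 (congrArg Subtype.val h))
  have hle : Ideal.span {(⟨a, ha⟩ : A)} ≤ fljJ A O hAO a := by
    rw [Ideal.span_singleton_le_iff_mem]
    show a / a ∈ O
    rw [div_self h0]
    exact O.one_mem
  exact Module.Finite.of_surjective (Ideal.Quotient.factorₐ k hle).toLinearMap
    (Ideal.Quotient.factor_surjective hle)

theorem surj_loc (h : Crv X) (U : Set X.P) (hU : X.aff U) (x : X.P) (hx : x ∈ U) (g c : K) (hg : g ∈ X.O x)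
    (h0 : g ≠ 0) (hc : c ∈ X.O x) : ∃ b ∈ X.sec U, (b - c) / g ∈ X.O x := by
  obtain ⟨s, hs, hsu, hgs⟩ := h.var.frac U x hU hx g hg
  obtain ⟨t, ht, htu, hct⟩ := h.var.frac U x hU hx c hc
  have hAO : X.sec U ≤ X.O x := fun a ha => (mem_sec U a).1 ha x hx
  have ha0 : g * s ≠ 0 := mul_ne_zero h0 hsu.1
  have hfin := flj_fin h.tr (X.sec U) (X.O x) hAO (h.var.fg U hU ⟨x, hx⟩) hgs ha0
  set J := fljJ (X.sec U) (X.O x) hAO (g * s) with hJ
  have hmJ : ∀ f : X.sec U, f ∈ J ↔ (f : K) / (g * s) ∈ X.O x := fun f => Iff.rfl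
  let tt : X.sec U := ⟨t, ht⟩
  have hinj : Function.Injective (LinearMap.mulLeft k (Ideal.Quotient.mk J tt)) := by
    rw [injective_iff_map_eq_zero]
    intro y hy
    obtain ⟨f, rfl⟩ := Ideal.Quotient.mk_surjective y
    rw [LinearMap.mulLeft_apply, ← map_mul, Ideal.Quotient.eq_zero_iff_mem, hmJ] at hy
    rw [Ideal.Quotient.eq_zero_iff_mem, hmJ]
    have h1 : ((tt * f : X.sec U) : K) / (g * s) = t * ((f : K) / (g * s)) := by
      rw [Subalgebra.coe_mul, mul_div_assoc]
    rw [h1] at hy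
    have h2 := (X.O x).mul_mem htu.2.2 hy
    rwa [← mul_assoc, inv_mul_cancel₀ htu.1, one_mul] at h2
  have hsurj := LinearMap.injective_iff_surjective.1 hinj
  obtain ⟨y, hy⟩ := hsurj (Ideal.Quotient.mk J ⟨c * t, hct⟩)
  obtain ⟨b, rfl⟩ := Ideal.Quotient.mk_surjective y
  rw [LinearMap.mulLeft_apply, ← map_mul, Ideal.Quotient.eq, hmJ] at hy
  refine ⟨b, b.2, ?_⟩
  have h1 : ((b : K) - c) / g = (((tt * b - ⟨c * t, hct⟩ : X.sec U) : K) / (g * s)) * (s * t⁻¹) := by
    have h2 : ((tt * b - ⟨c * t, hct⟩ : X.sec U) : K) = t * b - c * t := rfl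
    rw [h2]
    have := hsu.1
    have := htu.1
    field_simp
  rw [h1]
  exact (X.O x).mul_mem hy ((X.O x).mul_mem (hAO hs) htu.2.2)

theorem fr_fin (h : Crv X) (x : X.P) (e e' : K) (he : e ≠ 0) (he' : e' ≠ 0) :
    Fq (Fr (X := X) x e) (Fr (X := X) x e') := by
  obtain ⟨U, hU, hx⟩ := h.var.chart x
  obtain ⟨c, hc, hc0, hq⟩ := gen_frac h.var h.gen U hU ⟨x, hx⟩ (e' / e)
  have hAO : X.sec U ≤ X.O x := fun a ha => (mem_sec U a).1 ha x hx
  have hmem : ∀ b : X.sec U, (b : K) / e ∈ Fr (X := X) x e := by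
    intro b
    rw [mem_Fr, div_mul_cancel₀ _ he]
    exact hAO b.2
  let L0 : X.sec U →ₗ[k] Fr (X := X) x e :=
    { toFun := fun b => ⟨(b : K) / e, hmem b⟩
      map_add' := fun b b' => Subtype.ext (by
        show ((b + b' : X.sec U) : K) / e = (b : K) / e + (b' : K) / e
        rw [Subalgebra.coe_add, add_div])
      map_smul' := fun r b => Subtype.ext (by
        show ((r • b : X.sec U) : K) / e = r • ((b : K) / e)
        rw [Subalgebra.coe_smul, Algebra.smul_def, Algebra.smul_def, mul_div_assoc]) }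
  let L : X.sec U →ₗ[k] (Fr (X := X) x e ⧸ (Fr (X := X) x e').submoduleOf (Fr (X := X) x e)) :=
    (Submodule.mkQ _).comp L0
  have hL : ∀ b : X.sec U, L b = Submodule.Quotient.mk ⟨(b : K) / e, hmem b⟩ := fun b => rfl
  let cc : X.sec U := ⟨c, hc⟩
  have hker : (Ideal.span {cc}).restrictScalars k ≤ LinearMap.ker L := by
    intro b hb
    rw [Submodule.restrictScalars_mem, Ideal.mem_span_singleton] at hb
    obtain ⟨f, rfl⟩ := hb
    rw [LinearMap.mem_ker, hL, Submodule.Quotient.mk_eq_zero]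
    show ((cc * f : X.sec U) : K) / e * e' ∈ X.O x
    have h1 : ((cc * f : X.sec U) : K) / e * e' = (f : K) * (e' / e * c) := by
      rw [Subalgebra.coe_mul]
      show c * (f : K) / e * e' = (f : K) * (e' / e * c)
      ring
    rw [h1]
    exact (X.O x).mul_mem (hAO f.2) (hAO hq)
  have hsurj : Function.Surjective L := by
    intro y
    obtain ⟨⟨w, hw⟩, rfl⟩ := Submodule.Quotient.mk_surjective _ y
    obtain ⟨b, hb, hbw⟩ := surj_loc h U hU x hx c (w * e) (hAO hc) hc0 hw
    refine ⟨⟨b, hb⟩, ?_⟩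
    rw [hL, Submodule.Quotient.eq]
    show (b / e - w) * e' ∈ X.O x
    have h1 : (b / e - w) * e' = (b - w * e) / c * (e' / e * c) := by
      field_simp
    rw [h1]
    exact (X.O x).mul_mem hbw (hAO hq)
  have hfin := fin_quot h.tr (X.sec U) (h.var.fg U hU ⟨x, hx⟩) cc (fun h => hc0 (congrArg Subtype.val h))
  have hfin2 : Module.Finite k (X.sec U ⧸ (Ideal.span {cc}).restrictScalars k) :=
    Module.Finite.equiv (Submodule.Quotient.restrictScalarsEquiv k (Ideal.span {cc})).symm
  refine Module.Finite.of_surjective (Submodule.liftQ _ L hker) ?_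
  intro y
  obtain ⟨b, hb⟩ := hsurj y
  exact ⟨Submodule.Quotient.mk b, hb⟩

end Pool.Agent.H41.TK
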