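import Pool.Agent.H41.TK.LAA
import Pool.Agent.H41.TK.FC
import Pool.Agent.H41.TK.FA

/-!
# [H41 TK SC] the sections as constant adeles, 50-90 lines

`s ↦ (x ↦ s)` is a linear equivalence of `secL D 1` and `AdD D ⊓ Kd X` (`X.P` is nonempty: `IsVar.ne`).  So for `D`, `E` (with `AdD E ≤ AdD D`) `qd (AdD D ⊓ Kd X) (AdD E ⊓ Kd X) = h0 D 1 - h0 E 1`.
`sec_fin`: `secL D 1` is finite dimensional: `(AdD D ⊓ Kd X) / (.. ⊓ AdD 1)` is finite (`fq_mono` from `ad_fin`), and `AdD D ⊓ Kd X ⊓ AdD 1 ≤ AdD 1 ⊓ Kd X` is isomorphic to a subspace of `secL 1 1`, finite (`one_fin`, FC.lean).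
`qd_sec`: for `AdD E ≤ AdD D`: the quotient of finite dimensional spaces (`Submodule.finrank_quotient_add_finrank`), both identified with the spaces of sections.
-/

set_option autoImplicit false

namespace Pool.Agent.H41.TK

open Pool.Agent.H54.RV Pool.Agent.H83.TU

variable {k K : Type} [Field k] [Field K] [Algebra k K] {X : Mod k K}

/-- the constant families -/
private noncomputable def cst (X : Mod k K) : K →ₗ[k] (X.P → K) where
  toFun f := fun _ => f
  map_add' _ _ := rfl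
  map_smul' _ _ := rfl

private theorem cst_inj (hX : Nonempty X.P) : Function.Injective (cst X) := by
  obtain ⟨x⟩ := hX
  intro f g h
  exact congrFun h x

private theorem sec_map (D : Cart X) : AdD D ⊓ Kd X = (secL D 1).map (cst X) := by
  ext a
  rw [Submodule.mem_inf, Submodule.mem_map, mem_AdD, mem_Kd]
  constructor
  · rintro ⟨h1, f, hf⟩
    refine ⟨f, fun x => ?_, funext fun x => (hf x).symm⟩
    rw [pow_one, ← hf x]
    exact h1 x
  · rintro ⟨f, hf, rfl⟩
    refine ⟨fun x => ?_, f, fun _ => rfl⟩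
    have h := hf x
    rw [pow_one] at h
    exact h

private noncomputable def sec_equiv (hX : Nonempty X.P) (D : Cart X) :
    secL D 1 ≃ₗ[k] (AdD D ⊓ Kd X : Submodule k (X.P → K)) :=
  (Submodule.equivMapOfInjective (cst X) (cst_inj hX) (secL D 1)).trans
    (LinearEquiv.ofEq _ _ (sec_map D).symm)

private theorem con_fin [CharZero k] (h : Crv X) (D : Cart X) :
    Module.Finite k (AdD D ⊓ Kd X : Submodule k (X.P → K)) := by
  have h1 : Module.Finite k (AdD (1 : Cart X) ⊓ Kd X : Submodule k (X.P → K)) := by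
    haveI := one_fin h
    exact Module.Finite.equiv (sec_equiv h.var.ne 1)
  have h2 : Fq (AdD D ⊓ Kd X) (AdD 1) := fq_mono inf_le_left le_rfl (ad_fin h D 1)
  haveI : Module.Finite k ((AdD D ⊓ Kd X : Submodule k (X.P → K)) ⧸
    (AdD (1 : Cart X)).submoduleOf (AdD D ⊓ Kd X)) := h2
  haveI : Module.Finite k ((AdD (1 : Cart X)).submoduleOf (AdD D ⊓ Kd X)) := by
    obtain ⟨φ, hφ⟩ : ∃ φ : (AdD (1 : Cart X)).submoduleOf (AdD D ⊓ Kd X) →ₗ[k]
        (AdD (1 : Cart X) ⊓ Kd X : Submodule k (X.P → K)), Function.Injective φ := by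
      refine ⟨LinearMap.codRestrict _
        ((AdD D ⊓ Kd X).subtype ∘ₗ ((AdD (1 : Cart X)).submoduleOf (AdD D ⊓ Kd X)).subtype) ?_, ?_⟩
      · rintro ⟨⟨a, ha⟩, ha'⟩
        exact ⟨ha', ha.2⟩
      · rintro ⟨⟨a, ha⟩, ha'⟩ ⟨⟨b, hb⟩, hb'⟩ hab
        have := congrArg Subtype.val hab
        exact Subtype.ext (Subtype.ext this)
    exact Module.Finite.of_injective φ hφ
  exact Module.Finite.of_submodule_quotient ((AdD (1 : Cart X)).submoduleOf (AdD D ⊓ Kd X))

theorem sec_fin [CharZero k] (h : Crv X) (D : Cart X) : Module.Finite k (secL D 1) := by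
  haveI := con_fin h D
  exact Module.Finite.equiv (sec_equiv h.var.ne D).symm

theorem qd_sec [CharZero k] (h : Crv X) (D E : Cart X) (hle : AdD E ≤ AdD D) :
    (qd (AdD D ⊓ Kd X) (AdD E ⊓ Kd X) : ℤ) = (h0 D 1 : ℤ) - h0 E 1 := by
  haveI := con_fin h D
  have hle' : AdD E ⊓ Kd X ≤ AdD D ⊓ Kd X := inf_le_inf_right _ hle
  have h1 := Submodule.finrank_quotient_add_finrank ((AdD E ⊓ Kd X).submoduleOf (AdD D ⊓ Kd X))
  have h2 : Module.finrank k ((AdD E ⊓ Kd X).submoduleOf (AdD D ⊓ Kd X)) = h0 E 1 := by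
    rw [(Submodule.submoduleOfEquivOfLe hle').finrank_eq]
    exact (sec_equiv h.var.ne E).finrank_eq.symm
  have h3 : Module.finrank k (AdD D ⊓ Kd X : Submodule k (X.P → K)) = h0 D 1 :=
    (sec_equiv h.var.ne D).finrank_eq.symm
  rw [h2, h3] at h1
  unfold qd
  omega

end Pool.Agent.H41.TK
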