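import Pool.Agent.H41.TK.BS
import Pool.Agent.H41.TK.SC

/-!
# [H41 TK HG] the growth of the sections of the multiples of the divisor of poles, 50-90 lines

There is `m` with `d (n + 1) ≤ h0 (H ^ (n + m)) 1` for all `n`, `d = [K : k(t)]`.

PROOF.  `e_i`, `m` from `bas` (BS.lean).  For `j ≤ n` the element `e_i t ^ j` is a section of `H ^ (n + m)`: for `x ∈ U`: `e_i, t ∈ O x` and `H.eq x` is a unit; for `x ∉ U`: `H.eq x = v * t⁻¹` with a unit `v = H.eq x * t`, and `e_i t ^ j H.eq x ^ (n + m) = v ^ (n + m) * (t⁻¹ ^ m e_i) * t⁻¹ ^ (n - j) ∈ O x` (`pow_eq`, H54/RV/Grp.lean).  The `d (n + 1)` elements `e_i t ^ j` are linearly independent over `k`: the `e_i` are linearly independent over `k(t)` and the `t ^ j` over `k` (`t` transcendental; `LinearIndependent.smul` for the tower `k ⊆ k(t) ⊆ K`).  `secL (H ^ (n + m)) 1` is finite dimensional (`sec_fin`): `LinearIndependent.fintype_card_le_finrank`.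
-/

set_option autoImplicit false

namespace Pool.Agent.H41.TK

open Pool.Agent.H54.RV Pool.Agent.H83.TU

open scoped IntermediateField

variable {k K : Type} [Field k] [Field K] [Algebra k K] {X : Mod k K}

private theorem pow_li {F : Type} [Field F] [Algebra k F] (t : F) (ht : Transcendental k t) :
    LinearIndependent k (fun j : ℕ => t ^ j) := by
  have h2 := (transcendental_iff_injective).1 ht
  have h3 := (Polynomial.basisMonomials k).linearIndependent.map'
    (Polynomial.aeval t : Polynomial k →ₐ[k] F).toLinearMap (LinearMap.ker_eq_bot.2 h2)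
  have h4 : (fun j : ℕ => t ^ j) =
      (Polynomial.aeval t : Polynomial k →ₐ[k] F).toLinearMap ∘ (Polynomial.basisMonomials k) := by
    funext j
    rw [Function.comp_apply, Polynomial.coe_basisMonomials, AlgHom.toLinearMap_apply,
      Polynomial.aeval_monomial, map_one, one_mul]
  rw [h4]
  exact h3

theorem growth [CharZero k] (h : Crv X) {U : Set X.P} {t : K} {H : Cart X} (hP : Par X U t H) :
    ∃ m : ℕ, ∀ n : ℕ, Module.finrank k⟮t⟯ K * (n + 1) ≤ h0 (H ^ (n + m)) 1 := by
  classical
  obtain ⟨-, e, m, hli, he1, he2⟩ := bas h hP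
  refine ⟨m, fun n => ?_⟩
  haveI := sec_fin h (H ^ (n + m))
  -- powers of `t`
  let t' : k⟮t⟯ := IntermediateField.AdjoinSimple.gen k t
  have ht1 : (algebraMap k⟮t⟯ K t') = t := IntermediateField.AdjoinSimple.algebraMap_gen k t
  have ht2 : Transcendental k t' := by
    intro hc
    apply hP.tr
    have := hc.algebraMap (A := K)
    rwa [ht1] at this
  have hpow : LinearIndependent k (fun j : Fin (n + 1) => t' ^ (j : ℕ)) :=
    (pow_li t' ht2).comp _ Fin.val_injective
  have hsm := linearIndependent_smul hpow hli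
  have hmem : ∀ p : Fin (n + 1) × Fin (Module.finrank k⟮t⟯ K),
      t' ^ (p.1 : ℕ) • e p.2 ∈ secL (H ^ (n + m)) 1 := by
    rintro ⟨j, i⟩ x
    show (t' ^ (j : ℕ) • e i) * (H ^ (n + m)).eq x ^ 1 ∈ X.O x
    rw [pow_one, pow_eq, Algebra.smul_def, map_pow, ht1]
    by_cases hx : x ∈ U
    · obtain ⟨h1, h2⟩ := hP.reg x hx
      exact (X.O x).mul_mem ((X.O x).mul_mem ((X.O x).pow_mem h1 _) (he1 i x hx)) ((X.O x).pow_mem h2.2.1 _)
    · obtain ⟨h1, h2, h3⟩ := hP.pol x hx
      have ht : t ≠ 0 := fun h0 => h3.1 (by rw [h0, mul_zero])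
      have hj : (j : ℕ) ≤ n := Nat.lt_succ_iff.1 j.2
      obtain ⟨l, hl⟩ := Nat.exists_eq_add_of_le hj
      have h4 := (X.O x).mul_mem ((X.O x).mul_mem ((X.O x).pow_mem h3.2.1 (n + m)) (he2 i x hx)) ((X.O x).pow_mem h1 l)
      have h5 : (H.eq x * t) ^ (n + m) * (t⁻¹ ^ m * e i) * t⁻¹ ^ l = t ^ (j : ℕ) * e i * H.eq x ^ (n + m) := by
        have h6 : t ^ (n + m) = t ^ (j : ℕ) * t ^ l * t ^ m := by
          rw [← pow_add, ← pow_add]
          congr 1
          omega
        rw [mul_pow, h6, inv_pow, inv_pow]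
        field_simp
      rw [h5] at h4
      exact h4
  let v : Fin (n + 1) × Fin (Module.finrank k⟮t⟯ K) → secL (H ^ (n + m)) 1 := fun p => ⟨_, hmem p⟩
  have hv : LinearIndependent k v := by
    apply LinearIndependent.of_comp (secL (H ^ (n + m)) 1).subtype
    exact hsm
  have hcard := hv.fintype_card_le_finrank
  rw [Fintype.card_prod, Fintype.card_fin, Fintype.card_fin, mul_comm] at hcard
  exact hcard

end Pool.Agent.H41.TK
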