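import Pool.Agent.H41.TK.LAA

/-!
# [H41 TK LAD] increasing unions of bounded relative dimension (pure linear algebra), 40-80 lines

PROOF.  `qd (W n) (W 0)` is increasing in `n` (`qd_add` for `W 0 ≤ W n ≤ W m`) and bounded by `C`, so there is `n₀` with `qd (W n) (W 0) = qd (W n₀) (W 0)` for all `n ≥ n₀`.  Then `qd (W n) (W n₀) = 0` (`qd_add`), so `W n ≤ W n₀` (`qd_eq_zero`; `Fq (W n) (W n₀)` by `fq_mono`).  So `M ≤ W n₀` and `Fq M (W 0)` by `fq_mono` from `Fq (W n₀) (W 0)`.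
-/

set_option autoImplicit false

namespace Pool.Agent.H41.TK

open Pool.Agent.H54.RV Pool.Agent.H83.TU

variable {k V : Type} [Field k] [AddCommGroup V] [Module k V]

theorem fq_union (W : ℕ → Submodule k V) (hW : Monotone W) (M : Submodule k V) (hM : ∀ a ∈ M, ∃ n, a ∈ W n)
    (C : ℕ) (hf : ∀ n, Fq (W n) (W 0)) (hq : ∀ n, qd (W n) (W 0) ≤ C) : Fq M (W 0) := by
  have hne : (Set.range fun n => qd (W n) (W 0)).Nonempty := ⟨_, 0, rfl⟩
  have hbd : BddAbove (Set.range fun n => qd (W n) (W 0)) := by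
    refine ⟨C, ?_⟩
    rintro _ ⟨n, rfl⟩
    exact hq n
  obtain ⟨n0, hn0⟩ := Nat.sSup_mem hne hbd
  have hmax : ∀ n, qd (W n) (W 0) ≤ qd (W n0) (W 0) := by
    intro n
    have h1 : qd (W n) (W 0) ≤ sSup (Set.range fun n => qd (W n) (W 0)) := le_csSup hbd ⟨n, rfl⟩
    exact h1.trans hn0.ge
  have hle : ∀ n, W n ≤ W n0 := by
    intro n
    rcases le_total n n0 with h | h
    · exact hW h
    · have h1 := qd_add (hW (Nat.zero_le n0)) (hW h) (hf n)
      have h2 := hmax n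
      have h3 : qd (W n) (W n0) = 0 := by omega
      exact (qd_eq_zero (fq_mono le_rfl (hW (Nat.zero_le n0)) (hf n))).1 h3
  refine fq_mono (fun a ha => ?_) le_rfl (hf n0)
  obtain ⟨n, hn⟩ := hM a ha
  exact hle n hn

end Pool.Agent.H41.TK
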