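import Pool.Agent.H41.TK.FU
import Pool.Agent.H83.TU.PF3
import Pool.Agent.H83.TU.RA
import Pool.Agent.H83.TU.UB
import Pool.Agent.H83.TU.AM
import Pool.Agent.H83.TU.Cen

/-!
# [H41 TK PR] a parameter, 70-120 lines

`not_aff`: `X` is not affine.  PROOF.  If `X.aff univ`, `A = sec univ`.  Every `f ∈ A` is algebraic over `k`: otherwise there is a place `p` with `p.ord f < 0` (`exists_pole`, H83/TU/PF3.lean, with `h.tr`, `K_fg`), its centre `x` (`exists_cenK`) has `O x ⊆ p.R` (`Dom`), `f ∈ O x`, so `0 ≤ p.ord f` (`ord_nonneg`): contradiction.  But `K` is the quotient field of `A` (`gen_frac`), so `K` is algebraic over `k`, `trdeg = 0 ≠ 1`.  (State also `alg_const`: a function which is regular everywhere is algebraic over `k`.)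

`par`: there are `U`, `t`, `H` with `Par X U t H`.  PROOF.  Let `A` be ample, `g` a generic point, `n ≥ 1`, `s₀` with `Sec A n s₀`, `g ∈ nz A n s₀ =: U` affine.  `Uᶜ` is finite: it is the set of the `x` where `s₀ * A.eq x ^ n = (A ^ n * prin X s₀).eq x` is not a unit (`fin_cart`; the elements are in `O x`, so `x ∉ U` iff not a unit); nonempty by `not_aff`.  `un_all` (H83/TU/UB.lean) for `A ^ n` (ample: `ample_pow`), `M = 1`, `T = Uᶜ`: for some `m ≥ 1` there is a section `s₁` of `(A ^ n) ^ m`, a unit on `Uᶜ`; `s₁ ≠ 0` because `Uᶜ` is nonempty.  `t = s₁ / s₀ ^ m`, `H = A ^ (n m) * prin X (s₀ ^ m)`.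
For `x ∈ U`: `H.eq x = (s₀ A.eq x ^ n) ^ m` is a unit and `t = (s₁ A.eq x ^ (n m)) / H.eq x ∈ O x`.  For `x ∉ U`: `H.eq x * t = s₁ A.eq x ^ (n m)` is a unit, `t⁻¹ = H.eq x / (s₁ A.eq x ^ (n m)) ∈ O x` is not a unit because `H.eq x = (s₀ A.eq x ^ n) ^ m` is not a unit, `m ≥ 1`.
`t` is transcendental: otherwise, for `x ∉ U`, `t⁻¹ ∈ O x` is algebraic over `k` and nonzero, so its inverse is in `k[t⁻¹] ⊆ O x` (`IsAlgebraic.inv_mem_adjoin`-like or `Subalgebra.inv_mem_of_algebraic`): a unit, contradiction.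
-/

set_option autoImplicit false

namespace Pool.Agent.H41.TK

open Pool.Agent.H54.RV Pool.Agent.H83.TU

variable {k K : Type} [Field k] [Field K] [Algebra k K] {X : Mod k K}

theorem alg_const [CharZero k] (h : Crv X) (f : K) (hf : ∀ x, f ∈ X.O x) : IsAlgebraic k f := by
  by_contra hcon
  have ht : Transcendental k f := hcon
  obtain ⟨p, hp⟩ := exists_pole h.tr (K_fg h.var h.gen) f ht
  obtain ⟨x, hx, -⟩ := exists_cenK h.var h.gen p
  have h0 : f ≠ 0 := by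
    rintro rfl
    exact hcon isAlgebraic_zero
  have h1 := (ord_nonneg p f h0).2 (hx f (hf x)).1
  omega

theorem not_aff [CharZero k] (h : Crv X) : ¬ X.aff Set.univ := by
  intro hU
  obtain ⟨x0⟩ := h.var.ne
  have h1 : Algebra.IsAlgebraic k K := ⟨fun a => by
    obtain ⟨s, hs, hs0, has⟩ := gen_frac h.var h.gen Set.univ hU ⟨x0, trivial⟩ a
    have h2 := alg_const h s (fun x => (mem_sec _ _).1 hs x trivial)
    have h3 := alg_const h (a * s) (fun x => (mem_sec _ _).1 has x trivial)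
    have h4 : a = a * s * s⁻¹ := by
      rw [mul_inv_cancel_right₀ hs0]
    rw [h4]
    exact h3.mul h2.inv⟩
  have h2 : Algebra.trdeg k K = 0 := trdeg_eq_zero_iff.2 h1
  rw [h.tr] at h2
  exact one_ne_zero h2

private theorem un_of_pow {A : Subalgebra k K} {a : K} (ha : a ∈ A) {m : ℕ} (hm : 1 ≤ m) (h : Un A (a ^ m)) : Un A a :=
  (un_pow_iff ha hm).1 h

theorem par [CharZero k] (h : Crv X) : ∃ (U : Set X.P) (t : K) (H : Cart X), Par X U t H := by
  classical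
  obtain ⟨A, hA⟩ := h.amp
  obtain ⟨g, hg⟩ := h.gen
  obtain ⟨n, hn, s₀, hs₀, hgU, haff⟩ := hA g
  have hs00 : s₀ ≠ 0 := by
    rintro rfl
    exact hgU.1 (zero_mul _)
  set U := nz A n s₀ with hUdef
  have hfin : (Uᶜ : Set X.P).Finite := by
    refine (fin_cart h (A ^ n * prin X s₀ hs00)).subset fun x hx hun => hx ?_
    rw [mul_eq, pow_eq, mul_comm] at hun
    exact hun
  have hcne : (Uᶜ : Set X.P).Nonempty := by
    by_contra hcon
    rw [Set.not_nonempty_iff_eq_empty, Set.compl_empty_iff] at hcon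
    rw [hcon] at haff
    exact not_aff h haff
  obtain ⟨m₀, hm₀⟩ := un_all h.var (A ^ n) 1 hfin.toFinset (ample_pow A n hn hA)
  obtain ⟨s₁, hs₁, hs₁'⟩ := hm₀ (m₀ + 1) (Nat.le_succ _)
  set m := m₀ + 1 with hm
  have hm1 : 1 ≤ m := Nat.succ_le_succ (Nat.zero_le _)
  have e1 : ∀ x, ((A ^ n) ^ m * 1).eq x ^ 1 = (A.eq x ^ n) ^ m := by
    intro x
    rw [pow_one, mul_one, pow_eq, pow_eq]
  have hs₁0 : s₁ ≠ 0 := by
    obtain ⟨x, hx⟩ := hcne
    have h1 : Un (X.O x) (s₁ * ((A ^ n) ^ m * 1).eq x ^ 1) := hs₁' x (by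
      rw [Set.Finite.mem_toFinset]
      exact hx)
    rintro rfl
    exact h1.1 (zero_mul _)
  have hs1 : ∀ x, s₁ * (A.eq x ^ n) ^ m ∈ X.O x := by
    intro x
    have := hs₁ x
    rwa [e1] at this
  have hs1u : ∀ x, x ∉ U → Un (X.O x) (s₁ * (A.eq x ^ n) ^ m) := by
    intro x hx
    have h1 : Un (X.O x) (s₁ * ((A ^ n) ^ m * 1).eq x ^ 1) := hs₁' x (by
      rw [Set.Finite.mem_toFinset]
      exact hx)
    rwa [e1] at h1
  have hp0 : s₀ ^ m ≠ 0 := pow_ne_zero _ hs00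
  let H : Cart X := (A ^ n) ^ m * prin X (s₀ ^ m) hp0
  have hHeq : ∀ x, H.eq x = (s₀ * A.eq x ^ n) ^ m := by
    intro x
    show ((A ^ n) ^ m).eq x * s₀ ^ m = _
    rw [pow_eq, pow_eq, mul_pow, mul_comm]
  let t : K := s₁ / s₀ ^ m
  have hHt : ∀ x, H.eq x * t = s₁ * (A.eq x ^ n) ^ m := by
    intro x
    rw [hHeq]
    show (s₀ * A.eq x ^ n) ^ m * (s₁ / s₀ ^ m) = _
    rw [mul_pow]
    field_simp
  have ht0 : t ≠ 0 := div_ne_zero hs₁0 hp0
  have hpol : ∀ x, x ∉ U → t⁻¹ ∈ X.O x ∧ ¬ Un (X.O x) t⁻¹ ∧ Un (X.O x) (H.eq x * t) := by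
    intro x hx
    have h1 : Un (X.O x) (H.eq x * t) := by
      rw [hHt]
      exact hs1u x hx
    have h2 : t⁻¹ = H.eq x * (H.eq x * t)⁻¹ := by
      have := H.ne x
      field_simp
    have h3 : H.eq x ∈ X.O x := by
      rw [hHeq]
      exact (X.O x).pow_mem (hs₀ x) m
    refine ⟨?_, fun hun => hx ?_, h1⟩
    · rw [h2]
      exact (X.O x).mul_mem h3 h1.2.2
    · have h4 : Un (X.O x) (H.eq x) := by
        have h5 : H.eq x = t⁻¹ * (H.eq x * t) := by
          field_simp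
        rw [h5]
        exact un_mul hun h1
      rw [hHeq] at h4
      exact un_of_pow (hs₀ x) hm1 h4
  refine ⟨U, t, H, haff, ⟨g, hgU⟩, hcne, hfin, ?_, ?_, hpol⟩
  · intro halg
    obtain ⟨x, hx⟩ := hcne
    obtain ⟨h1, h2, -⟩ := hpol x hx
    apply h2
    have h3 : IsAlgebraic k t⁻¹ := halg.inv
    have h4 := Subalgebra.inv_mem_of_algebraic (X.O x) (x := ⟨t⁻¹, h1⟩) h3
    exact ⟨inv_ne_zero ht0, h1, h4⟩
  · intro x hx
    have h1 : Un (X.O x) (s₀ * A.eq x ^ n) := hx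
    have h2 : Un (X.O x) (H.eq x) := by
      rw [hHeq]
      exact (un_pow_iff (hs₀ x) hm1).2 h1
    refine ⟨?_, h2⟩
    have h3 : t = s₁ * (A.eq x ^ n) ^ m * (H.eq x)⁻¹ := by
      rw [← hHt]
      have := H.ne x
      field_simp
    rw [h3]
    exact (X.O x).mul_mem (hs1 x) h2.2.2

end Pool.Agent.H41.TK
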