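import Pool.Agent.H41.TK.LAC
import Pool.Agent.H41.TK.LAD
import Pool.Agent.H41.TK.MU
import Pool.Agent.H41.TK.AF
import Pool.Agent.H41.TK.DL
import Pool.Agent.H41.TK.HG
import Pool.Agent.H41.TK.PR

/-!
# [H41 TK H1] `H¹` is finite dimensional, 90-150 lines

PROOF.  `par`: `U, t, H`; `d = [K : k(t)]`; `m` from `growth` (HG.lean).  `W n = AdD (H ^ n) ⊔ Kd X`.
(a) `AdD 1 = AdD (H ^ 0) ≤ AdD (H ^ n) ≤ AdD (H ^ (n+1))`: `H.eq x ∈ O x` for all `x` (a unit for `x ∈ U`, `v * t⁻¹` for `x ∉ U`).  So `W` is monotone, `W 0 = AdD 1 ⊔ Kd X`.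
(b) Every adele `a` is in some `W n`: `aff_adl` (AF.lean) with `D = 1`: `f ∈ K` with `a x - f ∈ O x` for `x ∈ U`.  For the finitely many `x ∉ U`: `dim1` with `u = t⁻¹`: `t⁻¹ ^ n (a x - f) ∈ O x` for large `n`, so `(a x - f) * H.eq x ^ n ∈ O x`.  So `a - f ∈ AdD (H ^ n)` (`pow_eq`), `a ∈ W n`.
(c) `qd (AdD (H ^ n)) (AdD 1) ≤ n d`: induction, `qd_add`, `qd (AdD (H ^ (n+1))) (AdD (H ^ n)) = qd (AdD H) (AdD 1)` by `qd_mul` (MU.lean; `H ^ (n+1) = H * H ^ n`, `H ^ n = 1 * H ^ n`), `deg_le` (DL.lean).  All `Fq` from `ad_fin`.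
(d) `qd_split` (LAC.lean) for `A = AdD 1 ≤ B = AdD (H ^ n)`, `C = Kd X`: `qd (W n) (W 0) = qd (AdD (H ^ n)) (AdD 1) - qd (AdD (H ^ n) ⊓ Kd X) (AdD 1 ⊓ Kd X) ≤ n d - (h0 (H ^ n) 1 - h0 1 1)` (`qd_sec`, SC.lean), and `h0 (H ^ n) 1 ≥ d (n - m + 1)` for `n ≥ m` (`growth`), so it is `≤ d m + h0 1 1` for `n ≥ m`, and `≤ n d ≤ m d` for `n < m`.
(e) `fq_union` (LAD.lean) with `M = Adl X`, `C = d m + h0 1 1`.
-/

set_option autoImplicit false

namespace Pool.Agent.H41.TK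

open Pool.Agent.H54.RV Pool.Agent.H83.TU

variable {k K : Type} [Field k] [Field K] [Algebra k K] {X : Mod k K}

private theorem par_h {U : Set X.P} {t : K} {H : Cart X} (hP : Par X U t H) (x : X.P) : H.eq x ∈ X.O x := by
  by_cases hx : x ∈ U
  · exact (hP.reg x hx).2.2.1
  · obtain ⟨h1, -, h2⟩ := hP.pol x hx
    have ht : t ≠ 0 := fun h0 => h2.1 (by rw [h0, mul_zero])
    have h3 := (X.O x).mul_mem h2.2.1 h1
    rwa [mul_assoc, mul_inv_cancel₀ ht, mul_one] at h3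

private theorem ad_mono' (D E : Cart X) (hE : ∀ x, E.eq x ∈ X.O x) : AdD D ≤ AdD (D * E) := by
  intro a ha x
  have h1 := (X.O x).mul_mem (ha x) (hE x)
  rw [mul_assoc] at h1
  exact h1

private theorem qd_pow [CharZero k] (h : Crv X) (H : Cart X) (hH : ∀ x, H.eq x ∈ X.O x) (d : ℕ)
    (hd : qd (AdD H) (AdD 1) ≤ d) (n : ℕ) : qd (AdD (H ^ n)) (AdD 1) ≤ n * d := by
  induction n with
  | zero =>
    rw [pow_zero, qd_self]
    exact Nat.zero_le _
  | succ n ih =>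
    have h1 : AdD (1 : Cart X) ≤ AdD (H ^ n) := by
      have := ad_mono' 1 (H ^ n) (fun x => by
        rw [pow_eq]
        exact (X.O x).pow_mem (hH x) n)
      rwa [one_mul] at this
    have h2 : AdD (H ^ n) ≤ AdD (H ^ (n + 1)) := by
      rw [pow_succ]
      exact ad_mono' _ _ hH
    rw [qd_add h1 h2 (ad_fin h _ _)]
    have h3 : qd (AdD (H ^ (n + 1))) (AdD (H ^ n)) = qd (AdD H) (AdD 1) := by
      have := qd_mul H 1 (H ^ n)
      rw [one_mul] at this
      rw [← this, pow_succ, mul_comm]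
    rw [h3]
    have : (n + 1) * d = n * d + d := by ring
    omega

theorem h1_fin [CharZero k] (h : Crv X) : Fq (Adl X) (AdD 1 ⊔ Kd X) := by
  classical
  obtain ⟨U, t, H, hP⟩ := par h
  obtain ⟨m, hm⟩ := growth h hP
  set d := Module.finrank (IntermediateField.adjoin k {t}) K with hd
  have hH : ∀ x, H.eq x ∈ X.O x := par_h hP
  have hdeg : qd (AdD H) (AdD 1) ≤ d := deg_le h hP
  have hmono : ∀ n n' : ℕ, n ≤ n' → AdD (H ^ n) ≤ AdD (H ^ n') := by
    intro n n' hnn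
    obtain ⟨j, rfl⟩ := Nat.exists_eq_add_of_le hnn
    rw [pow_add]
    refine ad_mono' _ _ fun x => ?_
    rw [pow_eq]
    exact (X.O x).pow_mem (hH x) j
  have h0n : ∀ n, AdD (1 : Cart X) ≤ AdD (H ^ n) := by
    intro n
    have := hmono 0 n (Nat.zero_le _)
    rwa [pow_zero] at this
  -- the union
  have hunion : ∀ a ∈ Adl X, ∃ n, a ∈ AdD (H ^ n) ⊔ Kd X := by
    intro a ha
    obtain ⟨f, hf⟩ := aff_adl h U hP.aff hP.ne 1 a ha
    have h1 : ∀ x, x ∉ U → ∃ n : ℕ, t⁻¹ ^ n * (a x - f) ∈ X.O x := by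
      intro x hx
      obtain ⟨h1, h2, h3⟩ := hP.pol x hx
      have ht : t ≠ 0 := fun h0 => h3.1 (by rw [h0, mul_zero])
      exact dim1 h x t⁻¹ h1 (inv_ne_zero ht) h2 _
    choose! N hN using h1
    obtain ⟨n, hn⟩ : ∃ n, ∀ x ∈ hP.fin.toFinset, N x ≤ n :=
      ⟨hP.fin.toFinset.sup N, fun x hx => Finset.le_sup hx⟩
    refine ⟨n, ?_⟩
    have h2 : (fun x => a x - f) ∈ AdD (H ^ n) := by
      intro x
      show (a x - f) * (H ^ n).eq x ∈ X.O x
      rw [pow_eq]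
      by_cases hx : x ∈ U
      · have h3 := hf x hx
        rw [one_eq, mul_one] at h3
        exact (X.O x).mul_mem h3 ((X.O x).pow_mem (hH x) n)
      · obtain ⟨h3, h4, h5⟩ := hP.pol x hx
        have ht : t ≠ 0 := fun h0 => h5.1 (by rw [h0, mul_zero])
        have h6 : N x ≤ n := hn x (by
          rw [Set.Finite.mem_toFinset]
          exact hx)
        obtain ⟨j, rfl⟩ := Nat.exists_eq_add_of_le h6
        have h7 := (X.O x).mul_mem ((X.O x).mul_mem (hN x hx) ((X.O x).pow_mem h3 j))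
          ((X.O x).pow_mem h5.2.1 (N x + j))
        have h8 : t⁻¹ ^ N x * (a x - f) * t⁻¹ ^ j * (H.eq x * t) ^ (N x + j) =
            (a x - f) * H.eq x ^ (N x + j) := by
          rw [mul_pow, pow_add t, inv_pow, inv_pow]
          field_simp
        rw [h8] at h7
        exact h7
    have h3 : a = (fun x => a x - f) + (fun _ => f) := by
      funext x
      show a x = a x - f + f
      ring
    rw [h3]
    exact Submodule.add_mem_sup h2 ⟨f, fun _ => rfl⟩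
  -- the dimensions
  have hW0 : AdD (1 : Cart X) ⊔ Kd X = AdD (H ^ 0) ⊔ Kd X := by rw [pow_zero]
  rw [hW0]
  refine fq_union (fun n => AdD (H ^ n) ⊔ Kd X) (fun n n' hnn => sup_le_sup_right (hmono n n' hnn) _) (Adl X)
    hunion (d * m + h0 (1 : Cart X) 1) (fun n => ?_) (fun n => ?_)
  · show Fq (AdD (H ^ n) ⊔ Kd X) (AdD (H ^ 0) ⊔ Kd X)
    rw [pow_zero]
    exact (qd_split (h0n n) (Kd X) (ad_fin h _ _)).1
  · show qd (AdD (H ^ n) ⊔ Kd X) (AdD (H ^ 0) ⊔ Kd X) ≤ _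
    rw [pow_zero]
    obtain ⟨-, -, h3⟩ := qd_split (h0n n) (Kd X) (ad_fin h (H ^ n) 1)
    have h4 := qd_pow h H hH d hdeg n
    have h5 := qd_sec h (H ^ n) 1 (h0n n)
    by_cases hnm : n < m
    · have h6 : n * d ≤ d * m := by
        rw [mul_comm]
        exact Nat.mul_le_mul_left d hnm.le
      omega
    · push Not at hnm
      obtain ⟨j, rfl⟩ := Nat.exists_eq_add_of_le hnm
      have h6 := hm j
      rw [add_comm j m] at h6
      have h7 : (m + j) * d = d * m + d * j := by ring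
      have h8 : d * (j + 1) = d * j + d := by ring
      rw [h8] at h6
      rw [h7] at h4
      omega

end Pool.Agent.H41.TK
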