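import Pool.Agent.H41.TK.Def

/-!
# [H41 TK LAA] relative dimensions, part 1 (pure linear algebra), 60-120 lines

`qd M N = dim M / (M ∩ N)`, `Fq M N`: finite (Def.lean; `N.submoduleOf M` is `Submodule.comap M.subtype N`).

PROOFS.  `fq_inf`, `qd_inf`: `(M ⊓ N).submoduleOf M = N.submoduleOf M`.  `fq_self`, `qd_self`: the quotient by `⊤` is trivial.
`P ≤ N ≤ M`: the sequence `0 → N/P → M/P → M/N → 0` is exact (`Submodule.mapQ`, `Submodule.factor`): `fq_trans` (`Module.Finite.of_submodule_quotient` or `Module.Finite.of_exact`-like), `fq_left`, `fq_right` (injective or surjective maps), `qd_add`: `Submodule.finrank_quotient_add_finrank` for the image of `N/P` in `M/P` (or `LinearMap.finrank_range_add_finrank_ker` for `M/P → M/N`).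
`qd_eq_zero`: `Module.finrank_eq_zero_iff` (finite over a field: `Module.finrank_zero_iff`), the quotient is trivial iff `N.submoduleOf M = ⊤` iff `M ≤ N`.
`fq_sup`, `qd_sup`: second isomorphism theorem: `M/(M ∩ N) ≃ (M ⊔ N)/N` (`LinearMap.quotientInfEquivSupQuotient`).
`fq_mono`: `M' ≤ M`, `N ≤ N'`: `M'/(M' ∩ N') ` is a subquotient of `M/(M ∩ N)`: finite.
-/

set_option autoImplicit false

namespace Pool.Agent.H41.TK

open Pool.Agent.H54.RV Pool.Agent.H83.TU

variable {k V : Type} [Field k] [AddCommGroup V] [Module k V]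

/-- the quotient is the image in the quotient of the space -/
private noncomputable def laa_e (M N : Submodule k V) :
    (M ⧸ N.submoduleOf M) ≃ₗ[k] (M.map N.mkQ : Submodule k (V ⧸ N)) := by
  have h1 : LinearMap.ker (N.mkQ.comp M.subtype) = N.submoduleOf M := by
    rw [LinearMap.ker_comp, Submodule.ker_mkQ]
    rfl
  have h2 : LinearMap.range (N.mkQ.comp M.subtype) = M.map N.mkQ := by
    rw [LinearMap.range_comp, Submodule.range_subtype]
  exact (Submodule.quotEquivOfEq _ _ h1.symm).trans
    ((LinearMap.quotKerEquivRange (N.mkQ.comp M.subtype)).trans (LinearEquiv.ofEq _ _ h2))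

private theorem laa_fq (M N : Submodule k V) : Fq M N ↔ (M.map N.mkQ).FG := by
  unfold Fq
  rw [← Module.Finite.iff_fg]
  exact Module.Finite.equiv_iff (laa_e M N)

private theorem laa_qd (M N : Submodule k V) : qd M N = Module.finrank k (M.map N.mkQ) :=
  (laa_e M N).finrank_eq

theorem fq_self (M : Submodule k V) : Fq M M := by
  rw [laa_fq, Submodule.mkQ_map_self]
  exact Submodule.fg_bot

theorem qd_self (M : Submodule k V) : qd M M = 0 := by
  rw [laa_qd, Submodule.mkQ_map_self]
  exact finrank_bot k _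

theorem fq_inf (M N : Submodule k V) : Fq M N ↔ Fq M (M ⊓ N) := by
  have h : (M ⊓ N).submoduleOf M = N.submoduleOf M := by
    unfold Submodule.submoduleOf
    rw [Submodule.comap_inf, Submodule.comap_subtype_self, top_inf_eq]
  unfold Fq
  rw [h]

theorem qd_inf (M N : Submodule k V) : qd M N = qd M (M ⊓ N) := by
  have h : (M ⊓ N).submoduleOf M = N.submoduleOf M := by
    unfold Submodule.submoduleOf
    rw [Submodule.comap_inf, Submodule.comap_subtype_self, top_inf_eq]
  unfold qd
  rw [h]

/-- the image of `M / P` in `V / N` -/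
private theorem laa_map {P N : Submodule k V} (M : Submodule k V) (h1 : P ≤ N) :
    (M.map P.mkQ).map (Submodule.factor h1) = M.map N.mkQ := by
  rw [← Submodule.map_comp]
  rfl

private theorem laa_ker {P N : Submodule k V} (h1 : P ≤ N) :
    LinearMap.ker (Submodule.factor h1) = N.map P.mkQ := by
  ext x
  obtain ⟨v, rfl⟩ := P.mkQ_surjective x
  rw [LinearMap.mem_ker]
  have e : Submodule.factor h1 (P.mkQ v) = N.mkQ v := rfl
  rw [e, Submodule.mkQ_apply, Submodule.Quotient.mk_eq_zero]
  constructor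
  · intro h
    exact Submodule.mem_map_of_mem h
  · rintro ⟨w, hw, hwv⟩
    have h2 : w - v ∈ P := by
      rw [← Submodule.Quotient.eq]
      exact hwv
    have h3 : v = w - (w - v) := by abel
    rw [h3]
    exact N.sub_mem hw (h1 h2)

theorem fq_trans {P N M : Submodule k V} (h1 : P ≤ N) (h2 : N ≤ M) (hNP : Fq N P) (hMN : Fq M N) : Fq M P := by
  rw [laa_fq] at hNP hMN ⊢
  refine Submodule.fg_of_fg_map_of_fg_inf_ker (Submodule.factor h1) ?_ ?_
  · rw [laa_map M h1]
    exact hMN
  · rw [laa_ker h1, inf_eq_right.2 (Submodule.map_mono h2)]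
    exact hNP

theorem fq_mono {M M' N N' : Submodule k V} (h1 : M' ≤ M) (h2 : N ≤ N') (h : Fq M N) : Fq M' N' := by
  rw [laa_fq] at h ⊢
  rw [← laa_map M' h2]
  refine Submodule.FG.map _ ?_
  have h3 : M'.map N.mkQ ≤ M.map N.mkQ := Submodule.map_mono h1
  have h4 : IsNoetherian k (M.map N.mkQ) := by
    have : Module.Finite k (M.map N.mkQ) := Module.Finite.iff_fg.2 h
    infer_instance
  have h5 : ((M'.map N.mkQ).comap (M.map N.mkQ).subtype).FG := IsNoetherian.noetherian _
  have h6 := h5.map (M.map N.mkQ).subtype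
  rwa [Submodule.map_comap_subtype, inf_eq_right.2 h3] at h6

theorem qd_add {P N M : Submodule k V} (h1 : P ≤ N) (h2 : N ≤ M) (h : Fq M P) :
    qd M P = qd M N + qd N P := by
  have h0 := (laa_fq M P).1 h
  have hfin : Module.Finite k (M.map P.mkQ) := Module.Finite.iff_fg.2 h0
  obtain ⟨φ, hφ⟩ : ∃ φ : (M.map P.mkQ : Submodule k (V ⧸ P)) →ₗ[k] (V ⧸ N),
    φ = (Submodule.factor h1).comp (M.map P.mkQ).subtype := ⟨_, rfl⟩
  have hr : LinearMap.range φ = M.map N.mkQ := by
    rw [hφ, LinearMap.range_comp, Submodule.range_subtype, laa_map M h1]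
  have hk : LinearMap.ker φ = (N.map P.mkQ).submoduleOf (M.map P.mkQ) := by
    rw [hφ, LinearMap.ker_comp, laa_ker h1]
    rfl
  have h3 := LinearMap.finrank_range_add_finrank_ker φ
  rw [hr, hk] at h3
  have h4 : Module.finrank k ((N.map P.mkQ).submoduleOf (M.map P.mkQ)) =
      Module.finrank k (N.map P.mkQ) :=
    (Submodule.submoduleOfEquivOfLe (Submodule.map_mono h2)).finrank_eq
  rw [laa_qd, laa_qd, laa_qd, ← h3, h4]

theorem qd_eq_zero {M N : Submodule k V} (h : Fq M N) : qd M N = 0 ↔ M ≤ N := by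
  have h0 := (laa_fq M N).1 h
  have hfin : Module.Finite k (M.map N.mkQ) := Module.Finite.iff_fg.2 h0
  rw [laa_qd, Submodule.finrank_eq_zero, ← LinearMap.le_ker_iff_map, Submodule.ker_mkQ]

private theorem laa_sup (M N : Submodule k V) : (M ⊔ N).map N.mkQ = M.map N.mkQ := by
  rw [Submodule.map_sup, Submodule.mkQ_map_self, sup_bot_eq]

theorem fq_sup (M N : Submodule k V) : Fq (M ⊔ N) N ↔ Fq M N := by
  rw [laa_fq, laa_fq, laa_sup]

theorem qd_sup (M N : Submodule k V) : qd (M ⊔ N) N = qd M N := by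
  rw [laa_qd, laa_qd, laa_sup]

end Pool.Agent.H41.TK
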