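import Pool.Agent.H41.TK.LAA

/-!
# [H41 TK LAB] relative dimensions, part 2: additivity and isomorphisms (pure linear algebra), 60-120 lines

`ix M N = qd M N - qd N M`.  PROOFS.
`ix_add`: for commensurable `M, N, P`.  Put `Q = M ⊓ N ⊓ P`.  All of `M/Q`, `N/Q`, `P/Q` are finite dimensional: `M/(M ⊓ N)` is finite and `(M ⊓ N)/Q` embeds in `N/(N ⊓ P)` (`fq_inf`, `fq_mono`, `fq_trans`).  For two subspaces `A, B` and `Q ≤ A ⊓ B` with finite `A/Q`, `B/Q`: `ix A B = qd A Q - qd B Q`, because `qd A Q = qd A (A ⊓ B) + qd (A ⊓ B) Q` and the same for `B` (`qd_add`, `qd_inf`).  So both sides are `qd M Q - qd P Q`.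
`ix_le`: `N ≤ M`: `qd N M = 0` (`N.submoduleOf`: `M.submoduleOf N = ⊤`; or `qd_eq_zero` after `Fq N M` which is trivial).
`fq_map`, `qd_map`: for a linear equivalence `e`: `M/(M ∩ N) ≃ e M / (e M ∩ e N)` (`Submodule.Quotient.equiv` with `e.submoduleMap M`).
-/

set_option autoImplicit false

namespace Pool.Agent.H41.TK

open Pool.Agent.H54.RV Pool.Agent.H83.TU

variable {k V : Type} [Field k] [AddCommGroup V] [Module k V]

theorem ix_self (M : Submodule k V) : ix M M = 0 := by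
  unfold ix
  exact sub_self _

theorem ix_symm (M N : Submodule k V) : ix N M = - ix M N := by
  unfold ix
  ring

theorem ix_le {M N : Submodule k V} (h : N ≤ M) : ix M N = qd M N := by
  have h1 : Fq N M := by
    rw [fq_inf, inf_eq_left.2 h]
    exact fq_self N
  have h2 : qd N M = 0 := (qd_eq_zero h1).2 h
  unfold ix
  rw [h2]
  simp

private theorem lab_fq3 {M N P : Submodule k V} (h1 : Fq M N) (h2 : Fq N P) :
    Fq M (M ⊓ N ⊓ P) := by
  have e1 : Fq (M ⊓ N) (M ⊓ N ⊓ P) := (fq_inf _ _).1 (fq_mono inf_le_right le_rfl h2)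
  have e2 : Fq M (M ⊓ N) := (fq_inf _ _).1 h1
  exact fq_trans inf_le_left inf_le_left e1 e2

theorem fq_comm {M N P : Submodule k V} (h1 : Fq M N) (h2 : Fq N P) : Fq M P :=
  fq_mono le_rfl inf_le_right (lab_fq3 h1 h2)

private theorem lab_ix {A B Q : Submodule k V} (h : Q ≤ A ⊓ B) (hA : Fq A Q) (hB : Fq B Q) :
    ix A B = (qd A Q : ℤ) - qd B Q := by
  have h1 := qd_add h inf_le_left hA
  have h2 := qd_add h inf_le_right hB
  rw [← qd_inf] at h1
  have h3 : qd B (A ⊓ B) = qd B A := by rw [inf_comm, ← qd_inf]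
  rw [h3] at h2
  unfold ix
  rw [h1, h2]
  push_cast
  ring

theorem ix_add {M N P : Submodule k V} (h1 : Fq M N) (h2 : Fq N M) (h3 : Fq N P) (h4 : Fq P N) :
    ix M P = ix M N + ix N P := by
  have hM : Fq M (M ⊓ N ⊓ P) := lab_fq3 h1 h3
  have hN : Fq N (M ⊓ N ⊓ P) := by
    have e1 : Fq (N ⊓ M) (N ⊓ M ⊓ P) := (fq_inf _ _).1 (fq_mono inf_le_left le_rfl h3)
    have e2 : Fq N (N ⊓ M) := (fq_inf _ _).1 h2
    have e3 := fq_trans inf_le_left inf_le_left e1 e2
    rwa [inf_comm N M] at e3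
  have hP : Fq P (M ⊓ N ⊓ P) := by
    have e1 := lab_fq3 h4 h2
    have e2 : P ⊓ N ⊓ M = M ⊓ N ⊓ P := by
      rw [inf_comm P N, inf_assoc, inf_comm P M, ← inf_assoc, inf_comm N M]
    rwa [e2] at e1
  rw [lab_ix (le_inf (inf_le_left.trans inf_le_left) inf_le_right) hM hP,
    lab_ix inf_le_left hM hN,
    lab_ix (le_inf (inf_le_left.trans inf_le_right) inf_le_right) hN hP]
  ring

/-- the quotients are isomorphic -/
private noncomputable def lab_e {V' : Type} [AddCommGroup V'] [Module k V'] (e : V ≃ₗ[k] V')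
    (M N : Submodule k V) : (M ⧸ N.submoduleOf M) ≃ₗ[k]
    ((M.map (e : V →ₗ[k] V')) ⧸
      (N.map (e : V →ₗ[k] V')).submoduleOf (M.map (e : V →ₗ[k] V'))) := by
  refine Submodule.Quotient.equiv _ _ (e.submoduleMap M) ?_
  ext y
  obtain ⟨x, rfl⟩ := (e.submoduleMap M).surjective y
  constructor
  · rintro ⟨x', hx', hx⟩
    have h1 : x' = x := (e.submoduleMap M).injective hx
    rw [h1] at hx'
    exact ⟨(x : V), hx', rfl⟩
  · intro h
    refine ⟨x, ?_, rfl⟩
    obtain ⟨z, hz, hzx⟩ := h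
    have h1 : z = (x : V) := e.injective hzx
    rw [h1] at hz
    exact hz

theorem fq_map {V' : Type} [AddCommGroup V'] [Module k V'] (e : V ≃ₗ[k] V') (M N : Submodule k V) :
    Fq (M.map (e : V →ₗ[k] V')) (N.map (e : V →ₗ[k] V')) ↔ Fq M N :=
  (Module.Finite.equiv_iff (lab_e e M N)).symm

theorem qd_map {V' : Type} [AddCommGroup V'] [Module k V'] (e : V ≃ₗ[k] V') (M N : Submodule k V) :
    qd (M.map (e : V →ₗ[k] V')) (N.map (e : V →ₗ[k] V')) = qd M N :=
  (lab_e e M N).finrank_eq.symm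

end Pool.Agent.H41.TK
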