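import Pool.Agent.H41.TK.LAA

/-!
# [H41 TK LAC] splitting a relative dimension (pure linear algebra), 40-80 lines

`A ≤ B`, `C` any subspace, `B/A` finite: `dim B/A = dim (B + C)/(A + C) + dim (B ∩ C)/(A ∩ C)`.

PROOF.  Let `D = A ⊔ (B ⊓ C)`, `A ≤ D ≤ B`.  `qd B A = qd B D + qd D A` (`qd_add`).
`qd D A = qd (B ⊓ C) A` (`qd_sup`, `sup_comm`) `= qd (B ⊓ C) (A ⊓ C)` (`qd_inf`: `(B ⊓ C) ⊓ A = A ⊓ C` because `A ≤ B`).
`qd B D = qd B (A ⊔ C)`, because `B ⊓ (A ⊔ C) = A ⊔ (B ⊓ C)` (modular law, `sup_inf_assoc_of_le` or `inf_sup_assoc_of_le`), and `qd B (A ⊔ C) = qd (B ⊔ (A ⊔ C)) (A ⊔ C) = qd (B ⊔ C) (A ⊔ C)` (`qd_sup`).  The same for `Fq` (`fq_mono`, `fq_inf`, `fq_sup`).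
-/

set_option autoImplicit false

namespace Pool.Agent.H41.TK

open Pool.Agent.H54.RV Pool.Agent.H83.TU

variable {k V : Type} [Field k] [AddCommGroup V] [Module k V]

theorem qd_split {A B : Submodule k V} (h : A ≤ B) (C : Submodule k V) (hf : Fq B A) :
    Fq (B ⊔ C) (A ⊔ C) ∧ Fq (B ⊓ C) (A ⊓ C) ∧ qd B A = qd (B ⊔ C) (A ⊔ C) + qd (B ⊓ C) (A ⊓ C) := by
  have hAD : A ≤ A ⊔ B ⊓ C := le_sup_left
  have hDB : A ⊔ B ⊓ C ≤ B := sup_le h inf_le_left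
  have e1 : B ⊓ C ⊓ A = A ⊓ C := by
    rw [inf_assoc, inf_comm C A, ← inf_assoc, inf_eq_right.2 h]
  have e2 : B ⊔ (A ⊔ C) = B ⊔ C := by
    rw [← sup_assoc, sup_eq_left.2 h]
  have e3 : B ⊓ (A ⊔ C) = A ⊔ B ⊓ C := by
    rw [inf_comm B, sup_inf_assoc_of_le C h, inf_comm C]
  have f1 : Fq (B ⊔ C) (A ⊔ C) := by
    rw [← e2, fq_sup]
    exact fq_mono le_rfl le_sup_left hf
  have f2 : Fq (B ⊓ C) (A ⊓ C) := by
    rw [← e1, ← fq_inf]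
    exact fq_mono inf_le_left le_rfl hf
  refine ⟨f1, f2, ?_⟩
  rw [qd_add hAD hDB hf]
  congr 1
  · rw [← e3, ← qd_inf, ← e2, qd_sup]
  · rw [sup_comm, qd_sup, qd_inf, e1]

end Pool.Agent.H41.TK
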