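import Pool.Agent.H41.TK.DG
import Pool.Agent.H20.TK.Def

/-!
# [H41 TK NLC] the number of sections on a curve is linear for large degrees

`φ : L →+ Additive (Cart X)`, e.g. the restriction to the curve `X` of a lattice of divisors of a variety, `A` a set of
elements with ample image: `m ↦ h0 (φ m)` is of the class `NL A` (`H20/TK/Def.lean`).
-/

set_option autoImplicit false

namespace Pool.Agent.H41.TK

open Pool.Agent.H54.RV Pool.Agent.H83.TU Pool.Agent.H20.TK

variable {k K : Type} [Field k] [Field K] [Algebra k K] {X : Mod k K}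

/-- the degree as a homomorphism -/
noncomputable def dgHom [CharZero k] (h : Crv X) : Additive (Cart X) →+ ℤ where
  toFun D := dg (Additive.toMul D)
  map_zero' := dg_one
  map_add' D E := dg_mul h _ _

theorem nl_curve [CharZero k] (h : Crv X) {L : Type} [AddCommGroup L] (φ : L →+ Additive (Cart X)) (A : Set L)
    (hA : ∀ m ∈ A, Ample (Additive.toMul (φ m))) : NL A (fun m => (h0 (Additive.toMul (φ m)) 1 : ℝ)) := by
  refine ⟨{(dgHom h).comp φ}, - 2 * chi X + 1, (dgHom h).comp φ, (chi X : ℤ), ?_, ?_, ?_⟩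
  · intro δ hδ m hm
    rw [Finset.mem_singleton.1 hδ]
    exact dg_ample h _ (hA m hm)
  · intro m hm
    exact (dg_ample h _ (hA m hm)).le
  · intro m hm
    have h1 : - 2 * chi X + 1 ≤ dg (Additive.toMul (φ m)) := hm _ (Finset.mem_singleton_self _)
    have h2 := h0_eq h (Additive.toMul (φ m)) (by omega)
    show (h0 (Additive.toMul (φ m)) 1 : ℝ) = ((dg (Additive.toMul (φ m)) : ℤ) : ℝ) + (chi X : ℤ)
    exact_mod_cast h2

/-- the same for a product of a fixed divisor and the image of a homomorphism -/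
theorem nl_curve_mul [CharZero k] (h : Crv X) {L : Type} [AddCommGroup L] (φ : L →+ Additive (Cart X)) (A : Set L)
    (hA : ∀ m ∈ A, Ample (Additive.toMul (φ m))) (D : Cart X) :
    NL A (fun m => (h0 (D * Additive.toMul (φ m)) 1 : ℝ)) := by
  refine ⟨{(dgHom h).comp φ}, - 2 * chi X + 1 - dg D, (dgHom h).comp φ, (dg D + chi X : ℤ), ?_, ?_, ?_⟩
  · intro δ hδ m hm
    rw [Finset.mem_singleton.1 hδ]
    exact dg_ample h _ (hA m hm)
  · intro m hm
    exact (dg_ample h _ (hA m hm)).le
  · intro m hm
    have h1 : - 2 * chi X + 1 - dg D ≤ dg (Additive.toMul (φ m)) := hm _ (Finset.mem_singleton_self _)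
    have h3 := dg_mul h D (Additive.toMul (φ m))
    have h2 := h0_eq h (D * Additive.toMul (φ m)) (by omega)
    rw [h3] at h2
    show (h0 (D * Additive.toMul (φ m)) 1 : ℝ) = ((dg (Additive.toMul (φ m)) : ℤ) : ℝ) + (dg D + chi X : ℤ)
    have h4 : (h0 (D * Additive.toMul (φ m)) 1 : ℤ) = dg (Additive.toMul (φ m)) + (dg D + chi X) := by omega
    exact_mod_cast h4

end Pool.Agent.H41.TK
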