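import Pool.Agent.H41.TK.D1
import Pool.Agent.H83.TU.PF3

/-!
# [H41 TK PL] every closed point is the centre of a place, 80-140 lines

`x` with `O x ≠ ⊤`.  There is a place `p` of `K` over `k` with `Dom X x p`.

PROOF.  The local ring `O x` is dominated by a valuation ring `R` of `K` (Mathlib `Mathlib/RingTheory/Valuation/LocalSubring.lean`: `LocalSubring.exists_le_valuationSubring`, for the local subring `O x` of `K`: `O x ⊆ R`, and an element of `O x` which is a unit in `R` is a unit in `O x`).  `R ≠ ⊤`: there is `0 ≠ u ∈ O x`, not a unit (`O x ≠ ⊤`: otherwise `O x` is a field, and `K` is the quotient field of `sec U ⊆ O x` by `gen_frac`, so `O x = ⊤`), `u⁻¹ ∉ R`.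
`R` is discrete: `u` is transcendental over `k` (otherwise `u⁻¹ ∈ k[u] ⊆ O x`).  Let `B = BB k u` be the integral closure of `k[u]` in `K` (H54/RV/A4.lean), a Dedekind domain with quotient field `K` (`pf_ded`, H83/TU/PF1.lean, with `K_fg` for the hypothesis `hfg`; it needs `CharZero k`).  `B ⊆ R` because `u ∈ R`, `k ⊆ R` and `R` is integrally closed (see `pf3_int` in PF3.lean).  `P = {b ∈ B : b⁻¹ ∉ R}` (contraction of the maximal ideal) is prime and contains `u`, so it is nonzero: a `HeightOneSpectrum B`.  The valuation ring of `P` (`plP k P`, H54/RV/A2.lean) is `B_P ⊆ R`, and it is maximal among the subrings different from `K` (`place_le` needs a place; for a valuation subring: `a ∈ R`, `a ∉ B_P`: then `a⁻¹` is in the maximal ideal of `B_P`, every element of `K` is `a^n` times an element of `B_P`, `R = K`), so `R = B_P` is the ring of the place `plP k P`.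
`Dom X x p`: for `a ∈ O x`: `a ∈ R`, and if `a ≠ 0`, `a⁻¹ ∈ R` then `a⁻¹ ∈ O x` (domination).
-/

set_option autoImplicit false

namespace Pool.Agent.H41.TK

open Pool.Agent.H54.RV Pool.Agent.H83.TU

variable {k K : Type} [Field k] [Field K] [Algebra k K] {X : Mod k K}

private theorem pl_pow (p : Place k K) (a : K) (ha : a ≠ 0) (n : ℕ) : p.ord (a ^ n) = n * p.ord a := by
  induction n with
  | zero => simp [ord_one]
  | succ n ih =>
    rw [pow_succ, ord_mul p _ _ (pow_ne_zero n ha) ha, ih]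
    push_cast
    ring

/-- the ring of a place is maximal among the proper subrings -/
private theorem pl_max (p : Place k K) (R : ValuationSubring K) (h : ∀ a ∈ p.R, a ∈ R)
    (hR : ∃ c, c ∉ R) : ∀ a ∈ R, a ∈ p.R := by
  intro a ha1
  by_contra ha2
  obtain ⟨c, hc⟩ := hR
  apply hc
  have ha0 : a ≠ 0 := by
    rintro rfl
    exact ha2 (zero_mem _)
  have hord : p.ord a < 0 := by
    by_contra hcon
    push Not at hcon
    exact ha2 ((ord_nonneg p a ha0).1 hcon)
  by_cases hb : c = 0
  · rw [hb]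
    exact zero_mem _
  · rcases le_or_gt 0 (p.ord c) with h1 | h1
    · exact h c ((ord_nonneg p c hb).1 h1)
    · obtain ⟨N, hN⟩ := Int.eq_ofNat_of_zero_le (by omega : 0 ≤ - p.ord c)
      have h2 : a ^ N ≠ 0 := pow_ne_zero N ha0
      have h3 : c * (a ^ N)⁻¹ ∈ p.R := by
        rw [← ord_nonneg p _ (mul_ne_zero hb (inv_ne_zero h2)),
          ord_mul p _ _ hb (inv_ne_zero h2), ord_inv, pl_pow p a ha0]
        have h4 : (N : ℤ) * p.ord a ≤ (N : ℤ) * (-1) :=
          mul_le_mul_of_nonneg_left (by omega) (Int.natCast_nonneg N)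
        omega
      have h5 : c = c * (a ^ N)⁻¹ * a ^ N := by
        rw [mul_assoc, inv_mul_cancel₀ h2, mul_one]
      rw [h5]
      exact mul_mem (h _ h3) (pow_mem ha1 N)

private theorem pl_adj (R : ValuationSubring K) (hk : ∀ c : k, algebraMap k K c ∈ R) (f : K)
    (hf : f ∈ R) (a : K) (ha : a ∈ Algebra.adjoin k {f}) : a ∈ R := by
  induction ha using Algebra.adjoin_induction with
  | mem x hx =>
    rw [Set.mem_singleton_iff] at hx
    rw [hx]
    exact hf
  | algebraMap r => exact hk r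
  | add x y _ _ hx hy => exact R.add_mem _ _ hx hy
  | mul x y _ _ hx hy => exact R.mul_mem _ _ hx hy

private theorem pl_int (R : ValuationSubring K) (hk : ∀ c : k, algebraMap k K c ∈ R) (f : K)
    (hf : f ∈ R) (b : BB k f) : (b : K) ∈ R := by
  have hb : IsIntegral (Algebra.adjoin k {f}) (b : K) := b.2
  obtain ⟨P, hP, hP0⟩ := hb
  let φ : Algebra.adjoin k {f} →+* R :=
    { toFun := fun x => ⟨x.1, pl_adj R hk f hf x.1 x.2⟩
      map_one' := rfl
      map_mul' := fun _ _ => rfl
      map_zero' := rfl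
      map_add' := fun _ _ => rfl }
  have h1 : IsIntegral R (b : K) := by
    refine ⟨P.map φ, hP.map φ, ?_⟩
    rw [Polynomial.eval₂_map]
    exact hP0
  obtain ⟨y, hy⟩ := IsIntegrallyClosed.isIntegral_iff.1 h1
  rw [← hy]
  exact y.2

/-- a valuation ring with a Dedekind subring -/
private theorem pl_place {B : Type} [CommRing B] [IsDedekindDomain B]
    [Algebra k B] [Algebra B K] [IsFractionRing B K] [IsScalarTower k B K]
    (R : ValuationSubring K) (hq : ∀ b : B, algebraMap B K b ∈ R)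
    (hne : ∃ c, c ∉ R) : ∃ p : Place k K, ∀ a, a ∈ p.R ↔ a ∈ R := by
  classical
  let φ : B →+* R := (algebraMap B K).codRestrict R.toSubring hq
  have hφ : ∀ b, ((φ b : R) : K) = algebraMap B K b := fun b => rfl
  let I : Ideal B := (IsLocalRing.maximalIdeal R).comap φ
  have hIp : I.IsPrime := Ideal.comap_isPrime φ _
  have hinv : ∀ b : B, b ∉ I → (algebraMap B K b)⁻¹ ∈ R := by
    intro b hb
    have hu : IsUnit (φ b) := by
      by_contra hnu
      exact hb (by
        show φ b ∈ IsLocalRing.maximalIdeal R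
        rw [IsLocalRing.mem_maximalIdeal]
        exact hnu)
    obtain ⟨c, hc⟩ := hu.exists_right_inv
    have hc' : algebraMap B K b * (c : K) = 1 := by
      have := congrArg (fun z : R => (z : K)) hc
      simpa [hφ] using this
    rw [inv_eq_of_mul_eq_one_right hc']
    exact c.2
  have hI0 : I ≠ ⊥ := by
    intro h0
    obtain ⟨c, hc⟩ := hne
    apply hc
    obtain ⟨x, y, hy, hxy⟩ := IsFractionRing.div_surjective (A := B) c
    have hy0 : y ∉ I := by
      rw [h0, Ideal.mem_bot]
      exact nonZeroDivisors.ne_zero hy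
    rw [← hxy, div_eq_mul_inv]
    exact R.mul_mem _ _ (hq x) (hinv y hy0)
  let P : IsDedekindDomain.HeightOneSpectrum B := ⟨I, hIp, hI0⟩
  have hle : ∀ a ∈ (plP k (κ := K) P).R, a ∈ R := by
    intro a ha
    rw [plP_R, Valuation.mem_valuationSubring_iff] at ha
    obtain ⟨n, d, hnd⟩ := IsDedekindDomain.HeightOneSpectrum.exists_primeCompl_mul_eq_of_integer _ a ha
    have hd : (d : B) ∉ I := d.2
    have hd0 : algebraMap B K d ≠ 0 := by
      rw [ne_eq, FaithfulSMul.algebraMap_eq_zero_iff]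
      intro h
      apply hd
      rw [h]
      exact I.zero_mem
    have ha' : a = algebraMap B K n * (algebraMap B K d)⁻¹ := by
      rw [← hnd, mul_assoc, mul_inv_cancel₀ hd0, mul_one]
    rw [ha']
    exact R.mul_mem _ _ (hq n) (hinv d hd)
  exact ⟨plP k P, fun a => ⟨hle a, pl_max _ R hle hne a⟩⟩

theorem exists_dom [CharZero k] (h : Crv X) (x : X.P) (hx : X.O x ≠ ⊤) : ∃ p : Place k K, Dom X x p := by
  obtain ⟨U, hU, hxU⟩ := h.var.chart x
  -- a non unit
  obtain ⟨u, huO, hu0, hui⟩ : ∃ u ∈ X.O x, u ≠ 0 ∧ u⁻¹ ∉ X.O x := by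
    by_contra hcon
    push Not at hcon
    apply hx
    rw [eq_top_iff]
    intro a _
    obtain ⟨s, hs, hs0, has⟩ := gen_frac h.var h.gen U hU ⟨x, hxU⟩ a
    have h1 : s ∈ X.O x := (mem_sec U _).1 hs x hxU
    have h2 : a * s ∈ X.O x := (mem_sec U _).1 has x hxU
    have h3 : a = a * s * s⁻¹ := by rw [mul_assoc, mul_inv_cancel₀ hs0, mul_one]
    rw [h3]
    exact (X.O x).mul_mem h2 (hcon s h1 hs0)
  have hut : Transcendental k u := by
    intro halg
    apply hui
    exact Subalgebra.inv_mem_of_algebraic (A := X.O x) (x := ⟨u, huO⟩) halg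
  -- the dominating valuation ring
  have hloc : IsLocalRing (X.O x).toSubring := X.loc x
  obtain ⟨R, hR, hRl⟩ := LocalSubring.exists_le_valuationSubring (K := K) ⟨(X.O x).toSubring⟩
  have hRle : ∀ a ∈ X.O x, a ∈ R := fun a ha => hR ha
  have hdom : ∀ a ∈ X.O x, a ≠ 0 → a⁻¹ ∈ R → a⁻¹ ∈ X.O x := by
    intro a ha ha0 hai
    have h1 : IsUnit (Subring.inclusion hR ⟨a, ha⟩) := by
      refine isUnit_iff_exists_inv.mpr ⟨⟨a⁻¹, hai⟩, Subtype.ext (mul_inv_cancel₀ ha0)⟩
    obtain ⟨c, hc⟩ := isUnit_iff_exists_inv.mp (hRl.1 _ h1)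
    have h2 : a * (c : K) = 1 := congrArg Subtype.val hc
    rw [inv_eq_of_mul_eq_one_right h2]
    exact c.2
  have hk : ∀ c : k, algebraMap k K c ∈ R := fun c => hRle _ ((X.O x).algebraMap_mem c)
  have hne : ∃ c, c ∉ R := ⟨u⁻¹, fun hc => hui (hdom u huO hu0 hc)⟩
  obtain ⟨hD, hFr⟩ := pf_ded h.tr (K_fg h.var h.gen) u hut
  obtain ⟨p, hp⟩ := pl_place (k := k) (B := BB k u) R (fun b => pl_int R hk u (hRle u huO) b) hne
  refine ⟨p, fun a ha => ⟨(hp a).2 (hRle a ha), fun ha0 hai => hdom a ha ha0 ((hp _).1 hai)⟩⟩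

end Pool.Agent.H41.TK
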