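import Pool.Agent.H41.TK.PL

/-!
# [H41 TK PT] closed points, 80-130 lines

`pt_inj`: a point `x` with `O x ≠ ⊤` is determined by its local ring: `exists_dom` (PL.lean) gives a place `p` with `Dom X x p`, so `Dom X y p` if `O x = O y`; `exists_cenK` (H83/TU/Cen.lean) says that the centre is unique.

`pt_le`: `x, y ∈ U` affine, `O x ≠ ⊤`, and every `a ∈ sec U` which is not a unit at `x` is not a unit at `y`: `x = y`.  PROOF.  `p_x = {a ∈ sec U : ¬ Un (O x) a}` is a prime ideal of `A = sec U` (preimage of the maximal ideal of `O x`), nonzero: otherwise all nonzero elements of `A` are units at `x`, `K` is the quotient field of `A` (`gen_frac`), `O x = ⊤`.  So `p_x` is maximal (`max_of_ne`), `p_x ≤ p_y ≠ ⊤`, `p_x = p_y`.  By `IsVar.frac` `O x = {a / s : a, s ∈ A, s ∉ p_x}` (`b * s ∈ A`, `s` a unit at `x`), the same at `y`: `O x = O y`; `pt_inj`.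

`pt_closed`: `{x}` is closed if `O x ≠ ⊤`.  PROOF.  Let `y ∈ closure {x}`, so `x ⤳ y` (`specializes_iff_mem_closure`); `U` affine with `y ∈ U`; then `x ∈ U` (`U` is open); `O y ≤ O x` (`IsVar.spec`), so an element which is a unit at `y` is a unit at `x` (`un_mono`): the hypothesis of `pt_le` (for `x`, `y`) holds, `x = y`.

`gen_of_top`: if `O x = ⊤` then `x` is in every nonempty open set: let `g` be a generic point (`h.gen`), `U` affine, `x ∈ U`, `V` open nonempty: `g ∈ V` (`gen_mem`, H83/TU/Cen.lean).  `IsVar.bas` at the point `g` of `U ∩ V` (`g ∈ U`): `a` regular on `U`, `a ≠ 0` with `Un (O y) a → y ∈ V` for `y ∈ U`; `Un (O x) a` because `O x = ⊤` and `a ≠ 0`.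
-/

set_option autoImplicit false

namespace Pool.Agent.H41.TK

open Pool.Agent.H54.RV Pool.Agent.H83.TU

variable {k K : Type} [Field k] [Field K] [Algebra k K] {X : Mod k K}

theorem pt_inj [CharZero k] (h : Crv X) (x y : X.P) (hx : X.O x ≠ ⊤) (hxy : X.O x = X.O y) : x = y := by
  obtain ⟨p, hp⟩ := exists_dom h x hx
  obtain ⟨z, -, hz⟩ := exists_cenK h.var h.gen p
  have h1 : Dom X y p := by
    intro a ha
    rw [← hxy] at ha ⊢
    exact hp a ha
  rw [hz x hp, hz y h1]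

/-- the prime ideal of a point in the ring of an affine set -/
private theorem pt_prime (U : Set X.P) (x : X.P) (hxU : x ∈ U) :
    ∃ q : Ideal (X.sec U), q.IsPrime ∧ ∀ a : X.sec U, a ∈ q ↔ ¬ Un (X.O x) (a : K) := by
  have hle : X.sec U ≤ X.O x := fun a ha => (mem_sec U a).1 ha x hxU
  refine ⟨(IsLocalRing.maximalIdeal (X.O x)).comap (Subalgebra.inclusion hle).toRingHom,
    Ideal.comap_isPrime _ _, fun a => ?_⟩
  rw [Ideal.mem_comap, IsLocalRing.mem_maximalIdeal, mem_nonunits_iff]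
  exact not_congr (un_iff (hle a.2))

private theorem pt_sub (h : Crv X) (U : Set X.P) (hU : X.aff U) (x y : X.P) (hxU : x ∈ U) (hyU : y ∈ U)
    (hxy : ∀ a ∈ X.sec U, Un (X.O x) a → Un (X.O y) a) : X.O x ≤ X.O y := by
  intro b hb
  obtain ⟨s, hs, hu, hbs⟩ := h.var.frac U x hU hxU b hb
  have h1 := hxy s hs hu
  have h2 : b * s ∈ X.O y := (mem_sec U _).1 hbs y hyU
  have h3 : b = b * s * s⁻¹ := by rw [mul_assoc, mul_inv_cancel₀ h1.1, mul_one]
  rw [h3]
  exact (X.O y).mul_mem h2 h1.2.2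

theorem pt_le [CharZero k] (h : Crv X) (U : Set X.P) (hU : X.aff U) (x y : X.P) (hxU : x ∈ U) (hyU : y ∈ U)
    (hx : X.O x ≠ ⊤) (hxy : ∀ a ∈ X.sec U, ¬ Un (X.O x) a → ¬ Un (X.O y) a) : x = y := by
  obtain ⟨qx, hqx, hqx'⟩ := pt_prime U x hxU
  obtain ⟨qy, hqy, hqy'⟩ := pt_prime U y hyU
  have hne : qx ≠ ⊥ := by
    intro h0
    apply hx
    rw [eq_top_iff]
    intro a _
    obtain ⟨s, hs, hs0, has⟩ := gen_frac h.var h.gen U hU ⟨x, hxU⟩ a
    have h1 : Un (X.O x) s := by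
      by_contra hcon
      have h2 : (⟨s, hs⟩ : X.sec U) ∈ qx := (hqx' _).2 hcon
      rw [h0, Ideal.mem_bot] at h2
      exact hs0 (congrArg Subtype.val h2)
    have h2 : a * s ∈ X.O x := (mem_sec U _).1 has x hxU
    have h3 : a = a * s * s⁻¹ := by rw [mul_assoc, mul_inv_cancel₀ hs0, mul_one]
    rw [h3]
    exact (X.O x).mul_mem h2 h1.2.2
  have hmax := max_of_ne h.tr (X.sec U) qx hqx hne
  have hle : qx ≤ qy := fun a ha => (hqy' a).2 (hxy a a.2 ((hqx' a).1 ha))
  have heq : qx = qy := hmax.eq_of_le hqy.ne_top hle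
  have hiff : ∀ a ∈ X.sec U, (Un (X.O x) a ↔ Un (X.O y) a) := by
    intro a ha
    have h1 := hqx' ⟨a, ha⟩
    have h2 := hqy' ⟨a, ha⟩
    rw [heq] at h1
    exact not_iff_not.1 (h1.symm.trans h2)
  exact pt_inj h x y hx (le_antisymm
    (pt_sub h U hU x y hxU hyU fun a ha hu => (hiff a ha).1 hu)
    (pt_sub h U hU y x hyU hxU fun a ha hu => (hiff a ha).2 hu))

theorem pt_closed [CharZero k] (h : Crv X) (x : X.P) (hx : X.O x ≠ ⊤) : IsClosed ({x} : Set X.P) := by
  rw [← closure_subset_iff_isClosed]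
  intro y hy
  rw [Set.mem_singleton_iff]
  have hsp : x ⤳ y := specializes_iff_mem_closure.2 hy
  obtain ⟨U, hU, hyU⟩ := h.var.chart y
  have hxU : x ∈ U := hsp.mem_open (h.var.op U hU) hyU
  have hle := h.var.spec x y hsp
  exact (pt_le h U hU x y hxU hyU hx fun a _ hn hu => hn (un_mono hle hu)).symm

theorem gen_of_top (h : Crv X) (x : X.P) (hx : X.O x = ⊤) (V : Set X.P) (hV : IsOpen V) (hne : V.Nonempty) :
    x ∈ V := by
  obtain ⟨g, hg⟩ := h.gen
  obtain ⟨U, hU, hxU⟩ := h.var.chart x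
  have hgU := gen_mem hg U (h.var.op U hU) ⟨x, hxU⟩
  have hgV := gen_mem hg V hV hne
  obtain ⟨a, ha, hau, hav⟩ := h.var.bas U V g hU hV hgU hgV
  refine hav x hxU ⟨hau.1, ha x hxU, ?_⟩
  rw [hx]
  exact Algebra.mem_top

end Pool.Agent.H41.TK
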