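import Pool.Agent.H41.TK.Def

/-!
# [H41 TK QM] rings of transcendence degree one (pure algebra), 80-150 lines

`trdeg K = 1`, `A ⊆ K` a subalgebra.

`alg_mod`: `0 ≠ c ∈ A`, `z ∈ A`: some nonzero polynomial `P` over `k` has `P(z) ∈ c A`.
PROOF.  If `c` is algebraic over `k`: `c⁻¹ ∈ k[c] ⊆ A`; take `P = X`, `b = z * c⁻¹` (or if `z` is algebraic: its minimal polynomial, `b = 0`).  In general `(z, c)` is algebraically dependent over `k` (`trdeg K = 1`, for example `AlgebraicIndependent.lift_cardinalMk_le_trdeg`/`AlgebraicIndependent.cardinalMk_le_trdeg` for a family indexed by `Fin 2`): `Q(z, c) = 0` with `0 ≠ Q ∈ k[Z][C]` (`Polynomial (Polynomial k)`; use the dependence in the form: `c` is algebraic over `k(z)` if `z` is transcendental, clear denominators: `IsAlgebraic (Algebra.adjoin k {z}) c`, or `MvPolynomial` and `MvPolynomial.finSuccEquiv`).  Divide `Q` by the largest power of `C` (`c ≠ 0`): `Q = ∑_j P_j(Z) C^j` with `P_0 ≠ 0`, `Q(z, c) = 0`.  So `P_0(z) = - c * ∑_{j ≥ 1} P_j(z) c^(j-1)`.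

`max_of_ne`: a nonzero prime ideal `q` of `A` is maximal.  PROOF.  Take `0 ≠ c ∈ q`.  By `alg_mod` every element of `A / q` is algebraic over `k` (`P(z) ∈ c A ⊆ q`).  `A / q` is a domain, integral over the field `k`, so a field (`isField_of_isIntegral_of_isField'`, `Ideal.Quotient.maximal_of_isField`).

`fin_quot`: `A` finitely generated, `0 ≠ c ∈ A`: `A / (c)` is finite over `k`.  PROOF.  It is a finitely generated algebra (`Algebra.FiniteType.of_surjective`, `Subalgebra.fg_iff_finiteType`), integral over `k` by `alg_mod`: `Algebra.IsIntegral.finite` (or `Algebra.finite_iff_isIntegral_and_finiteType`).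
-/

set_option autoImplicit false

namespace Pool.Agent.H41.TK

open Pool.Agent.H54.RV Pool.Agent.H83.TU

variable {k K : Type} [Field k] [Field K] [Algebra k K]

theorem alg_mod (h : Algebra.trdeg k K = 1) (A : Subalgebra k K) (c : K) (hc : c ∈ A) (hc0 : c ≠ 0) (z : K)
    (hz : z ∈ A) : ∃ P : Polynomial k, P ≠ 0 ∧ ∃ b ∈ A, Polynomial.aeval z P = c * b := by
  by_cases hzt : Transcendental k z
  swap
  · unfold Transcendental at hzt
    rw [not_not] at hzt
    obtain ⟨P, hP, hPz⟩ := hzt
    exact ⟨P, hP, 0, A.zero_mem, by rw [hPz, mul_zero]⟩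
  have hind : AlgebraicIndependent k (fun _ : Unit => z) := algebraicIndependent_unique_type_iff.2 hzt
  have halg : IsAlgebraic (Algebra.adjoin k (Set.range (fun _ : Unit => z))) c := by
    by_contra hcon
    have h1 := (hind.option_iff_transcendental c).2 hcon
    have h2 := h1.cardinalMk_le_trdeg
    rw [h] at h2
    simp at h2
  obtain ⟨Q, hQ0, hQ⟩ := halg
  obtain ⟨R, hR, hRn⟩ := Polynomial.exists_eq_pow_rootMultiplicity_mul_and_not_dvd Q hQ0 0
  rw [Polynomial.C_0, sub_zero] at hR hRn
  rw [hR, map_mul, map_pow, Polynomial.aeval_X, mul_eq_zero] at hQ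
  have hR0 : Polynomial.aeval c R = 0 := hQ.resolve_left (pow_ne_zero _ hc0)
  rw [Polynomial.X_dvd_iff] at hRn
  have hle : Algebra.adjoin k (Set.range (fun _ : Unit => z)) ≤ A := by
    rw [Algebra.adjoin_le_iff]
    rintro _ ⟨_, rfl⟩
    exact hz
  have hmem : (R.coeff 0 : K) ∈ Algebra.adjoin k {z} := by
    have h6 : ∀ w ∈ Algebra.adjoin k (Set.range (fun _ : Unit => z)), w ∈ Algebra.adjoin k {z} := by
      rw [Set.range_const]
      exact fun _ hw => hw
    exact h6 _ (R.coeff 0).2
  rw [Algebra.adjoin_singleton_eq_range_aeval] at hmem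
  obtain ⟨P, hP⟩ := hmem
  refine ⟨P, ?_, -(Polynomial.aeval c R.divX), A.neg_mem ?_, ?_⟩
  · rintro rfl
    apply hRn
    apply Subtype.ext
    rw [← hP]
    simp
  · rw [Polynomial.aeval_eq_sum_range]
    refine A.sum_mem fun i _ => ?_
    rw [Algebra.smul_def]
    exact A.mul_mem (hle (R.divX.coeff i).2) (A.pow_mem hc _)
  · have h3 := Polynomial.divX_mul_X_add R
    have h4 : Polynomial.aeval c R = Polynomial.aeval c R.divX * c + (R.coeff 0 : K) := by
      conv_lhs => rw [← h3]
      rw [map_add, map_mul, Polynomial.aeval_X, Polynomial.aeval_C]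
      rfl
    rw [hR0] at h4
    have h5 : (Polynomial.aeval z) P = (R.coeff 0 : K) := hP
    rw [h5]
    linear_combination -h4

theorem max_of_ne (h : Algebra.trdeg k K = 1) (A : Subalgebra k K) (q : Ideal A) (hq : q.IsPrime)
    (h0 : q ≠ ⊥) : q.IsMaximal := by
  obtain ⟨c, hcq, hc0⟩ := Submodule.exists_mem_ne_zero_of_ne_bot h0
  have : Algebra.IsIntegral k (A ⧸ q) := by
    constructor
    intro y
    obtain ⟨z, rfl⟩ := Ideal.Quotient.mk_surjective y
    obtain ⟨P, hP, b, hb, hPb⟩ := alg_mod h A c c.2 (fun h => hc0 (Subtype.ext h)) z z.2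
    rw [← isAlgebraic_iff_isIntegral]
    refine ⟨P, hP, ?_⟩
    have h1 : Polynomial.aeval z P = c * ⟨b, hb⟩ := by
      apply Subtype.ext
      exact ((Polynomial.aeval_algHom_apply A.val z P).symm).trans hPb
    have h2 : Polynomial.aeval (Ideal.Quotient.mk q z) P = Ideal.Quotient.mk q (Polynomial.aeval z P) :=
      Polynomial.aeval_algHom_apply (Ideal.Quotient.mkₐ k q) z P
    rw [h2, h1, Ideal.Quotient.eq_zero_iff_mem]
    exact q.mul_mem_right _ hcq
  apply Ideal.Quotient.maximal_of_isField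
  exact isField_of_isIntegral_of_isField' (Field.toIsField k)

theorem fin_quot (h : Algebra.trdeg k K = 1) (A : Subalgebra k K) (hA : A.FG) (c : A) (hc : c ≠ 0) :
    Module.Finite k (A ⧸ Ideal.span {c}) := by
  have : Algebra.FiniteType k A := (Subalgebra.fg_iff_finiteType A).1 hA
  have : Algebra.FiniteType k (A ⧸ Ideal.span {c}) :=
    Algebra.FiniteType.of_surjective (Ideal.Quotient.mkₐ k (Ideal.span {c})) Ideal.Quotient.mk_surjective
  have : Algebra.IsIntegral k (A ⧸ Ideal.span {c}) := by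
    constructor
    intro y
    obtain ⟨z, rfl⟩ := Ideal.Quotient.mk_surjective y
    obtain ⟨P, hP, b, hb, hPb⟩ := alg_mod h A c c.2 (fun h => hc (Subtype.ext h)) z z.2
    rw [← isAlgebraic_iff_isIntegral]
    refine ⟨P, hP, ?_⟩
    have h1 : Polynomial.aeval z P = c * ⟨b, hb⟩ := by
      apply Subtype.ext
      exact ((Polynomial.aeval_algHom_apply A.val z P).symm).trans hPb
    have h2 : Polynomial.aeval (Ideal.Quotient.mk (Ideal.span {c}) z) P = Ideal.Quotient.mk (Ideal.span {c}) (Polynomial.aeval z P) :=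
      Polynomial.aeval_algHom_apply (Ideal.Quotient.mkₐ k (Ideal.span {c})) z P
    rw [h2, h1, Ideal.Quotient.eq_zero_iff_mem]
    exact Ideal.mul_mem_right _ _ (Ideal.mem_span_singleton_self c)
  exact Algebra.IsIntegral.finite

end Pool.Agent.H41.TK
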