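import Pool.Agent.H41.TK.LAC
import Pool.Agent.H41.TK.MU
import Pool.Agent.H41.TK.SC
import Pool.Agent.H41.TK.H1

/-!
# [H41 TK RR] the theorem of Riemann

`h0 D - hh D = dg D + chi X` for every Cartier divisor of an integral projective curve.
-/

set_option autoImplicit false

namespace Pool.Agent.H41.TK

open Pool.Agent.H54.RV Pool.Agent.H83.TU

section la

variable {k V : Type} [Field k] [AddCommGroup V] [Module k V]

theorem fin_qd {M N : Submodule k V} (h : N ≤ M) (hM : Module.Finite k M) :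
    (qd M N : ℤ) = (Module.finrank k M : ℤ) - Module.finrank k N := by
  have h1 := Submodule.finrank_quotient_add_finrank (N.submoduleOf M)
  have h2 : Module.finrank k (N.submoduleOf M) = Module.finrank k N :=
    (Submodule.submoduleOfEquivOfLe h).finrank_eq
  rw [h2] at h1
  unfold qd
  omega

/-- comparison of two subspaces `A ≤ B` of `W`, modulo `C` -/
theorem rrq {W A B C : Submodule k V} (hAB : A ≤ B) (hBW : B ≤ W) (hCW : C ≤ W) (hf : Fq B A)
    (hA : Fq W (A ⊔ C)) : (qd W (A ⊔ C) : ℤ) = qd W (B ⊔ C) + qd B A - qd (B ⊓ C) (A ⊓ C) := by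
  obtain ⟨-, -, h3⟩ := qd_split hAB C hf
  have h4 := qd_add (sup_le_sup_right hAB C) (sup_le hBW hCW) hA
  rw [h3, h4]
  push_cast
  ring

theorem fq_low {W A B C : Submodule k V} (hBW : B ≤ W) (hCW : C ≤ W) (hB : Fq W (B ⊔ C))
    (hf : Fq B A) : Fq W (B ⊓ A ⊔ C) := by
  have h1 : Fq B (B ⊓ A) := (fq_inf B A).1 hf
  obtain ⟨h2, -, -⟩ := qd_split (inf_le_left : B ⊓ A ≤ B) C h1
  exact fq_trans (sup_le_sup_right inf_le_left C) (sup_le hBW hCW) h2 hB

end la

variable {k K : Type} [Field k] [Field K] [Algebra k K] {X : Mod k K}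

theorem hh_fin [CharZero k] (h : Crv X) (D : Cart X) : Fq (Adl X) (AdD D ⊔ Kd X) := by
  have h1 := fq_low (ad_le h 1) (kd_le h) (h1_fin h) (ad_fin h 1 D)
  exact fq_mono le_rfl (sup_le_sup_right inf_le_right _) h1

/-- the sections as constant adeles -/
noncomputable def cst (h : Crv X) (D : Cart X) : secL D 1 ≃ₗ[k] (AdD D ⊓ Kd X : Submodule k (X.P → K)) where
  toFun s := ⟨fun _ => s.1, fun x => by
    have := s.2 x
    rwa [pow_one] at this, s.1, fun _ => rfl⟩
  invFun a := ⟨a.1 (Classical.choice h.var.ne), fun x => by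
    obtain ⟨h1, f, hf⟩ := a.2
    have h2 := h1 x
    rw [pow_one, hf (Classical.choice h.var.ne), ← hf x]
    exact h2⟩
  map_add' s t := rfl
  map_smul' c s := rfl
  left_inv s := rfl
  right_inv a := by
    obtain ⟨a, h1, f, hf⟩ := a
    apply Subtype.ext
    funext x
    show a _ = a x
    rw [hf, hf]

theorem rr [CharZero k] (h : Crv X) (D : Cart X) : (h0 D 1 : ℤ) - hh D = dg D + chi X := by
  have hA : AdD D ⊓ AdD 1 ≤ AdD D := inf_le_left
  have hA1 : AdD D ⊓ AdD 1 ≤ AdD (1 : Cart X) := inf_le_right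
  have hfA : Fq (AdD D) (AdD D ⊓ AdD 1) := (fq_inf _ _).1 (ad_fin h D 1)
  have hfA1 : Fq (AdD (1 : Cart X)) (AdD D ⊓ AdD 1) := by
    rw [inf_comm]
    exact (fq_inf _ _).1 (ad_fin h 1 D)
  have hW := fq_low (ad_le h D) (kd_le h) (hh_fin h D) (ad_fin h D 1)
  have e1 := rrq hA (ad_le h D) (kd_le h) hfA hW
  have e2 := rrq hA1 (ad_le h 1) (kd_le h) hfA1 hW
  have f1 : Module.Finite k (AdD D ⊓ Kd X : Submodule k (X.P → K)) :=
    haveI := sec_fin h D
    Module.Finite.equiv (cst h D)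
  have f2 : Module.Finite k (AdD (1 : Cart X) ⊓ Kd X : Submodule k (X.P → K)) :=
    haveI := sec_fin h 1
    Module.Finite.equiv (cst h 1)
  have e3 := fin_qd (inf_le_inf_right (Kd X) hA) f1
  have e4 := fin_qd (inf_le_inf_right (Kd X) hA1) f2
  have g1 : Module.finrank k (AdD D ⊓ Kd X : Submodule k (X.P → K)) = h0 D 1 := (cst h D).finrank_eq.symm
  have g2 : Module.finrank k (AdD (1 : Cart X) ⊓ Kd X : Submodule k (X.P → K)) = h0 (1 : Cart X) 1 :=
    (cst h 1).finrank_eq.symm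
  have i1 : qd (AdD D) (AdD 1) = qd (AdD D) (AdD D ⊓ AdD 1) := qd_inf _ _
  have i2 : qd (AdD (1 : Cart X)) (AdD D) = qd (AdD (1 : Cart X)) (AdD D ⊓ AdD 1) := by
    rw [inf_comm]
    exact qd_inf _ _
  unfold dg ix chi hh
  rw [i1, i2]
  rw [g1] at e3
  rw [g2] at e4
  linarith

/-- comparison of two divisors -/
theorem hh_le [CharZero k] (h : Crv X) (D E : Cart X) (hle : AdD E ≤ AdD D) :
    (hh E : ℤ) = hh D + qd (AdD D) (AdD E) - (h0 D 1 - h0 E 1) := by
  have e1 := rrq hle (ad_le h D) (kd_le h) (ad_fin h D E) (hh_fin h E)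
  rw [qd_sec h D E hle] at e1
  exact e1

end Pool.Agent.H41.TK
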