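import Pool.Agent.H41.TK.PT

/-!
# [H41 TK SEP] separation of closed points, 70-120 lines

`T` a finite set of closed points (`O x ≠ ⊤`), `y ∈ T`: there is `f ∈ K`, regular at all points of `T`, a unit at `y`, and not a unit at the other points of `T`.

PROOF.  Let `A` be an ample divisor (`h.amp`), `n ≥ 1`, `s ∈ K` with `Sec A n s`, `y ∈ nz A n s =: U` affine (`Ample`).  The set `V` = complement of `T \ {y}` is open (`pt_closed`, finite unions) and contains `y`.  `IsVar.bas`: `a` regular on `U`, `Un (O y) a`, and `z ∈ U`, `Un (O z) a` implies `z ∈ V`.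
`ext_sec` (H54/RV/B9.lean) with `L = A`, `M = 1`, `t = a`: there is `N` with `s ^ j * a * A.eq z ^ (n j) ∈ O z` for all `z` and `j ≥ N`.  Put `j = N + 1` and `σ = s ^ j * a`: `σ * A.eq z ^ (n j) ∈ O z` for all `z`; it is a unit at `y`; it is not a unit at the points `z ∈ T`, `z ≠ y`: if `z ∈ U` because `a` is not a unit at `z` (`z ∉ V`); if `z ∉ U` because `s * A.eq z ^ n ∈ O z` is not a unit and `σ * A.eq z ^ (n j) = (s * A.eq z ^ n) * (s ^ N * a * A.eq z ^ (n N))`, both factors in `O z`.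
`un_all` (H83/TU/UB.lean, `UN X`, for the divisor `A ^ (n j)`, which is ample by `ample_pow`, and `M = 1`): for some `m ≥ 1` there is a section `τ` of `(A ^ (n j)) ^ m` which is a unit at all points of `T`.  `f = σ ^ m / τ`: at `z ∈ T` it is `(σ A.eq z ^ (n j)) ^ m / (τ A.eq z ^ (n j m))`: regular, a unit at `y`, not a unit at the other points (`un_pow_iff`, `m ≥ 1`).
-/

set_option autoImplicit false

namespace Pool.Agent.H41.TK

open Pool.Agent.H54.RV Pool.Agent.H83.TU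

variable {k K : Type} [Field k] [Field K] [Algebra k K] {X : Mod k K}

open Classical in
theorem sep [CharZero k] (h : Crv X) (T : Finset X.P) (hT : ∀ x ∈ T, X.O x ≠ ⊤) (y : X.P) (hy : y ∈ T) :
    ∃ f : K, (∀ x ∈ T, f ∈ X.O x) ∧ Un (X.O y) f ∧ ∀ x ∈ T, x ≠ y → ¬ Un (X.O x) f := by
  obtain ⟨A, hA⟩ := h.amp
  obtain ⟨n, hn, s, hs, hyU, hU⟩ := hA y
  obtain ⟨V, hV⟩ : ∃ V : Set X.P, V = (⋃ x ∈ T.erase y, {x})ᶜ := ⟨_, rfl⟩
  have hVo : IsOpen V := by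
    rw [hV, isOpen_compl_iff]
    refine isClosed_biUnion_finset fun x hx => pt_closed h x (hT x (Finset.mem_of_mem_erase hx))
  have hVm : ∀ z, z ∈ V ↔ z ∉ T.erase y := by
    intro z
    rw [hV, Set.mem_compl_iff, Set.mem_iUnion₂]
    constructor
    · intro h1 h2
      exact h1 ⟨z, h2, rfl⟩
    · rintro h1 ⟨w, hw, hzw⟩
      rw [Set.mem_singleton_iff] at hzw
      rw [hzw] at h1
      exact h1 hw
  have hyV : y ∈ V := (hVm y).2 (Finset.notMem_erase y T)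
  obtain ⟨a, haU, hay, haV⟩ := h.var.bas (nz A n s) V y hU hVo hyU hyV
  obtain ⟨N, hN⟩ := ext_sec h.var A 1 n s a hs (fun z hz => by
    rw [one_eq, mul_one]
    exact haU z hz)
  have hN' : ∀ j ≥ N, ∀ z, s ^ j * a * (A.eq z ^ n) ^ j ∈ X.O z := by
    intro j hj z
    have h1 := hN j hj z
    rwa [one_eq, mul_one] at h1
  obtain ⟨j, hj⟩ : ∃ j : ℕ, j = N + 1 := ⟨_, rfl⟩
  obtain ⟨σ, hσ⟩ : ∃ σ : K, σ = s ^ j * a := ⟨_, rfl⟩
  have hσz : ∀ z, σ * (A.eq z ^ n) ^ j ∈ X.O z := by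
    intro z
    rw [hσ]
    exact hN' j (by omega) z
  have hnj : 1 ≤ n * j := Nat.one_le_iff_ne_zero.2 (Nat.mul_ne_zero (by omega) (by omega))
  obtain ⟨m₀, hm₀⟩ := un_all h.var (A ^ (n * j)) 1 T (ample_pow A (n * j) hnj hA)
  obtain ⟨τ, _, hτu⟩ := hm₀ (m₀ + 1) (by omega)
  have hτ : ∀ z ∈ T, Un (X.O z) (τ * ((A.eq z ^ n) ^ j) ^ (m₀ + 1)) := by
    intro z hz
    have h1 : Un (X.O z) (τ * ((A ^ (n * j)) ^ (m₀ + 1) * 1 : Cart X).eq z ^ 1) := hτu z hz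
    rw [mul_one, pow_one, pow_eq, pow_eq, pow_mul] at h1
    exact h1
  have hA0 : ∀ z, (A.eq z ^ n) ^ j ≠ 0 := fun z => pow_ne_zero _ (pow_ne_zero _ (A.ne z))
  have hf : ∀ z ∈ T, σ ^ (m₀ + 1) / τ = (σ * (A.eq z ^ n) ^ j) ^ (m₀ + 1) /
      (τ * ((A.eq z ^ n) ^ j) ^ (m₀ + 1)) := by
    intro z _
    rw [mul_pow, mul_div_mul_right _ _ (pow_ne_zero _ (hA0 z))]
  have hmem : ∀ z ∈ T, σ ^ (m₀ + 1) / τ ∈ X.O z := by
    intro z hz
    rw [hf z hz, div_eq_mul_inv]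
    exact (X.O z).mul_mem ((X.O z).pow_mem (hσz z) _) (hτ z hz).2.2
  have hun : ∀ z ∈ T, (Un (X.O z) (σ ^ (m₀ + 1) / τ) ↔ Un (X.O z) (σ * (A.eq z ^ n) ^ j)) := by
    intro z hz
    rw [hf z hz, div_eq_mul_inv, un_mul_un (un_inv (hτ z hz)), un_pow_iff (hσz z) (by omega)]
  refine ⟨σ ^ (m₀ + 1) / τ, hmem, (hun y hy).2 ?_, fun z hz hzy hcon => ?_⟩
  · have h1 : σ * (A.eq y ^ n) ^ j = (s * A.eq y ^ n) ^ j * a := by
      rw [hσ, mul_pow]
      ring
    rw [h1]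
    exact un_mul (un_pow hyU j) hay
  · have h1 := (hun z hz).1 hcon
    by_cases hzU : z ∈ nz A n s
    · have h2 : σ * (A.eq z ^ n) ^ j = (s * A.eq z ^ n) ^ j * a := by
        rw [hσ, mul_pow]
        ring
      rw [h2] at h1
      have h3 := ((un_mul_iff ((X.O z).pow_mem (hs z) j) (haU z hzU)).1 h1).2
      exact (hVm z).1 (haV z hzU h3) (Finset.mem_erase.2 ⟨hzy, hz⟩)
    · have h2 : σ * (A.eq z ^ n) ^ j = (s * A.eq z ^ n) * (s ^ N * a * (A.eq z ^ n) ^ N) := by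
        rw [hσ, hj, pow_succ, pow_succ]
        ring
      rw [h2] at h1
      exact hzU ((un_mul_iff (hs z) (hN' N le_rfl z)).1 h1).1

end Pool.Agent.H41.TK
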