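import Pool.Agent.H41.TK.RR

/-!
# [H41 TK SH] the pairing of sections and functionals: vanishing of `H¹` for `dg D > - 2 chi`

A functional `w` on the adeles which vanishes on `AdD D` and on the constants, and a section `f` of `D - E`, give the
functional `w (f .)` which vanishes on `AdD E` and on the constants.  So `h0 (D - E) ≤ hh E` if `hh D ≠ 0`.
-/

set_option autoImplicit false

namespace Pool.Agent.H41.TK

open Pool.Agent.H54.RV Pool.Agent.H83.TU

variable {k K : Type} [Field k] [Field K] [Algebra k K] {X : Mod k K}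

/-- multiplication by an element of the field -/
def mulA (f : K) : (X.P → K) →ₗ[k] (X.P → K) where
  toFun a x := f * a x
  map_add' a b := by
    funext x
    show f * (a x + b x) = f * a x + f * b x
    ring
  map_smul' c a := by
    funext x
    show f * (c • a x) = c • (f * a x)
    rw [mul_smul_comm]

theorem mulA_apply (f : K) (a : X.P → K) (x : X.P) : mulA (k := k) f a x = f * a x := rfl

theorem mulA_adl [CharZero k] (h : Crv X) (f : K) (a : X.P → K) (ha : a ∈ Adl X) : mulA f a ∈ Adl X := by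
  by_cases hf : f = 0
  · subst hf
    have h0 : mulA (0 : K) a = 0 := by
      funext x
      show (0 : K) * a x = 0
      rw [zero_mul]
    rw [h0]
    exact (Adl X).zero_mem
  · refine ((fin_un h f hf).union ha).subset fun x hx => ?_
    by_contra hcon
    have h1 : Un (X.O x) f := by
      by_contra h2
      exact hcon (Or.inl h2)
    have h2 : a x ∈ X.O x := by
      by_contra h3
      exact hcon (Or.inr h3)
    exact hx ((X.O x).mul_mem h1.2.1 h2)

theorem mulA_kd (f : K) (a : X.P → K) (ha : a ∈ Kd X) : mulA f a ∈ Kd X := by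
  obtain ⟨g, hg⟩ := ha
  exact ⟨f * g, fun x => by rw [mulA_apply, hg]⟩

theorem mulA_ad (D E : Cart X) (f : K) (hf : f ∈ secL (D * E⁻¹) 1) (a : X.P → K) (ha : a ∈ AdD E) :
    mulA f a ∈ AdD D := by
  intro x
  have h1 := hf x
  have h2 := ha x
  rw [pow_one, mul_eq, inv_eq] at h1
  have h3 := (X.O x).mul_mem h1 h2
  have h4 : f * (D.eq x * (E.eq x)⁻¹) * (a x * E.eq x) = f * a x * D.eq x := by
    have := E.ne x
    field_simp
  rw [h4] at h3
  exact h3

/-- the pairing: `h0 (D - E) ≤ hh E` if `H¹` of `D` is not zero -/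
theorem h0_le_hh [CharZero k] (h : Crv X) (D E : Cart X) (hD : hh D ≠ 0) : h0 (D * E⁻¹) 1 ≤ hh E := by
  classical
  set QD := Adl X ⧸ (AdD D ⊔ Kd X).submoduleOf (Adl X) with hQD
  set QE := Adl X ⧸ (AdD E ⊔ Kd X).submoduleOf (Adl X) with hQE
  haveI fD : Module.Finite k QD := hh_fin h D
  haveI fE : Module.Finite k QE := hh_fin h E
  have hD' : Module.finrank k QD ≠ 0 := hD
  haveI : Nontrivial QD := by
    by_contra hn
    rw [not_nontrivial_iff_subsingleton] at hn
    exact hD' (Module.finrank_zero_of_subsingleton)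
  obtain ⟨q, hq⟩ := exists_ne (0 : QD)
  obtain ⟨w, hw⟩ : ∃ w : Module.Dual k QD, w q ≠ 0 := by
    by_contra hcon
    push Not at hcon
    exact hq ((Module.forall_dual_apply_eq_zero_iff k q).1 hcon)
  -- multiplication on the adeles
  let mA (f : K) : Adl X →ₗ[k] Adl X := (mulA (X := X) f).restrict (fun a ha => mulA_adl h f a ha)
  let W (f : K) : Adl X →ₗ[k] k := w ∘ₗ ((AdD D ⊔ Kd X).submoduleOf (Adl X)).mkQ ∘ₗ mA f
  have hW : ∀ f ∈ secL (D * E⁻¹) 1, (AdD E ⊔ Kd X).submoduleOf (Adl X) ≤ LinearMap.ker (W f) := by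
    intro f hf a ha
    rw [LinearMap.mem_ker]
    show w (Submodule.Quotient.mk (mA f a)) = 0
    have h1 : (mA f a) ∈ (AdD D ⊔ Kd X).submoduleOf (Adl X) := by
      show mulA f a.1 ∈ AdD D ⊔ Kd X
      obtain ⟨b, hb, c, hc, hbc⟩ := Submodule.mem_sup.1 (show a.1 ∈ AdD E ⊔ Kd X from ha)
      rw [← hbc, map_add]
      exact Submodule.add_mem_sup (mulA_ad D E f hf b hb) (mulA_kd f c hc)
    rw [(Submodule.Quotient.mk_eq_zero _).2 h1, map_zero]
  let φ : secL (D * E⁻¹) 1 →ₗ[k] Module.Dual k QE :=
    { toFun := fun f => ((AdD E ⊔ Kd X).submoduleOf (Adl X)).liftQ (W f.1) (hW f.1 f.2)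
      map_add' := by
        intro f g
        apply Submodule.linearMap_qext
        apply LinearMap.ext
        intro a
        show w (Submodule.Quotient.mk (mA (f.1 + g.1) a)) =
          w (Submodule.Quotient.mk (mA f.1 a)) + w (Submodule.Quotient.mk (mA g.1 a))
        rw [← map_add, ← Submodule.Quotient.mk_add]
        congr 2
        apply Subtype.ext
        funext x
        show (f.1 + g.1) * a.1 x = f.1 * a.1 x + g.1 * a.1 x
        ring
      map_smul' := by
        intro c f
        apply Submodule.linearMap_qext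
        apply LinearMap.ext
        intro a
        show w (Submodule.Quotient.mk (mA (c • f.1) a)) = c • w (Submodule.Quotient.mk (mA f.1 a))
        rw [← map_smul, ← Submodule.Quotient.mk_smul]
        congr 2
        apply Subtype.ext
        funext x
        show (c • f.1) * a.1 x = c • (f.1 * a.1 x)
        rw [smul_mul_assoc] }
  have hφ : Function.Injective φ := by
    rw [injective_iff_map_eq_zero]
    intro f hf
    by_contra hne
    have hf0 : f.1 ≠ 0 := fun h0 => hne (Subtype.ext h0)
    obtain ⟨a, ha⟩ := Submodule.Quotient.mk_surjective _ q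
    -- `a = f * b`
    have hb : mulA f.1⁻¹ a.1 ∈ Adl X := mulA_adl h _ _ a.2
    have h1 : φ f (Submodule.Quotient.mk ⟨mulA f.1⁻¹ a.1, hb⟩) = 0 := by
      rw [hf]
      rfl
    have h2 : φ f (Submodule.Quotient.mk ⟨mulA f.1⁻¹ a.1, hb⟩) = w q := by
      show w (Submodule.Quotient.mk (mA f.1 ⟨mulA f.1⁻¹ a.1, hb⟩)) = w q
      rw [← ha]
      congr 2
      apply Subtype.ext
      funext x
      show f.1 * (f.1⁻¹ * a.1 x) = a.1 x
      rw [mul_inv_cancel_left₀ hf0]
    exact hw (h2.symm.trans h1)
  have h1 := LinearMap.finrank_le_finrank_of_injective hφ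
  rw [Subspace.dual_finrank_eq] at h1
  exact h1

theorem h0_le_hh_one [CharZero k] (h : Crv X) (D : Cart X) (hD : hh D ≠ 0) : h0 D 1 ≤ hh (1 : Cart X) := by
  have h1 := h0_le_hh h D 1 hD
  rwa [inv_one, mul_one] at h1

theorem h0_one_le_hh [CharZero k] (h : Crv X) (D : Cart X) (hD : hh D ≠ 0) : h0 (1 : Cart X) 1 ≤ hh D := by
  have h1 := h0_le_hh h D D hD
  rwa [mul_inv_cancel] at h1

/-- the vanishing of `H¹` in the sharp form -/
theorem sharp [CharZero k] (h : Crv X) (D : Cart X) (hD : - 2 * chi X < dg D) : hh D = 0 := by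
  by_contra hne
  have h1 := h0_le_hh_one h D hne
  have h2 := h0_one_le_hh h D hne
  have h3 := rr h D
  unfold chi at *
  omega

/-- `H¹` is bounded if the degree is bounded from below -/
theorem hh_bd [CharZero k] (h : Crv X) (D : Cart X) (hD : hh D ≠ 0) :
    (hh D : ℤ) ≤ hh (1 : Cart X) - chi X - dg D := by
  have h1 := h0_le_hh_one h D hD
  have h3 := rr h D
  omega

end Pool.Agent.H41.TK
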