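import Pool.Agent.H41.TK.SEP

/-!
# [H41 TK WK] weak approximation, 60-110 lines

`T` a finite set of closed points, `a x ∈ K`, `e x ≠ 0`: there is `f ∈ K` with `(a x - f) e x ∈ O x` for `x ∈ T`.

PROOF.  `f_y`, `y ∈ T`, from `sep` (SEP.lean): regular on `T`, a unit at `y`, a nonunit at the others.  For `N ≥ 1` let `S = ∑_{y ∈ T} f_y ^ N`: at `x ∈ T` it is a unit: `f_x ^ N` is a unit, the other terms are nonunits of the local ring `O x` (`un_add` or `IsLocalRing`).  Put `f = ∑_{y ∈ T} a y * f_y ^ N / S`.  At `x ∈ T`: `a x = a x * ∑_y f_y ^ N / S`, so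
`(a x - f) e x = ∑_{y ≠ x} (a x - a y) e x * f_y ^ N / S`, and `f_y ^ N * ((a x - a y) e x) ∈ O x` for all `N ≥ N_{x,y}` by `dim1` (D1.lean) if `f_y ≠ 0` (nonunit at `x`, regular; larger powers are fine because `f_y ∈ O x`), and trivially if `f_y = 0`, `N ≥ 1`.  Take `N` larger than all `N_{x,y}`.
-/

set_option autoImplicit false

namespace Pool.Agent.H41.TK

open Pool.Agent.H54.RV Pool.Agent.H83.TU

variable {k K : Type} [Field k] [Field K] [Algebra k K] {X : Mod k K}

private theorem wk_sum {A : Subalgebra k K} [IsLocalRing A] {ι : Type} (S : Finset ι) (g : ι → K)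
    (hg : ∀ y ∈ S, g y ∈ A) (hn : ∀ y ∈ S, ¬ Un A (g y)) : ¬ Un A (∑ y ∈ S, g y) := by
  classical
  induction S using Finset.induction_on with
  | empty =>
    rw [Finset.sum_empty]
    exact fun h => h.1 rfl
  | insert y S hy ih =>
    rw [Finset.sum_insert hy]
    intro h
    have h1 : ∀ z ∈ S, g z ∈ A := fun z hz => hg z (Finset.mem_insert_of_mem hz)
    rcases un_add (hg y (Finset.mem_insert_self y S)) (A.sum_mem h1) h with h2 | h2
    · exact hn y (Finset.mem_insert_self y S) h2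
    · exact ih h1 (fun z hz => hn z (Finset.mem_insert_of_mem hz)) h2

private theorem wk_neg {A : Subalgebra k K} {a : K} (h : Un A (-a)) : Un A a := by
  refine ⟨neg_ne_zero.1 h.1, neg_mem_iff.1 h.2.1, ?_⟩
  have h1 := h.2.2
  rw [inv_neg] at h1
  exact neg_mem_iff.1 h1

theorem weak [CharZero k] (h : Crv X) (T : Finset X.P) (hT : ∀ x ∈ T, X.O x ≠ ⊤) (a e : X.P → K)
    (he : ∀ x ∈ T, e x ≠ 0) : ∃ f : K, ∀ x ∈ T, (a x - f) * e x ∈ X.O x := by
  classical
  choose! F hF1 hF2 hF3 using fun y hy => sep h T hT y hy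
  have hev : ∀ᶠ n in Filter.atTop, ∀ x ∈ T, ∀ y ∈ T, x ≠ y →
      F y ^ n * ((a x - a y) * e x) ∈ X.O x := by
    rw [Filter.eventually_all_finset]
    intro x hx
    rw [Filter.eventually_all_finset]
    intro y hy
    by_cases hxy : x = y
    · exact Filter.Eventually.of_forall fun n hne => absurd hxy hne
    by_cases h0 : F y = 0
    · filter_upwards [Filter.eventually_ge_atTop 1] with n hn _
      rw [h0, zero_pow (by omega), zero_mul]
      exact (X.O x).zero_mem
    · obtain ⟨n, hn⟩ := dim1 h x (F y) (hF1 y hy x hx) h0 (hF3 y hy x hx hxy) ((a x - a y) * e x)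
      filter_upwards [Filter.eventually_ge_atTop n] with m hm _
      obtain ⟨j, rfl⟩ : ∃ j, m = j + n := ⟨m - n, by omega⟩
      rw [pow_add, mul_assoc]
      exact (X.O x).mul_mem ((X.O x).pow_mem (hF1 y hy x hx) j) hn
  obtain ⟨N, hN, hN1⟩ := (hev.and (Filter.eventually_ge_atTop 1)).exists
  have hS : ∀ x ∈ T, Un (X.O x) (∑ y ∈ T, F y ^ N) := by
    intro x hx
    have hmem : ∀ y ∈ T, F y ^ N ∈ X.O x := fun y hy => (X.O x).pow_mem (hF1 y hy x hx) N
    have h1 : ¬ Un (X.O x) (∑ y ∈ T.erase x, F y ^ N) :=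
      wk_sum _ _ (fun y hy => hmem y (Finset.mem_of_mem_erase hy)) (fun y hy hu =>
        hF3 y (Finset.mem_of_mem_erase hy) x hx (Finset.ne_of_mem_erase hy).symm
          ((un_pow_iff (hF1 y (Finset.mem_of_mem_erase hy) x hx) hN1).1 hu))
    have h2 : F x ^ N = (∑ y ∈ T, F y ^ N) + -(∑ y ∈ T.erase x, F y ^ N) := by
      rw [← Finset.add_sum_erase T (fun y => F y ^ N) hx]
      ring
    have h3 : Un (X.O x) ((∑ y ∈ T, F y ^ N) + -(∑ y ∈ T.erase x, F y ^ N)) := by
      rw [← h2]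
      exact un_pow (hF2 x hx) N
    rcases un_add ((X.O x).sum_mem hmem) ((X.O x).neg_mem ((X.O x).sum_mem fun y hy =>
      hmem y (Finset.mem_of_mem_erase hy))) h3 with h4 | h4
    · exact h4
    · exact absurd (wk_neg h4) h1
  refine ⟨(∑ y ∈ T, a y * F y ^ N) / (∑ y ∈ T, F y ^ N), fun x hx => ?_⟩
  have hSx := hS x hx
  have h5 : (a x - (∑ y ∈ T, a y * F y ^ N) / (∑ y ∈ T, F y ^ N)) * e x =
      (∑ y ∈ T, F y ^ N * ((a x - a y) * e x)) * (∑ y ∈ T, F y ^ N)⁻¹ := by
    have h6 : (∑ y ∈ T, F y ^ N * ((a x - a y) * e x)) =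
        (a x * (∑ y ∈ T, F y ^ N) - ∑ y ∈ T, a y * F y ^ N) * e x := by
      rw [Finset.mul_sum, ← Finset.sum_sub_distrib, Finset.sum_mul]
      refine Finset.sum_congr rfl fun y _ => ?_
      ring
    rw [h6]
    have h7 := hSx.1
    field_simp
  rw [h5]
  refine (X.O x).mul_mem ((X.O x).sum_mem fun y hy => ?_) hSx.2.2
  by_cases hxy : x = y
  · rw [hxy, sub_self, zero_mul, mul_zero]
    exact (X.O y).zero_mem
  · exact hN x hx y hy hxy

end Pool.Agent.H41.TK
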